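import Pool.Agent.TH526.ZL.N

/-!
Values of products of linear forms at all but finitely many rational points of the line: exponents
at large primes (helper file).
-/

set_option autoImplicit false

namespace Pool.Agent.TH526.ZL

/-- For all but finitely many rational numbers `t`, the numbers
`∏ l, |num t - α l * den t| ^ a l i` have the exponents `v l * a (f l) i` at `L` large primes. -/
theorem finite_param {L M : ℕ} (hM : L + 2 ≤ M) (α : Fin M → ℤ) (hα : Function.Injective α)
    (D : ℕ) :
    {t : ℚ | ¬ ∃ f : Fin L → Fin M, Function.Injective f ∧ ∃ p v : Fin L → ℕ,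
      (∀ l, (p l).Prime ∧ D < p l ∧ 0 < v l) ∧
      ∀ (ι : Type) (a : Fin M → ι → ℕ) (i : ι) (l : Fin L),
        (∏ l', (t.num - α l' * t.den).natAbs ^ a l' i).factorization (p l) =
          a (f l) i * v l}.Finite := by
  classical
  let D' : ℕ := D + ∑ l, ∑ l', (α l - α l').natAbs
  have hαQ : Function.Injective fun l => ((α l : ℤ) : ℚ) := fun l l' h => hα (Int.cast_injective h)
  refine ((finite_bad D' hM (fun l => ((α l : ℤ) : ℚ)) hαQ).union
    (Set.finite_range fun l => ((α l : ℤ) : ℚ))).subset ?_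
  intro t ht
  by_contra hcon
  rw [Set.mem_union, not_or] at hcon
  obtain ⟨h1, h2⟩ := hcon
  rw [Set.mem_ofPred_eq, not_not] at h1
  obtain ⟨f, hf, hp⟩ := h1
  rw [Set.mem_ofPred_eq] at ht
  apply ht
  choose p hp hpD hdvd using hp
  let F : Fin M → ℤ := fun l => t.num - α l * t.den
  have hF0 : ∀ l, F l ≠ 0 := by
    intro l h
    apply h2
    refine ⟨l, ?_⟩
    have h3 : (t.num : ℚ) = (α l : ℚ) * t.den := by
      have h4 : t.num = α l * t.den := by
        have : t.num - α l * t.den = 0 := h
        omega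
      exact_mod_cast h4
    have h4 : (t.den : ℚ) ≠ 0 := by exact_mod_cast t.den_ne_zero
    have h5 : t = (t.num : ℚ) / t.den := (Rat.num_div_den t).symm
    show (α l : ℚ) = t
    rw [h5, h3, mul_div_cancel_right₀ _ h4]
  have hFdvd : ∀ l, (p l : ℤ) ∣ F (f l) := by
    intro l
    have hpZ : Prime (p l : ℤ) := Nat.prime_iff_prime_int.1 (hp l)
    set q : ℚ := t - α (f l) with hq
    have h1 : q.num * t.den = F (f l) * q.den := by
      have e1 : (t : ℚ) * t.den = t.num := Rat.mul_den_eq_num t
      have e3 : q * q.den = q.num := Rat.mul_den_eq_num q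
      have h2 : ((q.num * t.den : ℤ) : ℚ) = ((F (f l) * q.den : ℤ) : ℚ) := by
        push_cast [F]
        rw [← e3, ← e1, hq]
        ring
      exact_mod_cast h2
    have h3 : (p l : ℤ) ∣ F (f l) * q.den := by
      rw [← h1]
      exact Dvd.dvd.mul_right (hdvd l) _
    rcases hpZ.dvd_or_dvd h3 with h4 | h4
    · exact h4
    · exfalso
      have h5 : p l ∣ q.num.natAbs := Int.natCast_dvd.1 (hdvd l)
      have h6 := Nat.dvd_gcd h5 (Int.natCast_dvd_natCast.1 h4)
      rw [Nat.Coprime.gcd_eq_one q.reduced] at h6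
      exact (hp l).one_lt.ne' (Nat.dvd_one.1 h6)
  have hFnot : ∀ l l', l' ≠ f l → ¬ (p l : ℤ) ∣ F l' := by
    intro l l' hne hd
    have hpZ : Prime (p l : ℤ) := Nat.prime_iff_prime_int.1 (hp l)
    have h1 : (p l : ℤ) ∣ (α l' - α (f l)) * t.den := by
      have h2 := dvd_sub (hFdvd l) hd
      have h3 : F (f l) - F l' = (α l' - α (f l)) * t.den := by
        simp only [F]
        ring
      rwa [h3] at h2
    rcases hpZ.dvd_or_dvd h1 with h2 | h2
    · have h3 : α l' - α (f l) ≠ 0 := sub_ne_zero.2 fun h => hne (hα h)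
      have h4 := Nat.le_of_dvd (Int.natAbs_pos.2 h3) (Int.natCast_dvd.1 h2)
      have h5 : (α l' - α (f l)).natAbs ≤ ∑ l'', (α l' - α l'').natAbs :=
        Finset.single_le_sum (f := fun l'' => (α l' - α l'').natAbs) (fun _ _ => Nat.zero_le _)
          (Finset.mem_univ _)
      have h6 : ∑ l'', (α l' - α l'').natAbs ≤ ∑ l, ∑ l', (α l - α l').natAbs :=
        Finset.single_le_sum (f := fun l => ∑ l'', (α l - α l'').natAbs)
          (fun _ _ => Nat.zero_le _) (Finset.mem_univ _)
      have h7 := hpD l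
      omega
    · have h3 : (p l : ℤ) ∣ t.num := by
        have h4 : F (f l) + α (f l) * t.den = t.num := by
          simp only [F]
          ring
        rw [← h4]
        exact dvd_add (hFdvd l) (Dvd.dvd.mul_left h2 _)
      have h5 := Nat.dvd_gcd (Int.natCast_dvd.1 h3) (Int.natCast_dvd_natCast.1 h2)
      rw [Nat.Coprime.gcd_eq_one t.reduced] at h5
      exact (hp l).one_lt.ne' (Nat.dvd_one.1 h5)
  refine ⟨f, hf, p, fun l => (F (f l)).natAbs.factorization (p l), fun l => ⟨hp l, ?_, ?_⟩, ?_⟩
  · have := hpD l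
    omega
  · exact (hp l).factorization_pos_of_dvd (Int.natAbs_ne_zero.2 (hF0 _))
      (Int.natCast_dvd.1 (hFdvd l))
  · intro ι a i l
    show (∏ l', (F l').natAbs ^ a l' i).factorization (p l) = _
    rw [Nat.factorization_prod (fun l' _ => pow_ne_zero _ (Int.natAbs_ne_zero.2 (hF0 l')))]
    simp only [Finsupp.coe_finsetSum, Finset.sum_apply]
    rw [Finset.sum_eq_single (f l)]
    · rw [Nat.factorization_pow]
      rfl
    · intro l' _ hne
      rw [Nat.factorization_pow, Finsupp.smul_apply, Nat.factorization_eq_zero_of_not_dvd,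
        smul_zero]
      intro h
      exact hFnot l l' hne (Int.natCast_dvd.2 h)
    · intro h
      exact absurd (Finset.mem_univ _) h

end Pool.Agent.TH526.ZL
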