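import Pool.Agent.TH526.ZL.D

/-!
A projective set given by forms over a ring has points over some field above a prime ideal if it has
points over one algebraically closed field (helper file).
-/

open Function MvPolynomial

namespace Pool.Agent.TH526.ZL

/-- Nullstellensatz: a system of equations over `Λ` which has only the solution `0` over one
algebraically closed field over `Λ / 𝔭` has only this solution over every field over `Λ / 𝔭`. -/
theorem transfer {Λ : Type} [CommRing Λ] {σ β : Type*} [Finite σ] (P : β → MvPolynomial σ Λ)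
    {F : Type} [Field F] [IsAlgClosed F] (φ : Λ →+* F)
    (h : ∀ y : σ → F, (∀ b, eval₂ φ y (P b) = 0) → y = 0)
    {F' : Type} [Field F'] (φ' : Λ →+* F') (hker : RingHom.ker φ' = RingHom.ker φ) (y : σ → F')
    (hy : ∀ b, eval₂ φ' y (P b) = 0) : y = 0 := by
  classical
  have hprime : (RingHom.ker φ).IsPrime := RingHom.ker_isPrime φ
  let D := Λ ⧸ RingHom.ker φ
  let k := FractionRing D
  let ι : Λ →+* k := (algebraMap D k).comp (Ideal.Quotient.mk _)
  have hz : ∀ a : Λ, a ∈ RingHom.ker φ → φ' a = 0 := by
    intro a ha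
    rw [← hker, RingHom.mem_ker] at ha
    exact ha
  let φD : D →+* F := Ideal.Quotient.lift _ φ (fun a ha => ha)
  let φD' : D →+* F' := Ideal.Quotient.lift _ φ' hz
  have hφD : Function.Injective φD := by
    rw [injective_iff_map_eq_zero]
    intro a
    obtain ⟨a, rfl⟩ := Ideal.Quotient.mk_surjective a
    intro ha
    exact Ideal.Quotient.eq_zero_iff_mem.2 ha
  have hφD' : Function.Injective φD' := by
    rw [injective_iff_map_eq_zero]
    intro a
    obtain ⟨a, rfl⟩ := Ideal.Quotient.mk_surjective a
    intro ha
    refine Ideal.Quotient.eq_zero_iff_mem.2 ?_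
    rw [← hker]
    exact ha
  let φk : k →+* F := IsFractionRing.lift hφD
  let φk' : k →+* F' := IsFractionRing.lift hφD'
  have e1 : φk.comp ι = φ := by
    ext a
    show IsFractionRing.lift hφD (algebraMap D k (Ideal.Quotient.mk _ a)) = φ a
    rw [IsFractionRing.lift_algebraMap]
    rfl
  have e2 : φk'.comp ι = φ' := by
    ext a
    show IsFractionRing.lift hφD' (algebraMap D k (Ideal.Quotient.mk _ a)) = φ' a
    rw [IsFractionRing.lift_algebraMap]
    rfl
  let _ : Algebra k F := φk.toAlgebra
  let J : Ideal (MvPolynomial σ k) := Ideal.span (Set.range fun b => MvPolynomial.map ι (P b))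
  have hrad : ∀ j, (X j : MvPolynomial σ k) ∈ J.radical := by
    intro j
    rw [← vanishingIdeal_zeroLocus_eq_radical (K := F), mem_vanishingIdeal_iff]
    intro z hz
    rw [mem_zeroLocus_iff] at hz
    have hz0 : z = 0 := by
      apply h
      intro b
      have h1 := hz _ (Ideal.subset_span ⟨b, rfl⟩)
      rw [aeval_def, eval₂_map] at h1
      have h2 : (algebraMap k F).comp ι = φ := e1
      rw [h2] at h1
      exact h1
    rw [aeval_X, hz0, Pi.zero_apply]
  funext j
  obtain ⟨M, hM⟩ := hrad j
  have hle : J ≤ RingHom.ker (eval₂Hom φk' y) := by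
    rw [Ideal.span_le]
    rintro _ ⟨b, rfl⟩
    rw [SetLike.mem_coe, RingHom.mem_ker, coe_eval₂Hom, eval₂_map, e2]
    exact hy b
  have h1 := hle hM
  rw [RingHom.mem_ker, map_pow, coe_eval₂Hom, eval₂_X] at h1
  exact eq_zero_of_pow_eq_zero h1

end Pool.Agent.TH526.ZL
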