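import Mathlib
import Pool.Agent.TH551.SU.CS
import Pool.Agent.TH551.SU.Sui

/-!
The S-unit equation over the rational numbers: in a vanishing sum of S-units with given nonzero
coefficients, every term has a proportional one with quotient in a finite set. From the
independence of germs of S-units (helper files of TH551, which use the S-adic subspace theorem of
TH461). Consequence: all but finitely many rational numbers `τ` are such that only two of the
numerators of `τ - α l` can be smooth.
-/

set_option autoImplicit false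

namespace Pool.Agent.TH526.ZL

open Filter Topology Pool.Agent.TH932.Germs Pool.Agent.TH551.SU

theorem negl_const {L : ℕ → ℝ} (hL : Tendsto L atTop atTop) (c : ℤ) : Negl L (fun _ => c) := by
  intro ε hε
  apply ev_of_atTop
  filter_upwards [hL.eventually_ge_atTop (|(c : ℝ)| / ε)] with n hn
  have h1 : |(c : ℝ)| ≤ ε * L n := by
    rw [div_le_iff₀ hε] at hn
    linarith
  linarith [Real.add_one_le_exp (ε * L n)]

theorem const_mem {L : ℕ → ℝ} (hL : Tendsto L atTop atTop) (c : ℚ) : gm (fun _ => c) ∈ KK L hL := by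
  rw [mem_KK_iff]
  exact ⟨negl_const hL _, negl_const hL _⟩

/-- In a vanishing sum of `S`-units with nonzero coefficients every term has a proportional one,
with quotient of bounded height. -/
theorem sunit {s : ℕ} (b : Fin s → ℕ) (hb : ∀ v, (b v).Prime) (hbi : Function.Injective b)
    {m : ℕ} (a : Fin m → ℚ) (ha : ∀ i, a i ≠ 0) (i₀ : Fin m) :
    ∃ H : ℕ, ∀ x : Fin m → ℚ, (∀ i, IsSU b (x i)) → ∑ i, a i * x i = 0 →
      ∃ j, j ≠ i₀ ∧ (x i₀ / x j).num.natAbs ≤ H ∧ (x i₀ / x j).den ≤ H := by
  classical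
  by_contra hcon
  push Not at hcon
  choose X hX hsum hbig using hcon
  let L : ℕ → ℝ := fun n => Real.log (n + 1)
  have hL : Tendsto L atTop atTop :=
    Real.tendsto_log_atTop.comp (tendsto_atTop_add_const_right _ _ tendsto_natCast_atTop_atTop)
  have hX0 : ∀ n i, X n i ≠ 0 := by
    intro n i
    obtain ⟨σ, e, hσ, he⟩ := hX n i
    rw [he]
    refine mul_ne_zero ?_ (Finset.prod_ne_zero_iff.mpr fun v _ => zpow_ne_zero _ ?_)
    · rcases hσ with rfl | rfl <;> norm_num
    · exact_mod_cast (hb v).ne_zero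
  let u : Fin m → GG := fun i => gm (fun n => X n i)
  have hu0 : ∀ i, u i ≠ 0 := fun i => gm_ne_zero.2 (Eventually.of_forall fun n => hX0 n i)
  have hnot : ∀ j, j ≠ i₀ → u i₀ / u j ∉ KK L hL := by
    intro j hj hmem
    change gm (fun n => X n i₀) / gm (fun n => X n j) ∈ KK L hL at hmem
    rw [gm_div, mem_KK_iff] at hmem
    obtain ⟨h1, h2⟩ := hmem
    have h3 := h1 (1 / 2) (by norm_num)
    have h4 := h2 (1 / 2) (by norm_num)
    have h5 : ∀ᶠ n in (UU : Filter ℕ), 1 ≤ n := ev_of_atTop (eventually_ge_atTop 1)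
    obtain ⟨n, h3, h4, h5⟩ := (h3.and (h4.and h5)).exists
    have hexp : Real.exp (1 / 2 * L n) < (n : ℝ) + 1 := by
      have hn1 : (1 : ℝ) < (n : ℝ) + 1 := by
        have : (1 : ℝ) ≤ n := by exact_mod_cast h5
        linarith
      have hlog : 0 < Real.log ((n : ℝ) + 1) := Real.log_pos hn1
      calc Real.exp (1 / 2 * L n) < Real.exp (L n) := by
            apply Real.exp_lt_exp.2
            show 1 / 2 * Real.log ((n : ℝ) + 1) < Real.log ((n : ℝ) + 1)
            linarith
        _ = (n : ℝ) + 1 := Real.exp_log (by linarith)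
    have h6 : (X n i₀ / X n j).num.natAbs ≤ n := by
      have h7 : ((X n i₀ / X n j).num.natAbs : ℝ) < (n : ℝ) + 1 := by
        rw [Nat.cast_natAbs]
        push_cast
        exact h3.trans_lt hexp
      have h8 : (X n i₀ / X n j).num.natAbs < n + 1 := by exact_mod_cast h7
      omega
    have h7 : (X n i₀ / X n j).den ≤ n := by
      have h7 : ((X n i₀ / X n j).den : ℝ) < (n : ℝ) + 1 := by
        refine lt_of_le_of_lt ?_ hexp
        have h9 := h4
        push_cast at h9
        rwa [abs_of_nonneg (Nat.cast_nonneg _)] at h9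
      have h8 : (X n i₀ / X n j).den < n + 1 := by exact_mod_cast h7
      omega
    exact absurd h7 (not_le.2 (hbig n j hj h6))
  have hfield := fun (x y : GG) => (KK L hL).mul_mem (x := x) (y := y)
  have hcs := CS.cs SUI.sui s b hb hbi L hL (Fin m) Finset.univ
    (fun i => (⟨gm (fun _ => a i), const_mem hL (a i)⟩ : KK L hL)) u
    (fun i => if u i / u i₀ ∈ KK L hL then 1 else 0)
    (fun i _ => ⟨fun n => X n i, rfl, fun n => hX n i⟩) ?_ ?_
  · have h1 := congrArg (fun P : Polynomial GG => P.coeff 1) hcs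
    simp only [Polynomial.finsetSum_coeff, Polynomial.coeff_C_mul, Polynomial.coeff_X_pow,
      Polynomial.coeff_zero] at h1
    rw [Finset.sum_eq_single i₀] at h1
    · have h2 : u i₀ / u i₀ ∈ KK L hL := by
        rw [div_self (hu0 i₀)]
        exact (KK L hL).one_mem
      rw [if_pos h2] at h1
      simp only [if_true, mul_one] at h1
      rcases mul_eq_zero.1 h1 with h3 | h3
      · exact gm_ne_zero.2 (Eventually.of_forall fun _ => ha i₀) h3
      · exact hu0 i₀ h3
    · intro j _ hj
      have h2 : u j / u i₀ ∉ KK L hL := by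
        intro h
        apply hnot j hj
        have h3 := (KK L hL).inv_mem h
        rwa [inv_div] at h3
      rw [if_neg h2]
      simp
    · intro h
      exact absurd (Finset.mem_univ _) h
  · intro i _ j _ hij
    have h1 : u i / u i₀ ∈ KK L hL ↔ u j / u i₀ ∈ KK L hL := by
      constructor
      · intro h
        have h2 := (KK L hL).mul_mem ((KK L hL).inv_mem hij) h
        rw [inv_div, div_mul_div_cancel₀ (hu0 i)] at h2
        exact h2
      · intro h
        have h2 := (KK L hL).mul_mem hij h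
        rw [div_mul_div_cancel₀ (hu0 j)] at h2
        exact h2
    simp only [h1]
  · have h1 : ∑ i, gm (fun _ => a i) * u i = gm (fun n => ∑ i, a i * X n i) := by
      have h2 : ∀ A : Finset (Fin m), ∑ i ∈ A, gm (fun _ => a i) * u i =
          gm (fun n => ∑ i ∈ A, a i * X n i) := by
        intro A
        induction A using Finset.induction_on with
        | empty => simp only [Finset.sum_empty]; rw [gm_zero]
        | insert i A hi ih =>
          rw [Finset.sum_insert hi, ih]
          change gm (fun _ => a i) * gm (fun n => X n i) + _ = _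
          rw [gm_mul, gm_add]
          congr 1
          funext n
          rw [Finset.sum_insert hi]
      exact h2 _
    rw [h1]
    simp only [hsum]
    exact gm_zero

/-- the numerator of `q` has no prime factor larger than `D` -/
def Smooth (D : ℕ) (q : ℚ) : Prop := ∀ p : ℕ, p.Prime → D < p → ¬ (p : ℤ) ∣ q.num

theorem isSU_of {D : ℕ} {s : ℕ} {b : Fin s → ℕ} (hb : ∀ p : ℕ, p.Prime → p ≤ D → ∃ v, b v = p)
    (hb0 : ∀ v, b v ≠ 0) (z : ℤ) (hz : z ≠ 0) (h : ∀ p : ℕ, p.Prime → D < p → ¬ (p : ℤ) ∣ z) :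
    IsSU b (z : ℚ) := by
  have hnat : ∀ N : ℕ, N ≠ 0 → (∀ p : ℕ, p.Prime → p ∣ N → ∃ v, b v = p) → IsSU b (N : ℚ) := by
    intro N
    induction N using induction_on_primes with
    | zero => intro h0; exact absurd rfl h0
    | one =>
      intro _ _
      exact ⟨1, 0, Or.inl rfl, by simp⟩
    | prime_mul p a hp ih =>
      intro hN h
      have ha : a ≠ 0 := fun h0 => hN (by rw [h0, mul_zero])
      obtain ⟨v, hv⟩ := h p hp (dvd_mul_right p a)
      obtain ⟨σ, e, hσ, he⟩ := ih ha fun q hq hqa => h q hq (hqa.trans (dvd_mul_left a p))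
      refine ⟨σ, fun w => e w + if w = v then 1 else 0, hσ, ?_⟩
      have h1 : ∏ w, (b w : ℚ) ^ (e w + if w = v then 1 else 0) =
          (∏ w, (b w : ℚ) ^ (e w)) * b v := by
        have h2 : ∀ w, (b w : ℚ) ^ (e w + if w = v then (1 : ℤ) else 0) =
            (b w : ℚ) ^ (e w) * (if w = v then (b w : ℚ) else 1) := by
          intro w
          rw [zpow_add₀ (by exact_mod_cast hb0 w)]
          by_cases hw : w = v
          · simp [hw]
          · simp [hw]
        simp only [h2, Finset.prod_mul_distrib]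
        congr 1
        rw [Finset.prod_ite_eq' Finset.univ v fun w => (b w : ℚ)]
        simp
      rw [h1, hv]
      push_cast
      rw [he]
      ring
  have h1 : IsSU b ((z.natAbs : ℕ) : ℚ) := by
    refine hnat _ (Int.natAbs_ne_zero.2 hz) fun p hp hpd => hb p hp ?_
    by_contra hlt
    push Not at hlt
    exact h p hp hlt (Int.natCast_dvd.2 hpd)
  obtain ⟨σ, e, hσ, he⟩ := h1
  rcases Int.natAbs_eq z with h4 | h4
  · refine ⟨σ, e, hσ, ?_⟩
    rw [← he, ← Int.cast_natCast, ← h4]
  · refine ⟨-σ, e, ?_, ?_⟩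
    · rcases hσ with rfl | rfl
      · exact Or.inr rfl
      · left
        norm_num
    · have h5 : (z : ℚ) = -((z.natAbs : ℕ) : ℚ) := by
        conv_lhs => rw [h4]
        rw [Int.cast_neg, Int.cast_natCast]
      rw [h5, he]
      push_cast
      ring

/-- The numbers `τ` such that three of the numerators of `τ - α` are smooth are finite in number. -/
theorem three_smooth (D : ℕ) (α : Fin 3 → ℚ) (hα : Function.Injective α) :
    {τ : ℚ | (∀ i, τ ≠ α i) ∧ ∀ i, Smooth D (τ - α i)}.Finite := by
  classical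
  -- the primes
  let D' : ℕ := D + ∑ i, (α i).den
  let P : Finset ℕ := (Finset.range (D' + 1)).filter Nat.Prime
  let b : Fin P.card → ℕ := fun v => (P.equivFin.symm v : ℕ)
  have hbP : ∀ v, (b v).Prime := fun v => (Finset.mem_filter.1 (P.equivFin.symm v).2).2
  have hbi : Function.Injective b := fun v w h => P.equivFin.symm.injective (Subtype.ext h)
  have hbs : ∀ p : ℕ, p.Prime → p ≤ D' → ∃ v, b v = p := by
    intro p hp hpD
    refine ⟨P.equivFin ⟨p, Finset.mem_filter.2 ⟨Finset.mem_range.2 (by omega), hp⟩⟩, ?_⟩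
    show ((P.equivFin.symm _ : P) : ℕ) = p
    rw [Equiv.symm_apply_apply]
  have h01 : α 0 ≠ α 1 := fun h => absurd (hα h) (by decide)
  have h02 : α 0 ≠ α 2 := fun h => absurd (hα h) (by decide)
  have h12 : α 1 ≠ α 2 := fun h => absurd (hα h) (by decide)
  let a : Fin 3 → ℚ := ![(α 1 - α 2) / (α 0).den, (α 2 - α 0) / (α 1).den, (α 0 - α 1) / (α 2).den]
  have hden : ∀ i, ((α i).den : ℚ) ≠ 0 := fun i => by exact_mod_cast (α i).den_ne_zero
  have ha : ∀ i, a i ≠ 0 := by
    intro i
    fin_cases i
    · exact div_ne_zero (sub_ne_zero.2 h12) (hden 0)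
    · exact div_ne_zero (sub_ne_zero.2 h02.symm) (hden 1)
    · exact div_ne_zero (sub_ne_zero.2 h01) (hden 2)
  obtain ⟨H, hH⟩ := sunit b hbP hbi a ha 0
  -- the set of the quotients
  let F : Set ℚ := {q : ℚ | q.num.natAbs ≤ H ∧ q.den ≤ H}
  have hF : F.Finite := by
    have h1 : F ⊆ (fun q : ℤ × ℕ => (q.1 : ℚ) / q.2) ''
        ((Finset.Icc (-(H : ℤ)) H ×ˢ Finset.range (H + 1) : Finset (ℤ × ℕ)) : Set (ℤ × ℕ)) := by
      rintro q ⟨hq1, hq2⟩
      refine ⟨(q.num, q.den), ?_, Rat.num_div_den q⟩
      rw [Finset.mem_coe, Finset.mem_product, Finset.mem_Icc, Finset.mem_range]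
      refine ⟨⟨?_, ?_⟩, by omega⟩ <;> simp only <;> omega
    exact ((Finset.finite_toSet _).image _).subset h1
  -- the exceptional set
  have hsub : {τ : ℚ | (∀ i, τ ≠ α i) ∧ ∀ i, Smooth D (τ - α i)} ⊆
      ⋃ j : Fin 3, ((fun q : ℚ => (α 0 - q * ((α j).den / (α 0).den) * α j) /
        (1 - q * ((α j).den / (α 0).den))) '' F) := by
    rintro τ ⟨hτ, hsm⟩
    -- integers
    let x : Fin 3 → ℤ := fun i => τ.num * (α i).den - (α i).num * τ.den
    have hx : ∀ i, (x i : ℚ) = (τ - α i) * (τ.den * (α i).den) := by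
      intro i
      have e1 : (τ : ℚ) * τ.den = τ.num := Rat.mul_den_eq_num τ
      have e2 : α i * (α i).den = (α i).num := Rat.mul_den_eq_num (α i)
      push_cast [x]
      rw [← e1, ← e2]
      ring
    have hτden : (τ.den : ℚ) ≠ 0 := by exact_mod_cast τ.den_ne_zero
    have hx0 : ∀ i, x i ≠ 0 := by
      intro i h
      have h1 := hx i
      rw [h, Int.cast_zero] at h1
      exact mul_ne_zero (sub_ne_zero.2 (hτ i)) (mul_ne_zero hτden (hden i)) h1.symm
    have hxsm : ∀ i, ∀ p : ℕ, p.Prime → D' < p → ¬ (p : ℤ) ∣ x i := by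
      intro i p hp hpD hdvd
      have hpw : ¬ p ∣ (α i).den := by
        intro h
        have h1 := Nat.le_of_dvd (α i).den_pos h
        have h2 : (α i).den ≤ ∑ i, (α i).den :=
          Finset.single_le_sum (f := fun i => (α i).den) (fun _ _ => Nat.zero_le _)
            (Finset.mem_univ i)
        omega
      have hpZ : Prime (p : ℤ) := Nat.prime_iff_prime_int.1 hp
      have hpd : ¬ p ∣ τ.den := by
        intro h
        have h1 : (p : ℤ) ∣ τ.num * (α i).den := by
          have h2 : (p : ℤ) ∣ (α i).num * τ.den :=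
            Dvd.dvd.mul_left (Int.natCast_dvd_natCast.2 h) _
          have h3 := dvd_add hdvd h2
          simpa [x] using h3
        rcases hpZ.dvd_or_dvd h1 with h2 | h2
        · have h3 : p ∣ τ.num.natAbs := Int.natCast_dvd.1 h2
          have h4 := Nat.dvd_gcd h3 h
          rw [Nat.Coprime.gcd_eq_one τ.reduced] at h4
          exact hp.one_lt.ne' (Nat.dvd_one.1 h4)
        · exact hpw (Int.natCast_dvd_natCast.1 h2)
      apply hsm i p hp (by omega)
      have h1 : (τ - α i).num * ((τ.den : ℤ) * (α i).den) = x i * (τ - α i).den := by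
        have e3 : (τ - α i) * (τ - α i).den = (τ - α i).num := Rat.mul_den_eq_num _
        have h2 : (((τ - α i).num * ((τ.den : ℤ) * (α i).den) : ℤ) : ℚ) =
            ((x i * (τ - α i).den : ℤ) : ℚ) := by
          rw [Int.cast_mul, Int.cast_mul, Int.cast_mul (x i), hx i, ← e3]
          push_cast
          ring
        exact_mod_cast h2
      have h2 : (p : ℤ) ∣ (τ - α i).num * ((τ.den : ℤ) * (α i).den) := by
        rw [h1]
        exact Dvd.dvd.mul_right hdvd _
      rcases hpZ.dvd_or_dvd h2 with h3 | h3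
      · exact h3
      · rcases hpZ.dvd_or_dvd h3 with h4 | h4
        · exact absurd (Int.natCast_dvd_natCast.1 h4) hpd
        · exact absurd (Int.natCast_dvd_natCast.1 h4) hpw
    obtain ⟨j, hj0, hj1, hj2⟩ := hH (fun i => (x i : ℚ))
      (fun i => isSU_of hbs (fun v => (hbP v).ne_zero) (x i) (hx0 i) (hxsm i)) (by
        rw [Fin.sum_univ_three, hx 0, hx 1, hx 2]
        simp only [a, Matrix.cons_val_zero, Matrix.cons_val_one, Matrix.cons_val]
        have e0 := hden 0
        have e1 := hden 1
        have e2 := hden 2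
        field_simp
        ring)
    refine Set.mem_iUnion.2 ⟨j, (x 0 : ℚ) / x j, ⟨hj1, hj2⟩, ?_⟩
    have hd0 := hden 0
    have hdj := hden j
    have hxj : (x 0 : ℚ) / x j = (τ - α 0) * (α 0).den / ((τ - α j) * (α j).den) := by
      rw [hx 0, hx j]
      have h3 : τ - α j ≠ 0 := sub_ne_zero.2 (hτ j)
      field_simp
    have h3 : τ - α j ≠ 0 := sub_ne_zero.2 (hτ j)
    have h4 : (x 0 : ℚ) / x j * ((α j).den / (α 0).den) = (τ - α 0) / (τ - α j) := by
      rw [hxj]
      field_simp
    have h5 : α j ≠ α 0 := fun h => hj0 (hα h)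
    simp only
    rw [h4]
    have h6 : 1 - (τ - α 0) / (τ - α j) ≠ 0 := by
      have h7 : 1 - (τ - α 0) / (τ - α j) = (α 0 - α j) / (τ - α j) := by
        field_simp
        ring
      rw [h7]
      exact div_ne_zero (sub_ne_zero.2 h5.symm) h3
    rw [div_eq_iff h6]
    field_simp
    ring
  exact (Set.finite_iUnion fun j => hF.image _).subset hsub

/-- The numbers `τ` such that fewer than `M - 2` of the numerators of `τ - α` have a large prime
factor are finite in number. -/
theorem finite_bad (D : ℕ) {M L : ℕ} (hM : L + 2 ≤ M) (α : Fin M → ℚ)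
    (hα : Function.Injective α) :
    {τ : ℚ | ¬ ∃ f : Fin L → Fin M, Function.Injective f ∧
      ∀ l, ∃ p : ℕ, p.Prime ∧ D < p ∧ (p : ℤ) ∣ (τ - α (f l)).num}.Finite := by
  classical
  have hsub : {τ : ℚ | ¬ ∃ f : Fin L → Fin M, Function.Injective f ∧
      ∀ l, ∃ p : ℕ, p.Prime ∧ D < p ∧ (p : ℤ) ∣ (τ - α (f l)).num} ⊆
      Set.range α ∪ ⋃ g : {g : Fin 3 → Fin M // Function.Injective g},
        {τ : ℚ | (∀ i, τ ≠ α (g.1 i)) ∧ ∀ i, Smooth D (τ - α (g.1 i))} := by
    intro τ hτ
    by_cases hr : τ ∈ Set.range α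
    · exact Or.inl hr
    right
    let Gd : Finset (Fin M) := Finset.univ.filter fun l =>
      ∃ p : ℕ, p.Prime ∧ D < p ∧ (p : ℤ) ∣ (τ - α l).num
    have hcard : Gd.card < L := by
      by_contra hge
      push Not at hge
      apply hτ
      obtain ⟨S, hS, hSc⟩ := Finset.exists_subset_card_eq hge
      refine ⟨fun l => S.orderEmbOfFin hSc l, (S.orderEmbOfFin hSc).injective, fun l => ?_⟩
      exact (Finset.mem_filter.1 (hS (Finset.orderEmbOfFin_mem S hSc l))).2
    have hcompl : 3 ≤ Gdᶜ.card := by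
      rw [Finset.card_compl, Fintype.card_fin]
      omega
    obtain ⟨S, hS, hSc⟩ := Finset.exists_subset_card_eq hcompl
    refine Set.mem_iUnion.2 ⟨⟨fun l => S.orderEmbOfFin hSc l, (S.orderEmbOfFin hSc).injective⟩, ?_⟩
    refine ⟨fun i h => hr ⟨_, h.symm⟩, fun i p hp hpD hdvd => ?_⟩
    have h1 := Finset.mem_compl.1 (hS (Finset.orderEmbOfFin_mem S hSc i))
    exact h1 (Finset.mem_filter.2 ⟨Finset.mem_univ _, p, hp, hpD, hdvd⟩)
  exact ((Set.finite_range α).union (Set.finite_iUnion
    fun g : {g : Fin 3 → Fin M // Function.Injective g} =>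
    three_smooth D (fun i => α (g.1 i)) (hα.comp g.2))).subset hsub

end Pool.Agent.TH526.ZL
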