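import Pool.Agent.W466.CK

/-!
Two numbers related by an equation over a valuation ring whose non-zero coefficients are units, and
coordinates of the same class related to numbers with poles of exact orders (helper file for
Zilber-Pink for scaled images in products of modular curves of any level).
-/

open Function UpperHalfPlane H294ZP MvPolynomial Pool.Agent.W466.ZC

namespace Pool.Agent.TH526.ZL

/-- A vanishing sum of numbers, not all zero: two of them have the same, maximal valuation. -/
theorem exists_tie {ι : Type*} [DecidableEq ι] (V : ValuationSubring ℂ) (S : Finset ι) (f : ι → ℂ)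
    (h0 : ∑ i ∈ S, f i = 0) {i₀ : ι} (hi₀ : i₀ ∈ S) (hf : f i₀ ≠ 0) :
    ∃ i ∈ S, ∃ j ∈ S, i ≠ j ∧ V.valuation (f i) = V.valuation (f j) := by
  obtain ⟨i, hi, hmax⟩ := Finset.exists_max_image S (fun i => V.valuation (f i)) ⟨i₀, hi₀⟩
  by_contra hcon
  push Not at hcon
  have h1 : V.valuation (∑ i ∈ S, f i) = V.valuation (f i) := by
    refine Valuation.map_sum_eq_of_lt V.valuation hi fun j hj => ?_
    rw [Finset.mem_sdiff, Finset.mem_singleton] at hj
    exact lt_of_le_of_ne (hmax j hj.1) (fun h => hcon i hi j hj.1 (Ne.symm hj.2) h.symm)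
  rw [h0, map_zero] at h1
  have h2 := hmax i₀ hi₀
  rw [← h1] at h2
  exact hf ((map_eq_zero V.valuation).1 (le_zero_iff.1 h2))

/-- the pairs of exponents of a polynomial in two variables -/
noncomputable def expo {k : Type} [CommRing k] (R : Polynomial (Polynomial k)) : Finset (ℕ × ℕ) :=
  R.support.biUnion fun u => (R.coeff u).support.image fun w => (u, w)

theorem mem_expo {k : Type} [CommRing k] {R : Polynomial (Polynomial k)} {u w : ℕ} :
    (u, w) ∈ expo R ↔ (R.coeff u).coeff w ≠ 0 := by
  rw [expo, Finset.mem_biUnion]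
  constructor
  · rintro ⟨u', -, h⟩
    rw [Finset.mem_image] at h
    obtain ⟨w', hw', h⟩ := h
    rw [Prod.mk.injEq] at h
    rw [← h.1, ← h.2]
    exact Polynomial.mem_support_iff.1 hw'
  · intro h
    refine ⟨u, Polynomial.mem_support_iff.2 ?_, Finset.mem_image_of_mem _
      (Polynomial.mem_support_iff.2 h)⟩
    rintro h0
    rw [h0, Polynomial.coeff_zero] at h
    exact h rfl

theorem eval_expo {k : Type} [CommRing k] [Algebra k ℂ] (R : Polynomial (Polynomial k)) (s x : ℂ) :
    Polynomial.eval₂ (Polynomial.aeval x : Polynomial k →ₐ[k] ℂ).toRingHom s R =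
      ∑ q ∈ expo R, algebraMap k ℂ ((R.coeff q.1).coeff q.2) * x ^ q.2 * s ^ q.1 := by
  classical
  rw [expo, Finset.sum_biUnion]
  · rw [Polynomial.eval₂_eq_sum, Polynomial.sum_def]
    refine Finset.sum_congr rfl fun u _ => ?_
    rw [Finset.sum_image (fun w _ w' _ h => (Prod.mk.inj h).2)]
    show Polynomial.aeval x (R.coeff u) * s ^ u = _
    rw [Polynomial.aeval_eq_sum_range, Finset.sum_mul]
    have h1 : (R.coeff u).support ⊆ Finset.range ((R.coeff u).natDegree + 1) := by
      intro w hw
      rw [Finset.mem_range]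
      exact Nat.lt_succ_of_le (Polynomial.le_natDegree_of_mem_supp w hw)
    rw [← Finset.sum_subset h1]
    · refine Finset.sum_congr rfl fun w _ => ?_
      rw [Algebra.smul_def]
    · intro w _ hw
      rw [Polynomial.notMem_support_iff.1 hw, zero_smul, zero_mul]
  · intro u _ u' _ huu
    rw [Function.onFun, Finset.disjoint_left]
    intro q hq hq'
    rw [Finset.mem_image] at hq hq'
    obtain ⟨w, -, rfl⟩ := hq
    obtain ⟨w', -, h⟩ := hq'
    exact huu (Prod.mk.inj h).1.symm

/-- A number `s` integral over the ring generated by the unit coefficients of the equation and `x`: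
if `s` has a pole at the valuation, then so has `x`, and the orders are commensurable. -/
theorem tie {k : Type} [CommRing k] [IsDomain k] [Algebra k ℂ] (V : ValuationSubring ℂ)
    (R : Polynomial (Polynomial k)) (hR : R.Monic)
    (hV : ∀ u w, (R.coeff u).coeff w ≠ 0 →
      V.valuation (algebraMap k ℂ ((R.coeff u).coeff w)) = 1)
    {T : ℕ} (hT : ∀ u w, (R.coeff u).coeff w ≠ 0 → u ≤ T ∧ w ≤ T) {s x : ℂ}
    (h : Polynomial.eval₂ (Polynomial.aeval x : Polynomial k →ₐ[k] ℂ).toRingHom s R = 0)
    (hs : 1 < V.valuation s) :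
    1 < V.valuation x ∧ ∃ a b : ℕ, 0 < a ∧ a ≤ T ∧ 0 < b ∧ b ≤ T ∧
      V.valuation s ^ a = V.valuation x ^ b := by
  classical
  have hs0 : s ≠ 0 := by
    rintro rfl
    rw [map_zero] at hs
    exact not_lt.2 zero_le_one hs
  have hlc : (R.coeff R.natDegree).coeff 0 = 1 := by
    rw [Polynomial.coeff_natDegree, hR.leadingCoeff, Polynomial.coeff_one_zero]
  have hlc' : ∀ w, w ≠ 0 → (R.coeff R.natDegree).coeff w = 0 := by
    intro w hw
    rw [Polynomial.coeff_natDegree, hR.leadingCoeff, Polynomial.coeff_one, if_neg hw]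
  have hmem : (R.natDegree, 0) ∈ expo R := by
    rw [mem_expo, hlc]
    exact one_ne_zero
  rw [eval_expo] at h
  have hval : ∀ q ∈ expo R, V.valuation
      (algebraMap k ℂ ((R.coeff q.1).coeff q.2) * x ^ q.2 * s ^ q.1) =
      V.valuation x ^ q.2 * V.valuation s ^ q.1 := by
    intro q hq
    rw [map_mul, map_mul, hV q.1 q.2 (mem_expo.1 hq), one_mul, map_pow, map_pow]
  have hx : 1 < V.valuation x := by
    by_contra hle
    push Not at hle
    have h1 := Valuation.map_sum_eq_of_lt V.valuation hmem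
      (f := fun q => algebraMap k ℂ ((R.coeff q.1).coeff q.2) * x ^ q.2 * s ^ q.1)
      (fun q hq => by
        rw [Finset.mem_sdiff, Finset.mem_singleton] at hq
        rw [hval q hq.1, hval _ hmem, pow_zero, one_mul]
        have h2 : q.1 < R.natDegree := by
          have h3 := mem_expo.1 hq.1
          have h4 : q.1 ≤ R.natDegree := by
            apply Polynomial.le_natDegree_of_ne_zero
            intro h0
            rw [h0, Polynomial.coeff_zero] at h3
            exact h3 rfl
          refine lt_of_le_of_ne h4 fun h5 => hq.2 (Prod.ext h5 ?_)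
          by_contra h6
          rw [h5, hlc' _ h6] at h3
          exact h3 rfl
        calc V.valuation x ^ q.2 * V.valuation s ^ q.1 ≤ V.valuation s ^ q.1 :=
              mul_le_of_le_one_left' (pow_le_one₀ zero_le hle)
          _ < V.valuation s ^ R.natDegree := pow_lt_pow_right₀ hs h2)
    rw [h, map_zero, hval _ hmem, pow_zero, one_mul] at h1
    exact pow_ne_zero _ (zero_lt_one.trans hs).ne' h1.symm
  refine ⟨hx, ?_⟩
  obtain ⟨q, hq, q', hq', hne, hqq⟩ := exists_tie V (expo R)
    (fun q => algebraMap k ℂ ((R.coeff q.1).coeff q.2) * x ^ q.2 * s ^ q.1) h hmem (by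
      rw [hlc, map_one, pow_zero, one_mul, one_mul]
      exact pow_ne_zero _ hs0)
  rw [hval q hq, hval q' hq'] at hqq
  have key : ∀ q q' : ℕ × ℕ, q ∈ expo R → q' ∈ expo R → q'.1 < q.1 →
      V.valuation x ^ q.2 * V.valuation s ^ q.1 = V.valuation x ^ q'.2 * V.valuation s ^ q'.1 →
      ∃ a b : ℕ, 0 < a ∧ a ≤ T ∧ 0 < b ∧ b ≤ T ∧ V.valuation s ^ a = V.valuation x ^ b := by
    intro q q' hq hq' hlt he
    have hvs0 : V.valuation s ^ q'.1 ≠ 0 := pow_ne_zero _ (zero_lt_one.trans hs).ne'
    have h1 : V.valuation x ^ q.2 * V.valuation s ^ (q.1 - q'.1) = V.valuation x ^ q'.2 := by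
      apply mul_right_cancel₀ hvs0
      rw [mul_assoc, ← pow_add, Nat.sub_add_cancel hlt.le]
      exact he
    have h2 : q.2 < q'.2 := by
      by_contra hge
      push Not at hge
      have h3 : V.valuation x ^ q'.2 ≤ V.valuation x ^ q.2 := pow_le_pow_right₀ hx.le hge
      have h4 : V.valuation x ^ q.2 * 1 < V.valuation x ^ q.2 * V.valuation s ^ (q.1 - q'.1) :=
        mul_lt_mul_of_pos_left (one_lt_pow₀ hs (by omega)) (pow_pos (zero_lt_one.trans hx) _)
      rw [h1, mul_one] at h4
      exact absurd h4 (not_lt.2 h3)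
    refine ⟨q.1 - q'.1, q'.2 - q.2, by omega, ?_, by omega, ?_, ?_⟩
    · have := (hT _ _ (mem_expo.1 hq)).1
      omega
    · have := (hT _ _ (mem_expo.1 hq')).2
      omega
    · apply mul_left_cancel₀ (pow_ne_zero q.2 (zero_lt_one.trans hx).ne')
      rw [h1, ← pow_add, Nat.add_sub_cancel' h2.le]
  rcases lt_trichotomy q.1 q'.1 with h1 | h1 | h1
  · exact key q' q hq' hq h1 hqq.symm
  · exfalso
    rw [h1] at hqq
    have h2 := mul_right_cancel₀ (pow_ne_zero _ (zero_lt_one.trans hs).ne') hqq
    exact hne (Prod.ext h1 (pow_right_injective₀ (zero_lt_one.trans hx) hx.ne' h2))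
  · exact key q q' hq hq' h1 hqq

/-- Two coordinates related by the modular equation, with numbers tied to them which have poles of
exact orders `e` and `e'`. -/
theorem sq_tie {N : ℕ} (hN : 0 < N) {z z' s s' : ℂ}
    (h1 : Polynomial.eval₂ (Polynomial.aeval z : Polynomial ℂ →ₐ[ℂ] ℂ).toRingHom z'
      (W282.ZP.Psi N) = 0)
    (V : ValuationSubring ℂ) {p e e' a b a' b' : ℕ} (hp : (p : ℂ) ∈ V.nonunits)
    (h : Polar V p e s) (h' : Polar V p e' s') (hz : 1 < V.valuation z)
    (hs : V.valuation s ^ a = V.valuation z ^ b) (hs' : V.valuation s' ^ a' = V.valuation z' ^ b') :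
    IsSquare (N * (e * e') * (a * b * (a' * b'))) := by
  obtain ⟨t, ht⟩ := ((W282.ZP.Psi_spec hN).2.2 ℂ V z z' h1).2 hz
  have hp1 : V.valuation (p : ℂ) < 1 := by rwa [ValuationSubring.mem_nonunits_iff] at hp
  rw [Polar] at h h'
  have hz0 : V.valuation z ≠ 0 := (zero_lt_one.trans hz).ne'
  by_cases hp0' : V.valuation (p : ℂ) = 0
  · -- then both exponents are zero
    have he : e = 0 := by
      by_contra he
      rw [hp0', zero_pow he, mul_zero] at h
      exact zero_ne_one h
    rw [he, zero_mul, mul_zero, zero_mul]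
    exact IsSquare.zero
  have hp0 : 0 < V.valuation (p : ℂ) := zero_lt_iff.2 hp0'
  have e1 : V.valuation z ^ b * V.valuation (p : ℂ) ^ (e * a) = 1 := by
    rw [← hs, pow_mul, ← mul_pow, h, one_pow]
  have e2 : V.valuation z' ^ b' * V.valuation (p : ℂ) ^ (e' * a') = 1 := by
    rw [← hs', pow_mul, ← mul_pow, h', one_pow]
  have e3 : V.valuation z ^ (t ^ 2 * (b * b')) * V.valuation (p : ℂ) ^ (e * a * (t ^ 2 * b')) = 1 := by
    calc V.valuation z ^ (t ^ 2 * (b * b')) * V.valuation (p : ℂ) ^ (e * a * (t ^ 2 * b')) =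
        (V.valuation z ^ b * V.valuation (p : ℂ) ^ (e * a)) ^ (t ^ 2 * b') := by
          rw [mul_pow, ← pow_mul, ← pow_mul]
          congr 2
          ring
      _ = 1 := by rw [e1, one_pow]
  have e4 : V.valuation z ^ (t ^ 2 * (b * b')) * V.valuation (p : ℂ) ^ (e' * a' * (N * b)) = 1 := by
    have h2 : V.valuation z ^ (t ^ 2 * (b * b')) = V.valuation z' ^ (N * (b * b')) := by
      rw [pow_mul, ← ht, ← pow_mul]
    calc V.valuation z ^ (t ^ 2 * (b * b')) * V.valuation (p : ℂ) ^ (e' * a' * (N * b)) =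
        (V.valuation z' ^ b' * V.valuation (p : ℂ) ^ (e' * a')) ^ (N * b) := by
          rw [h2, mul_pow, ← pow_mul, ← pow_mul]
          congr 2
          ring
      _ = 1 := by rw [e2, one_pow]
  have e5 := pow_inj hp0 hp1 (mul_left_cancel₀ (pow_ne_zero _ hz0) (e3.trans e4.symm))
  refine ⟨e * a * b' * t, ?_⟩
  calc N * (e * e') * (a * b * (a' * b')) = e' * a' * (N * b) * (e * a * b') := by ring
    _ = e * a * (t ^ 2 * b') * (e * a * b') := by rw [e5]
    _ = e * a * b' * t * (e * a * b' * t) := by ring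

end Pool.Agent.TH526.ZL
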