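import Pool.Agent.TH526.ZL.A

/-!
Zilber-Pink for scaled images in products of modular curves of any level: algebraically closed
field of definition (helper file).
-/

open Function UpperHalfPlane H294ZP MvPolynomial Pool.Agent.W466.ZC

namespace Pool.Agent.TH526.ZL

/-- numbers integral over the ring generated by elements of the valuation ring -/
theorem int_mem {k : Type} [Field k] [Algebra k ℂ] {ι : Type*} (Γ : ι → k)
    (V : ValuationSubring ℂ) (hV : ∀ g, algebraMap k ℂ (Γ g) ∈ V) {z : ℂ}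
    (hz : IsIntegral (Algebra.adjoin ℤ (Set.range fun g => algebraMap k ℂ (Γ g))) z) : z ∈ V := by
  refine W466.ZC.mem_of_integral V ?_ hz
  intro w hw
  have hle : Algebra.adjoin ℤ (Set.range fun g => algebraMap k ℂ (Γ g)) ≤
      subalgebraOfSubring V.toSubring := by
    refine Algebra.adjoin_le ?_
    rintro _ ⟨g, rfl⟩
    exact hV g
  exact hle hw

/-- members of an algebraically independent family are not integral over elements of the field -/
theorem int_not_indep {k : Type} [Field k] [Algebra k ℂ] {ι : Type*} (Γ : ι → k) {n : ℕ}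
    {x : Fin n → ℂ} {S : Finset (Fin n)} (hS : AlgebraicIndependent k (fun i : S => x i)) (t : S)
    (h1 : IsIntegral (Algebra.adjoin ℤ (Set.range fun g => algebraMap k ℂ (Γ g))) (x t)) :
    False := by
  have h2 : IsIntegral (Algebra.adjoin k (∅ : Set ℂ)) (x t) := by
    obtain ⟨P, hP, hPe⟩ := h1
    have hle : ∀ z ∈ Algebra.adjoin ℤ (Set.range fun g => algebraMap k ℂ (Γ g)),
        z ∈ Algebra.adjoin k (∅ : Set ℂ) := by
      intro z hz
      have h9 : Algebra.adjoin ℤ (Set.range fun g => algebraMap k ℂ (Γ g)) ≤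
          (Algebra.adjoin k (∅ : Set ℂ)).restrictScalars ℤ := by
        refine Algebra.adjoin_le ?_
        rintro _ ⟨g, rfl⟩
        exact (Algebra.adjoin k (∅ : Set ℂ)).algebraMap_mem (Γ g)
      exact h9 hz
    let φ : Algebra.adjoin ℤ (Set.range fun g => algebraMap k ℂ (Γ g)) →+*
        Algebra.adjoin k (∅ : Set ℂ) :=
      (algebraMap (Algebra.adjoin ℤ (Set.range fun g => algebraMap k ℂ (Γ g))) ℂ).codRestrict
        (Algebra.adjoin k (∅ : Set ℂ)) (fun a => hle a a.2)
    refine ⟨P.map φ, hP.map _, ?_⟩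
    have hc : (algebraMap (Algebra.adjoin k (∅ : Set ℂ)) ℂ).comp φ =
        algebraMap (Algebra.adjoin ℤ (Set.range fun g => algebraMap k ℂ (Γ g))) ℂ :=
      RingHom.ext fun _ => rfl
    rw [Polynomial.eval₂_map, hc]
    exact hPe
  have h3 := hS.transcendental_adjoin (s := ∅) (i := t) (Set.notMem_empty t)
  rw [Set.image_empty] at h3
  exact h3 h2.isAlgebraic

theorem mainR {k : Type} [Field k] [Algebra k ℂ] [IsAlgClosed k] [CharZero k] {κ : Type*}
    {N n m : ℕ} (G : κ → MvPolynomial (Fin (N + 1)) k)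
    (hG : ∀ i, ∃ e, (G i).IsHomogeneous e) (A B : Fin n → MvPolynomial (Fin (N + 1)) k)
    (d : Fin n → ℕ) (hA : ∀ i, (A i).IsHomogeneous (d i)) (hB : ∀ i, (B i).IsHomogeneous (d i))
    (hdis : ∀ I : Finset (Fin n), I.card = m + 1 → ∀ y : Fin (N + 1) → ℂ,
      (∀ i, aeval y (G i) = 0) → (∀ i ∈ I, aeval y (A i) * aeval y (B i) = 0) → y = 0)
    (R : Fin n → Polynomial (Polynomial k)) (hR : ∀ i, (R i).Monic) (T : ℕ)
    (hT : ∀ i u w, ((R i).coeff u).coeff w ≠ 0 → u ≤ T ∧ w ≤ T)
    {ι : Type*} [Finite ι] (Γ : ι → k) :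
    ∃ D : ℕ, ∀ c : Fin n → ℕ, SpreadL (n * n * (T + 1) ^ 4 + 1) D c →
      ∀ (r : ℕ) (cls : Fin n → Option (Fin r)) (Q : Fin n → Fin n → ℕ) (x s : Fin n → ℂ),
      (∀ i j, 0 < Q i j) →
      (∀ i, cls i = none → IsIntegral (Algebra.adjoin ℤ (Set.range fun g => algebraMap k ℂ (Γ g)))
        (x i)) →
      (∀ i j l, cls i = some l → cls j = some l →
        IsIntegral (Algebra.adjoin ℤ {x i}) (x j) ∧
        Polynomial.eval₂ (Polynomial.aeval (x i) : Polynomial ℂ →ₐ[ℂ] ℂ).toRingHom (x j)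
          (W282.ZP.Psi (Q i j)) = 0) →
      (∀ i, Polynomial.eval₂ (Polynomial.aeval (x i) : Polynomial k →ₐ[k] ℂ).toRingHom (s i)
        (R i) = 0) →
      ∀ y : Fin (N + 1) → ℂ, y ≠ 0 → (∀ i, aeval y (G i) = 0) →
      (∀ i, (c i : ℂ) * aeval y (B i) * s i = aeval y (A i)) →
      ∀ S : Finset (Fin n), AlgebraicIndependent k (fun i : S => x i) →
        S.card + n ≤ r + m := by
  classical
  let C := (i : Fin n) × (expo (R i))
  let γ : C → k := fun q => ((R q.1).coeff q.2.1.1).coeff q.2.1.2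
  obtain ⟨D, hD⟩ := good' G hG A B hdis (Sum.elim Γ (Sum.elim γ fun q => (γ q)⁻¹))
  refine ⟨D, fun c hc r cls Q x s hQ hconst hrel hRs y hy0 hyG hxy S hS => ?_⟩
  obtain ⟨p, hp, hsq⟩ := hc
  choose V hV hVΓ' hVx hVy using fun l => hD (p l) (hp l).1 (hp l).2.1 S _ hS
  have hVΓ : ∀ l g, algebraMap k ℂ (Γ g) ∈ V l := fun l g => hVΓ' l (Sum.inl g)
  have hVR : ∀ l i u w, ((R i).coeff u).coeff w ≠ 0 →
      (V l).valuation (algebraMap k ℂ (((R i).coeff u).coeff w)) = 1 := by
    intro l i u w h0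
    have h1 := hVΓ' l (Sum.inr (Sum.inl ⟨i, (u, w), mem_expo.2 h0⟩))
    have h2 := hVΓ' l (Sum.inr (Sum.inr ⟨i, (u, w), mem_expo.2 h0⟩))
    simp only [Sum.elim_inr, Sum.elim_inl] at h1 h2
    have h3 : γ ⟨i, (u, w), mem_expo.2 h0⟩ = ((R i).coeff u).coeff w := rfl
    rw [h3] at h1 h2
    rw [← ValuationSubring.valuation_le_one_iff] at h1 h2
    rw [map_inv₀, map_inv₀] at h2
    have h4 : (V l).valuation (algebraMap k ℂ (((R i).coeff u).coeff w)) ≠ 0 := by
      rw [Ne, map_eq_zero, map_eq_zero]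
      exact h0
    refine le_antisymm h1 ?_
    by_contra h5
    push Not at h5
    have h6 := (one_lt_inv₀ (zero_lt_iff.2 h4)).2 h5
    exact absurd h6 (not_lt.2 h2)
  have hL0 : 0 < n * n * (T + 1) ^ 4 + 1 := Nat.succ_pos _
  have hc0 : ∀ i, c i ≠ 0 := by
    intro i h0
    have := (hp ⟨0, hL0⟩).2.2 i
    rw [h0] at this
    simp at this
  have hΓ : ∀ l, ∀ z : ℂ, IsIntegral (Algebra.adjoin ℤ (Set.range fun g => algebraMap k ℂ (Γ g)))
      z → z ∈ V l := fun l z hz => int_mem Γ (V l) (hVΓ l) hz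
  have hV1 : ∀ l i j k, cls i = some k → cls j = some k → (V l).valuation (x i) ≤ 1 →
      (V l).valuation (x j) ≤ 1 := by
    intro l i j k hi hj h1
    exact ((W282.ZP.Psi_spec (hQ i j)).2.2 ℂ (V l) (x i) (x j) (hrel i j k hi hj).2).1 h1
  -- the classes of the coordinates in `S`
  have hSsome : ∀ t : S, ∃ k, cls t = some k := by
    intro t
    cases hc : cls t with
    | none => exact (int_not_indep Γ hS t (hconst t hc)).elim
    | some k => exact ⟨k, rfl⟩
  choose cl hcl using hSsome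
  have hclinj : Function.Injective cl := by
    intro t t' htt
    by_contra hne
    exact not_algInd hS hne (hrel t t' (cl t) (hcl t) (by rw [htt]; exact hcl t')).1
  by_contra hcon
  push Not at hcon
  -- one prime
  have hone : ∀ l, ∃ q : Fin n × Fin n × Fin (T + 1) × Fin (T + 1) × Fin (T + 1) × Fin (T + 1),
      q.1 ≠ q.2.1 ∧ 0 < (q.2.2.1 : ℕ) ∧ 0 < (q.2.2.2.1 : ℕ) ∧ 0 < (q.2.2.2.2.1 : ℕ) ∧
      0 < (q.2.2.2.2.2 : ℕ) ∧
      IsSquare (Q q.1 q.2.1 * ((c q.1).factorization (p l) * (c q.2.1).factorization (p l)) *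
        ((q.2.2.1 : ℕ) * (q.2.2.2.1 : ℕ) * ((q.2.2.2.2.1 : ℕ) * (q.2.2.2.2.2 : ℕ)))) := by
    intro l
    obtain ⟨a, ha0, hAB, hI⟩ := hVy l y hy0 hyG
    let Ty : Finset (Fin n) := Finset.univ.filter fun i =>
      (V l).valuation (aeval (a • y) (A i) * aeval (a • y) (B i)) = 1
    let E : Finset (Fin n) := Finset.univ.filter fun i =>
      ¬ (V l).valuation (aeval (a • y) (A i) * aeval (a • y) (B i)) = 1
    have hcards : Ty.card + E.card = n := by
      have := Finset.card_filter_add_card_filter_not (s := (Finset.univ : Finset (Fin n)))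
        (fun i => (V l).valuation (aeval (a • y) (A i) * aeval (a • y) (B i)) = 1)
      rw [Finset.card_univ, Fintype.card_fin] at this
      exact this
    have hE : E.card ≤ m := by
      by_contra h
      push Not at h
      obtain ⟨I, hIE, hIc⟩ := Finset.exists_subset_card_eq (Nat.succ_le_of_lt h)
      obtain ⟨i, hi, h1⟩ := hI I hIc
      exact (Finset.mem_filter.1 (hIE hi)).2 h1
    have hpol : ∀ i ∈ Ty, Polar (V l) (p l) ((c i).factorization (p l)) (s i) := by
      intro i hi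
      refine polar_of_good (V l) (hp l).1 (hV l) (hc0 i) (hAB i).1 (hAB i).2
        (Finset.mem_filter.1 hi).2 ?_
      rw [aeval_smul' (hA i), aeval_smul' (hB i), ← hxy i]
      ring
    have htie := fun i (hi : i ∈ Ty) => tie (V l) (R i) (hR i) (hVR l i) (hT i) (hRs i)
      ((hpol i hi).one_lt (hV l) ((hp l).2.2 i))
    have hgt : ∀ i ∈ Ty, 1 < (V l).valuation (x i) := fun i hi => (htie i hi).1
    let Fr : Finset (Option (Fin r)) := (Finset.univ.filter fun k : Fin r =>
      k ∉ Finset.univ.image cl).image some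
    have hFr : Fr.card + S.card = r := by
      have h1 : Fr.card = (Finset.univ.filter fun k : Fin r =>
          k ∉ Finset.univ.image cl).card :=
        Finset.card_image_of_injective _ (Option.some_injective _)
      have h2 : (Finset.univ.filter fun k : Fin r => k ∈ Finset.univ.image cl).card = S.card := by
        have h3 : (Finset.univ.filter fun k : Fin r => k ∈ Finset.univ.image cl) =
            Finset.univ.image cl := by
          ext k; simp
        rw [h3, Finset.card_image_of_injective _ hclinj, Finset.card_univ, Fintype.card_coe]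
      have := Finset.card_filter_add_card_filter_not (s := (Finset.univ : Finset (Fin r)))
        (fun k => k ∈ Finset.univ.image cl)
      rw [Finset.card_univ, Fintype.card_fin] at this
      rw [h1]
      omega
    have hmaps : ∀ i ∈ Ty, cls i ∈ Fr := by
      intro i hi
      have h1 := hgt i hi
      cases hc : cls i with
      | none =>
        have h2 := hΓ l (x i) (hconst i hc)
        rw [← ValuationSubring.valuation_le_one_iff] at h2
        exact absurd h1 (not_lt.2 h2)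
      | some k =>
        refine Finset.mem_image_of_mem _ (Finset.mem_filter.2 ⟨Finset.mem_univ _, ?_⟩)
        intro hk
        obtain ⟨t, -, ht⟩ := Finset.mem_image.1 hk
        have h3 := hV1 l t i k (ht ▸ hcl t) hc
          ((ValuationSubring.valuation_le_one_iff _ _).2 (hVx l t))
        exact absurd h1 (not_lt.2 h3)
    obtain ⟨i, hi, i', hi', hne, hcls⟩ := Finset.exists_ne_map_eq_of_card_lt_of_maps_to
      (s := Ty) (t := Fr) (by omega) (f := cls) hmaps
    obtain ⟨k, -, hk⟩ := Finset.mem_image.1 (hmaps i hi)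
    obtain ⟨-, u, w, hu0, huT, hw0, hwT, huw⟩ := htie i hi
    obtain ⟨-, u', w', hu0', huT', hw0', hwT', huw'⟩ := htie i' hi'
    refine ⟨(i, i', ⟨u, by omega⟩, ⟨w, by omega⟩, ⟨u', by omega⟩, ⟨w', by omega⟩), hne, hu0, hw0,
      hu0', hw0', ?_⟩
    exact sq_tie (hQ i i') (hrel i i' k hk.symm (hcls ▸ hk.symm)).2 (V l) (hV l)
      (hpol i hi) (hpol i' hi') (hgt i hi) huw huw'
  choose q hq using hone
  obtain ⟨l, l', hll, hqq⟩ := Fintype.exists_ne_map_eq_of_card_lt q (by
    simp only [Fintype.card_prod, Fintype.card_fin]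
    have : n * (n * ((T + 1) * ((T + 1) * ((T + 1) * (T + 1))))) = n * n * (T + 1) ^ 4 := by ring
    omega)
  obtain ⟨h1, h2, h3, h4, h5, h6⟩ := hq l
  obtain ⟨-, -, -, -, -, h6'⟩ := hq l'
  rw [← hqq] at h6'
  refine hsq l l' hll (q l).1 (q l).2.1 h1 ?_
  refine isSquare_of_mul_sq (m := Q (q l).1 (q l).2.1 * (((q l).2.2.1 : ℕ) *
    ((q l).2.2.2.1 : ℕ) * (((q l).2.2.2.2.1 : ℕ) * ((q l).2.2.2.2.2 : ℕ)))) ?_ ?_
  · exact Nat.mul_pos (hQ _ _) (Nat.mul_pos (Nat.mul_pos h2 h3) (Nat.mul_pos h4 h5))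
  · obtain ⟨f, hf⟩ := h6
    obtain ⟨f', hf'⟩ := h6'
    refine ⟨f * f', ?_⟩
    calc _ = _ := ?_
      _ = (f * f) * (f' * f') := by rw [← hf, ← hf']
      _ = f * f' * (f * f') := by ring
    ring

theorem mainRK (K : Subfield ℂ) {κ : Type*}
    {N n m : ℕ} (G : κ → MvPolynomial (Fin (N + 1)) K)
    (hG : ∀ i, ∃ e, (G i).IsHomogeneous e) (A B : Fin n → MvPolynomial (Fin (N + 1)) K)
    (d : Fin n → ℕ) (hA : ∀ i, (A i).IsHomogeneous (d i)) (hB : ∀ i, (B i).IsHomogeneous (d i))
    (hdis : ∀ I : Finset (Fin n), I.card = m + 1 → ∀ y : Fin (N + 1) → ℂ,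
      (∀ i, aeval y (G i) = 0) → (∀ i ∈ I, aeval y (A i) * aeval y (B i) = 0) → y = 0)
    (R : Fin n → Polynomial (Polynomial K)) (hR : ∀ i, (R i).Monic) (T : ℕ)
    (hT : ∀ i u w, ((R i).coeff u).coeff w ≠ 0 → u ≤ T ∧ w ≤ T)
    (Γ : Finset ℂ) (hΓ : ∀ γ ∈ Γ, γ ∈ K) :
    ∃ D : ℕ, ∀ c : Fin n → ℕ, SpreadL (n * n * (T + 1) ^ 4 + 1) D c →
      ∀ (r : ℕ) (cls : Fin n → Option (Fin r)) (Q : Fin n → Fin n → ℕ) (x s : Fin n → ℂ),
      (∀ i j, 0 < Q i j) →
      (∀ i, cls i = none → IsIntegral (Algebra.adjoin ℤ (Γ : Set ℂ)) (x i)) →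
      (∀ i j l, cls i = some l → cls j = some l →
        IsIntegral (Algebra.adjoin ℤ {x i}) (x j) ∧
        Polynomial.eval₂ (Polynomial.aeval (x i) : Polynomial ℂ →ₐ[ℂ] ℂ).toRingHom (x j)
          (W282.ZP.Psi (Q i j)) = 0) →
      (∀ i, Polynomial.eval₂ (Polynomial.aeval (x i) : Polynomial K →ₐ[K] ℂ).toRingHom (s i)
        (R i) = 0) →
      ∀ y : Fin (N + 1) → ℂ, y ≠ 0 → (∀ i, aeval y (G i) = 0) →
      (∀ i, (c i : ℂ) * aeval y (B i) * s i = aeval y (A i)) →
      ∀ S : Finset (Fin n), AlgebraicIndependent K (fun i : S => x i) →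
        S.card + n ≤ r + m := by
  classical
  let k := algebraicClosure K ℂ
  have hcl : IsAlgClosure K k := inferInstance
  have hac : IsAlgClosed k := hcl.isAlgClosed
  have hmap : ∀ (y : Fin (N + 1) → ℂ) (P : MvPolynomial (Fin (N + 1)) K),
      aeval y (MvPolynomial.map (algebraMap K k) P) = aeval y P := fun y P =>
    MvPolynomial.aeval_map_algebraMap k y P
  let Γ' : Γ → k := fun γ => algebraMap K k ⟨γ, hΓ γ γ.2⟩
  have hΓ' : (Set.range fun g => algebraMap k ℂ (Γ' g)) = (Γ : Set ℂ) := by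
    ext z
    constructor
    · rintro ⟨g, rfl⟩
      exact g.2
    · intro hz
      exact ⟨⟨z, hz⟩, rfl⟩
  obtain ⟨D, hD⟩ := mainR (k := k) (m := m) (fun i => MvPolynomial.map (algebraMap K k) (G i))
    (fun i => by
      obtain ⟨e, he⟩ := hG i
      exact ⟨e, he.map _⟩)
    (fun i => MvPolynomial.map (algebraMap K k) (A i))
    (fun i => MvPolynomial.map (algebraMap K k) (B i)) d (fun i => (hA i).map _)
    (fun i => (hB i).map _)
    (fun I hI y h1 h2 => hdis I hI y (fun i => by rw [← hmap]; exact h1 i)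
      (fun i hi => by rw [← hmap, ← hmap y (B i)]; exact h2 i hi))
    (fun i => (R i).map (Polynomial.mapRingHom (algebraMap K k))) (fun i => (hR i).map _) T
    (by
      intro i u w h0
      rw [Polynomial.coeff_map, Polynomial.coe_mapRingHom, Polynomial.coeff_map] at h0
      exact hT i u w fun h1 => h0 (by rw [h1, map_zero])) Γ'
  refine ⟨D, fun c hc r cls Q x s hQ hconst hrel hRs y hy0 hyG hxy S hS => ?_⟩
  refine hD c hc r cls Q x s hQ ?_ hrel ?_ y hy0 (fun i => (hmap y _).trans (hyG i)) ?_ S ?_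
  · intro i hi
    rw [hΓ']
    exact hconst i hi
  · intro i
    rw [Polynomial.eval₂_map]
    have h1 : ((Polynomial.aeval (x i) : Polynomial k →ₐ[k] ℂ).toRingHom).comp
        (Polynomial.mapRingHom (algebraMap K k)) =
        (Polynomial.aeval (x i) : Polynomial K →ₐ[K] ℂ).toRingHom := by
      ext z
      · simp
      · simp
    rw [h1]
    exact hRs i
  · intro i
    rw [hmap, hmap]
    exact hxy i
  · exact hS.extendScalars k

end Pool.Agent.TH526.ZL
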