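import Pool.Agent.TH526.ZL.B

/-!
Valuation rings of `ℂ` above a prime ideal of a subring, and reduction of projective sets modulo
the prime ideal (helper file for a local criterion for Zilber-Pink in products of modular curves).
-/

open Function UpperHalfPlane H294ZP MvPolynomial Pool.Agent.W466.ZC

namespace Pool.Agent.TH526.ZL

/-- Above every prime ideal of a ring `Λ ⊆ ℂ` there is a valuation ring of `ℂ` which contains given
numbers algebraically independent over `Λ`. -/
theorem exists_place {Λ : Type} [CommRing Λ] [Algebra Λ ℂ] (𝔭 : Ideal Λ) [𝔭.IsPrime] {τ : Type}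
    (x : τ → ℂ) (hx : AlgebraicIndependent Λ x) :
    ∃ V : ValuationSubring ℂ, (∀ a : Λ, V.valuation (algebraMap Λ ℂ a) ≤ 1) ∧
      (∀ a : Λ, V.valuation (algebraMap Λ ℂ a) < 1 ↔ a ∈ 𝔭) ∧ ∀ j, x j ∈ V := by
  classical
  let f : MvPolynomial τ Λ →+* ℂ := (aeval x : MvPolynomial τ Λ →ₐ[Λ] ℂ).toRingHom
  have hf : Function.Injective f := hx
  let e : MvPolynomial τ Λ ≃+* f.range := RingEquiv.ofBijective f.rangeRestrict
    ⟨fun a b h => hf (congrArg Subtype.val h), f.rangeRestrict_surjective⟩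
  let g : MvPolynomial τ Λ →+* Λ ⧸ 𝔭 := (Ideal.Quotient.mk 𝔭).comp constantCoeff
  let P' : Ideal (MvPolynomial τ Λ) := RingHom.ker g
  have hP' : P'.IsPrime := RingHom.ker_isPrime g
  let P : Ideal f.range := Ideal.comap (e.symm : f.range →+* MvPolynomial τ Λ) P'
  have hP : P.IsPrime := Ideal.comap_isPrime _ _
  obtain ⟨V, hV⟩ := (LocalSubring.ofPrime f.range P).exists_le_valuationSubring
  have hmem : ∀ z : MvPolynomial τ Λ, f z ∈ V := fun z =>
    hV.1 (LocalSubring.le_ofPrime _ _ ⟨z, rfl⟩)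
  have hunit : ∀ z : MvPolynomial τ Λ, V.valuation (f z) < 1 ↔ g z = 0 := by
    intro z
    have h1 : IsUnit (algebraMap f.range (LocalSubring.ofPrime f.range P).toSubring (e z)) ↔
        e z ∈ P.primeCompl := IsLocalization.AtPrime.isUnit_to_map_iff _ P _
    have h2 : e z ∈ P.primeCompl ↔ g z ≠ 0 := by
      rw [Ideal.mem_primeCompl_iff, Ideal.mem_comap]
      rw [RingHom.coe_coe, e.symm_apply_apply, RingHom.mem_ker]
    have h3 : V.valuation (f z) = 1 ↔ IsUnit (⟨f z, hmem z⟩ : V) :=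
      (ValuationSubring.valuation_eq_one_iff V (⟨f z, hmem z⟩ : V)).symm
    have h4 : IsUnit (⟨f z, hmem z⟩ : V) ↔
        IsUnit (algebraMap f.range (LocalSubring.ofPrime f.range P).toSubring (e z)) := by
      have h5 : (⟨f z, hmem z⟩ : V) = Subring.inclusion hV.1
          (algebraMap f.range (LocalSubring.ofPrime f.range P).toSubring (e z)) := rfl
      constructor
      · intro h
        exact hV.2.1 _ (h5 ▸ h)
      · intro h
        rw [h5]
        exact h.map (Subring.inclusion hV.1)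
    have h6 : V.valuation (f z) ≤ 1 := (ValuationSubring.valuation_le_one_iff _ _).2 (hmem z)
    rw [lt_iff_le_and_ne, ne_eq, h3, h4, h1, h2, not_not]
    exact ⟨fun h => h.2, fun h => ⟨h6, h⟩⟩
  refine ⟨V, fun a => ?_, fun a => ?_, fun j => ?_⟩
  · have h1 := hmem (C a)
    have h2 : f (C a) = algebraMap Λ ℂ a := by
      show aeval x (C a) = _
      rw [aeval_C]
    rw [h2] at h1
    exact (ValuationSubring.valuation_le_one_iff _ _).2 h1
  · have h1 := hunit (C a)
    have h2 : f (C a) = algebraMap Λ ℂ a := by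
      show aeval x (C a) = _
      rw [aeval_C]
    have h3 : g (C a) = Ideal.Quotient.mk 𝔭 a := by
      show Ideal.Quotient.mk 𝔭 (constantCoeff (C a)) = _
      rw [constantCoeff_C]
    rw [h2, h3, Ideal.Quotient.eq_zero_iff_mem] at h1
    exact h1
  · have h1 := hmem (X j)
    have h2 : f (X j) = x j := by
      show aeval x (X j) = _
      rw [aeval_X]
    rw [h2] at h1
    exact h1

/-- value of a polynomial at a point with coordinates in the valuation ring, and its reduction -/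
theorem aeval_red {Λ : Type} [CommRing Λ] [Algebra Λ ℂ] {σ : Type*} (V : ValuationSubring ℂ)
    (hV : ∀ a : Λ, V.valuation (algebraMap Λ ℂ a) ≤ 1) (P : MvPolynomial σ Λ) (z : σ → V) :
    ∃ w : V, (w : ℂ) = aeval (fun j => (z j : ℂ)) P ∧
      IsLocalRing.residue V w = eval₂ ((IsLocalRing.residue V).comp
        ((algebraMap Λ ℂ).codRestrict V.toSubring
          (fun a => (ValuationSubring.valuation_le_one_iff _ _).1 (hV a))))
        (fun j => IsLocalRing.residue V (z j)) P := by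
  let ψ : Λ →+* V := (algebraMap Λ ℂ).codRestrict V.toSubring
    (fun a => (ValuationSubring.valuation_le_one_iff _ _).1 (hV a))
  refine ⟨eval₂ ψ z P, ?_, ?_⟩
  · have h1 : V.subtype (eval₂ ψ z P) = eval₂ (V.subtype.comp ψ) (V.subtype ∘ z) P := by
      rw [MvPolynomial.eval₂_comp_left]
    have h2 : ((eval₂ ψ z P : V) : ℂ) = V.subtype (eval₂ ψ z P) := rfl
    rw [h2, h1, aeval_def]
    rfl
  · rw [MvPolynomial.eval₂_comp_left]
    rfl

/-- Good reduction: if the reductions of the divisors modulo `𝔭` are in general position then at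
most `m` of the products are non-units for suitable coordinates. -/
theorem good_place {Λ : Type} [CommRing Λ] [Algebra Λ ℂ] {𝔭 : Ideal Λ} {κ I₀ : Type*}
    {N m : ℕ} (G : κ → MvPolynomial (Fin (N + 1)) Λ)
    (hG : ∀ i, ∃ e, (G i).IsHomogeneous e) (A B : I₀ → MvPolynomial (Fin (N + 1)) Λ)
    (hpos : ∀ (F : Type) [Field F] (φ : Λ →+* F), RingHom.ker φ = 𝔭 → ∀ I : Finset I₀,
      I.card = m + 1 → ∀ y : Fin (N + 1) → F, y ≠ 0 → (∀ k, eval₂ φ y (G k) = 0) →
      ∃ i ∈ I, eval₂ φ y (A i) * eval₂ φ y (B i) ≠ 0)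
    (V : ValuationSubring ℂ) (hV : ∀ a : Λ, V.valuation (algebraMap Λ ℂ a) ≤ 1)
    (hV' : ∀ a : Λ, V.valuation (algebraMap Λ ℂ a) < 1 ↔ a ∈ 𝔭)
    (y : Fin (N + 1) → ℂ) (hy0 : y ≠ 0) (hyG : ∀ i, aeval y (G i) = 0) :
    ∃ c : ℂ, c ≠ 0 ∧ (∀ i, aeval (c • y) (A i) ∈ V ∧ aeval (c • y) (B i) ∈ V) ∧
      ∀ I : Finset I₀, I.card = m + 1 → ∃ i ∈ I,
        V.valuation (aeval (c • y) (A i) * aeval (c • y) (B i)) = 1 := by
  classical
  set v := V.valuation with hv
  have hne : (Finset.univ : Finset (Fin (N + 1))).Nonempty := Finset.univ_nonempty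
  obtain ⟨j0, -, hj0⟩ := Finset.exists_max_image Finset.univ (fun j => v (y j)) hne
  have hyj0 : y j0 ≠ 0 := by
    intro h
    apply hy0
    funext j
    have h1 := hj0 j (Finset.mem_univ j)
    simp only [h, map_zero, le_zero_iff] at h1
    exact (map_eq_zero v).1 h1
  have hzV : ∀ j, ((y j0)⁻¹ • y) j ∈ V := by
    intro j
    rw [← ValuationSubring.valuation_le_one_iff, Pi.smul_apply, smul_eq_mul, map_mul, map_inv₀]
    have h1 := hj0 j (Finset.mem_univ j)
    have h2 : v (y j0) ≠ 0 := (map_ne_zero v).2 hyj0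
    calc (v (y j0))⁻¹ * v (y j) ≤ (v (y j0))⁻¹ * v (y j0) := mul_le_mul_right h1 _
      _ = 1 := inv_mul_cancel₀ h2
  let z : Fin (N + 1) → V := fun j => ⟨((y j0)⁻¹ • y) j, hzV j⟩
  have hz : (fun j => (z j : ℂ)) = (y j0)⁻¹ • y := rfl
  have hzG : ∀ i, aeval ((y j0)⁻¹ • y) (G i) = 0 := by
    intro i
    obtain ⟨e, he⟩ := hG i
    have h1 := eval_smul (he.map (algebraMap Λ ℂ)) (y j0)⁻¹ y
    rw [eval_map, eval_map, ← aeval_def, ← aeval_def] at h1
    rw [h1, hyG i, mul_zero]
  let φ : Λ →+* IsLocalRing.ResidueField V := (IsLocalRing.residue V).comp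
        ((algebraMap Λ ℂ).codRestrict V.toSubring
          (fun a => (ValuationSubring.valuation_le_one_iff _ _).1 (hV a)))
  have hφ : RingHom.ker φ = 𝔭 := by
    ext a
    rw [← hV' a, RingHom.mem_ker]
    show IsLocalRing.residue V ⟨algebraMap Λ ℂ a, _⟩ = 0 ↔ _
    rw [IsLocalRing.residue_eq_zero_iff, ValuationSubring.valuation_lt_one_iff]
  have hred : ∀ P : MvPolynomial (Fin (N + 1)) Λ, ∃ w : V,
      (w : ℂ) = aeval ((y j0)⁻¹ • y) P ∧
      IsLocalRing.residue V w = eval₂ φ (fun j => IsLocalRing.residue V (z j)) P := by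
    intro P
    have h1 := aeval_red V hV P z
    rw [hz] at h1
    exact h1
  refine ⟨(y j0)⁻¹, inv_ne_zero hyj0, fun i => ⟨?_, ?_⟩, ?_⟩
  · obtain ⟨w, hw, -⟩ := hred (A i)
    rw [← hw]
    exact w.2
  · obtain ⟨w, hw, -⟩ := hred (B i)
    rw [← hw]
    exact w.2
  · intro I hI
    have hz0 : (fun j => IsLocalRing.residue V (z j)) ≠ 0 := by
      intro h
      have h1 := congrFun h j0
      have h2 : z j0 = 1 := by
        apply Subtype.ext
        show (y j0)⁻¹ • y j0 = 1
        rw [smul_eq_mul, inv_mul_cancel₀ hyj0]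
      rw [h2, map_one, Pi.zero_apply] at h1
      exact one_ne_zero h1
    obtain ⟨i, hi, h1⟩ := hpos (IsLocalRing.ResidueField V) φ hφ I hI _ hz0 (by
      intro k
      obtain ⟨w, hw, hw'⟩ := hred (G k)
      rw [← hw']
      have h2 : w = 0 := Subtype.ext (by rw [hw, hzG k]; rfl)
      rw [h2, map_zero])
    refine ⟨i, hi, ?_⟩
    obtain ⟨w, hw, hw'⟩ := hred (A i)
    obtain ⟨w1, hw1, hw1'⟩ := hred (B i)
    rw [← hw', ← hw1', ← map_mul] at h1
    have h2 : IsUnit (w * w1) := by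
      by_contra h3
      apply h1
      rw [IsLocalRing.residue_eq_zero_iff]
      exact h3
    rw [← hw, ← hw1]
    have h3 := (ValuationSubring.valuation_eq_one_iff V (w * w1)).1 h2
    exact h3

end Pool.Agent.TH526.ZL
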