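import Pool.Agent.TH526.ZL.C

/-!
A local criterion for the absence of atypical intersections in products of modular curves (helper
file).
-/

open Function UpperHalfPlane H294ZP MvPolynomial Pool.Agent.W466.ZC

namespace Pool.Agent.TH526.ZL

/-- Two coordinates related by the modular equation, with numbers tied to them which have poles of
exact orders `e` and `e'`. -/
theorem sq_tie' {N : ℕ} (hN : 0 < N) {z z' s s' : ℂ}
    (h1 : Polynomial.eval₂ (Polynomial.aeval z : Polynomial ℂ →ₐ[ℂ] ℂ).toRingHom z'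
      (W282.ZP.Psi N) = 0)
    (V : ValuationSubring ℂ) {g : V.ValueGroup} {e e' a b a' b' : ℕ} (hg : g < 1)
    (h : V.valuation s * g ^ e = 1) (h' : V.valuation s' * g ^ e' = 1) (hz : 1 < V.valuation z)
    (hs : V.valuation s ^ a = V.valuation z ^ b) (hs' : V.valuation s' ^ a' = V.valuation z' ^ b') :
    IsSquare (N * (e * e') * (a * b * (a' * b'))) := by
  obtain ⟨t, ht⟩ := ((W282.ZP.Psi_spec hN).2.2 ℂ V z z' h1).2 hz
  have hz0 : V.valuation z ≠ 0 := (zero_lt_one.trans hz).ne'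
  by_cases hp0' : g = 0
  · have he : e = 0 := by
      by_contra he
      rw [hp0', zero_pow he, mul_zero] at h
      exact zero_ne_one h
    rw [he, zero_mul, mul_zero, zero_mul]
    exact IsSquare.zero
  have hp0 : 0 < g := zero_lt_iff.2 hp0'
  have e1 : V.valuation z ^ b * g ^ (e * a) = 1 := by
    rw [← hs, pow_mul, ← mul_pow, h, one_pow]
  have e2 : V.valuation z' ^ b' * g ^ (e' * a') = 1 := by
    rw [← hs', pow_mul, ← mul_pow, h', one_pow]
  have e3 : V.valuation z ^ (t ^ 2 * (b * b')) * g ^ (e * a * (t ^ 2 * b')) = 1 := by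
    calc V.valuation z ^ (t ^ 2 * (b * b')) * g ^ (e * a * (t ^ 2 * b')) =
        (V.valuation z ^ b * g ^ (e * a)) ^ (t ^ 2 * b') := by
          rw [mul_pow, ← pow_mul, ← pow_mul]
          congr 2
          ring
      _ = 1 := by rw [e1, one_pow]
  have e4 : V.valuation z ^ (t ^ 2 * (b * b')) * g ^ (e' * a' * (N * b)) = 1 := by
    have h2 : V.valuation z ^ (t ^ 2 * (b * b')) = V.valuation z' ^ (N * (b * b')) := by
      rw [pow_mul, ← ht, ← pow_mul]
    calc V.valuation z ^ (t ^ 2 * (b * b')) * g ^ (e' * a' * (N * b)) =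
        (V.valuation z' ^ b' * g ^ (e' * a')) ^ (N * b) := by
          rw [h2, mul_pow, ← pow_mul, ← pow_mul]
          congr 2
          ring
      _ = 1 := by rw [e2, one_pow]
  have e5 := pow_inj hp0 hg (mul_left_cancel₀ (pow_ne_zero _ hz0) (e3.trans e4.symm))
  refine ⟨e * a * b' * t, ?_⟩
  calc N * (e * e') * (a * b * (a' * b')) = e' * a' * (N * b) * (e * a * b') := by ring
    _ = e * a * (t ^ 2 * b') * (e * a * b') := by rw [e5]
    _ = e * a * b' * t * (e * a * b' * t) := by ring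

/-- Coordinates of the same class are algebraically dependent. -/
theorem not_algInd' {k : Type} [CommRing k] [Nontrivial k] [Algebra k ℂ] {n : ℕ} {x : Fin n → ℂ}
    {S : Finset (Fin n)} (hS : AlgebraicIndependent k (fun i : S => x i)) {i j : S} (hij : i ≠ j)
    (h : IsIntegral (Algebra.adjoin ℤ {x i}) (x j)) : False := by
  have h2 := hS.transcendental_adjoin (s := {i}) (i := j) (by
    intro h
    rw [Set.mem_singleton_iff] at h
    exact hij h.symm)
  apply h2
  rw [Set.image_singleton]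
  have hle : ∀ z ∈ Algebra.adjoin ℤ {x i}, z ∈ Algebra.adjoin k {x i} := by
    intro z hz
    have h9 : Algebra.adjoin ℤ {x i} ≤ (Algebra.adjoin k {x i}).restrictScalars ℤ :=
      Algebra.adjoin_le (Set.singleton_subset_iff.2
        (Algebra.subset_adjoin (Set.mem_singleton (x i))))
    exact h9 hz
  obtain ⟨P, hP, hPe⟩ := h
  let φ : Algebra.adjoin ℤ {x i} →+* Algebra.adjoin k {x i} :=
    (algebraMap (Algebra.adjoin ℤ {x i}) ℂ).codRestrict (Algebra.adjoin k {x i})
      (fun a => hle a a.2)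
  have hint : IsIntegral (Algebra.adjoin k {x i}) (x j) := by
    refine ⟨P.map φ, hP.map _, ?_⟩
    have hc : (algebraMap (Algebra.adjoin k {x i}) ℂ).comp φ =
        algebraMap (Algebra.adjoin ℤ {x i}) ℂ := RingHom.ext fun _ => rfl
    rw [Polynomial.eval₂_map, hc]
    exact hPe
  exact hint.isAlgebraic

/-- numbers integral over a ring in the valuation ring lie in it -/
theorem mem_of_int {Λ : Type} [CommRing Λ] [Algebra Λ ℂ] (V : ValuationSubring ℂ)
    (hV : ∀ a : Λ, V.valuation (algebraMap Λ ℂ a) ≤ 1) {z : ℂ} (hz : IsIntegral Λ z) :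
    V.valuation z ≤ 1 := by
  obtain ⟨P, hP, hPe⟩ := hz
  let φ : Λ →+* V := (algebraMap Λ ℂ).codRestrict V.toSubring
    (fun a => (ValuationSubring.valuation_le_one_iff _ _).1 (hV a))
  have h1 : IsIntegral V z := by
    refine ⟨P.map φ, hP.map φ, ?_⟩
    rw [Polynomial.eval₂_map]
    exact hPe
  obtain ⟨y, hy⟩ := IsIntegrallyClosed.isIntegral_iff.1 h1
  rw [ValuationSubring.valuation_le_one_iff, ← hy]
  exact y.2

/-- The combinatorial core. -/
theorem core {Λ : Type} [CommRing Λ] [IsDomain Λ] [Algebra Λ ℂ] {n m T : ℕ}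
    (R : Fin n → Polynomial (Polynomial Λ)) (hR : ∀ i, (R i).Monic)
    (hT : ∀ i u w, ((R i).coeff u).coeff w ≠ 0 → u ≤ T ∧ w ≤ T)
    (e : Fin (n.choose 2 + 1) → Fin n → ℕ) (he : ∀ l i, 0 < e l i)
    (hsq : ∀ l l', l ≠ l' → ∀ i j, i ≠ j → ∀ q, 0 < q → q ≤ T ^ 8 →
      ¬ IsSquare (q * (e l i * e l j * (e l' i * e l' j))))
    {r : ℕ} (cls : Fin n → Option (Fin r)) (Q : Fin n → Fin n → ℕ) (x s : Fin n → ℂ)
    (hQ : ∀ i j, 0 < Q i j)
    (hconst : ∀ i, cls i = none → IsIntegral Λ (x i))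
    (hrel : ∀ i j l, cls i = some l → cls j = some l →
        IsIntegral (Algebra.adjoin ℤ {x i}) (x j) ∧
        Polynomial.eval₂ (Polynomial.aeval (x i) : Polynomial ℂ →ₐ[ℂ] ℂ).toRingHom (x j)
          (W282.ZP.Psi (Q i j)) = 0)
    (hRs : ∀ i, Polynomial.eval₂ (Polynomial.aeval (x i) : Polynomial Λ →ₐ[Λ] ℂ).toRingHom (s i)
      (R i) = 0)
    (S : Finset (Fin n)) (hS : AlgebraicIndependent Λ (fun i : S => x i))
    (V : Fin (n.choose 2 + 1) → ValuationSubring ℂ) (g : ∀ l, (V l).ValueGroup)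
    (hg : ∀ l, g l < 1)
    (hVΛ : ∀ l (a : Λ), (V l).valuation (algebraMap Λ ℂ a) ≤ 1)
    (hVR : ∀ l i u w, ((R i).coeff u).coeff w ≠ 0 →
      (V l).valuation (algebraMap Λ ℂ (((R i).coeff u).coeff w)) = 1)
    (hVx : ∀ l (i : S), x i ∈ V l)
    (hgood : ∀ l, ∃ E : Finset (Fin n), E.card ≤ m ∧ ∀ i, i ∉ E →
      (V l).valuation (s i) * g l ^ e l i = 1) :
    S.card + n ≤ r + m := by
  classical
  have hV1 : ∀ l i j k, cls i = some k → cls j = some k → (V l).valuation (x i) ≤ 1 →
      (V l).valuation (x j) ≤ 1 := by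
    intro l i j k hi hj h1
    exact ((W282.ZP.Psi_spec (hQ i j)).2.2 ℂ (V l) (x i) (x j) (hrel i j k hi hj).2).1 h1
  have hSsome : ∀ t : S, ∃ k, cls t = some k := by
    intro t
    cases hc : cls t with
    | none => exact ((hS.transcendental t) (hconst t hc).isAlgebraic).elim
    | some k => exact ⟨k, rfl⟩
  choose cl hcl using hSsome
  have hclinj : Function.Injective cl := by
    intro t t' htt
    by_contra hne
    exact not_algInd' hS hne (hrel t t' (cl t) (hcl t) (by rw [htt]; exact hcl t')).1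
  by_contra hcon
  push Not at hcon
  have hone : ∀ l, ∃ (i j : Fin n) (q : ℕ), i < j ∧ 0 < q ∧ q ≤ T ^ 4 ∧
      IsSquare (Q i j * (e l i * e l j) * q) := by
    intro l
    obtain ⟨E, hE, hEg⟩ := hgood l
    have hone_lt : ∀ i, i ∉ E → 1 < (V l).valuation (s i) := by
      intro i hi
      by_contra hle
      push Not at hle
      have h1 : (V l).valuation (s i) * g l ^ e l i < 1 :=
        (mul_le_of_le_one_left' hle).trans_lt (pow_lt_one₀ zero_le (hg l) (he l i).ne')
      rw [hEg i hi] at h1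
      exact lt_irrefl _ h1
    have htie := fun i (hi : i ∉ E) => tie (V l) (R i) (hR i) (hVR l i) (hT i) (hRs i)
      (hone_lt i hi)
    have hgt : ∀ i, i ∉ E → 1 < (V l).valuation (x i) := fun i hi => (htie i hi).1
    let Fr : Finset (Option (Fin r)) := (Finset.univ.filter fun k : Fin r =>
      k ∉ Finset.univ.image cl).image some
    have hFr : Fr.card + S.card = r := by
      have h1 : Fr.card = (Finset.univ.filter fun k : Fin r =>
          k ∉ Finset.univ.image cl).card :=
        Finset.card_image_of_injective _ (Option.some_injective _)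
      have h2 : (Finset.univ.filter fun k : Fin r => k ∈ Finset.univ.image cl).card = S.card := by
        have h3 : (Finset.univ.filter fun k : Fin r => k ∈ Finset.univ.image cl) =
            Finset.univ.image cl := by
          ext k; simp
        rw [h3, Finset.card_image_of_injective _ hclinj, Finset.card_univ, Fintype.card_coe]
      have := Finset.card_filter_add_card_filter_not (s := (Finset.univ : Finset (Fin r)))
        (fun k => k ∈ Finset.univ.image cl)
      rw [Finset.card_univ, Fintype.card_fin] at this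
      rw [h1]
      omega
    have hEc : Eᶜ.card + E.card = n := by
      have := Finset.card_compl_add_card E
      rwa [Fintype.card_fin] at this
    have hmaps : ∀ i ∈ Eᶜ, cls i ∈ Fr := by
      intro i hi
      have h1 := hgt i (Finset.mem_compl.1 hi)
      cases hc : cls i with
      | none => exact absurd h1 (not_lt.2 (mem_of_int (V l) (hVΛ l) (hconst i hc)))
      | some k =>
        refine Finset.mem_image_of_mem _ (Finset.mem_filter.2 ⟨Finset.mem_univ _, ?_⟩)
        intro hk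
        obtain ⟨t, -, ht⟩ := Finset.mem_image.1 hk
        have h3 := hV1 l t i k (ht ▸ hcl t) hc
          ((ValuationSubring.valuation_le_one_iff _ _).2 (hVx l t))
        exact absurd h1 (not_lt.2 h3)
    have key : ∀ i j : Fin n, i ∉ E → j ∉ E → i < j → cls i = cls j →
        ∃ (i j : Fin n) (q : ℕ), i < j ∧ 0 < q ∧ q ≤ T ^ 4 ∧
          IsSquare (Q i j * (e l i * e l j) * q) := by
      intro i j hi hj hij hcls
      obtain ⟨k, -, hk⟩ := Finset.mem_image.1 (hmaps i (Finset.mem_compl.2 hi))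
      obtain ⟨h1, u, w, hu0, huT, hw0, hwT, huw⟩ := htie i hi
      obtain ⟨-, u', w', hu0', huT', hw0', hwT', huw'⟩ := htie j hj
      refine ⟨i, j, u * w * (u' * w'), hij, Nat.mul_pos (Nat.mul_pos hu0 hw0)
        (Nat.mul_pos hu0' hw0'), ?_, ?_⟩
      · calc u * w * (u' * w') ≤ T * T * (T * T) := by gcongr
          _ = T ^ 4 := by ring
      · exact sq_tie' (hQ i j) (hrel i j k hk.symm (hcls ▸ hk.symm)).2 (V l) (hg l)
          (hEg i hi) (hEg j hj) h1 huw huw'
    obtain ⟨i, hi, i', hi', hne, hcls⟩ := Finset.exists_ne_map_eq_of_card_lt_of_maps_to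
      (s := Eᶜ) (t := Fr) (by omega) (f := cls) hmaps
    rcases lt_or_gt_of_ne hne with h | h
    · exact key i i' (Finset.mem_compl.1 hi) (Finset.mem_compl.1 hi') h hcls
    · exact key i' i (Finset.mem_compl.1 hi') (Finset.mem_compl.1 hi) h hcls.symm
  choose a b q hab hq0 hqT hsq' using hone
  have hcard2 : ∀ l, (({a l, b l} : Finset (Fin n)).card = 2) := fun l =>
    Finset.card_pair (hab l).ne
  obtain ⟨l, l', hll, hqq⟩ := Fintype.exists_ne_map_eq_of_card_lt
    (fun l => (⟨{a l, b l}, hcard2 l⟩ : {s : Finset (Fin n) // s.card = 2})) (by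
    rw [Fintype.card_finset_len, Fintype.card_fin, Fintype.card_fin]
    omega)
  have hset : ({a l, b l} : Finset (Fin n)) = {a l', b l'} := congrArg Subtype.val hqq
  have hmm : a l = a l' ∧ b l = b l' := by
    have h1 : a l ∈ ({a l', b l'} : Finset (Fin n)) := hset ▸ Finset.mem_insert_self _ _
    have h2 : b l ∈ ({a l', b l'} : Finset (Fin n)) :=
      hset ▸ Finset.mem_insert_of_mem (Finset.mem_singleton_self _)
    have h3 := hab l
    have h4 := hab l'
    rw [Finset.mem_insert, Finset.mem_singleton] at h1 h2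
    rcases h1 with h1 | h1 <;> rcases h2 with h2 | h2
    · exact absurd (h1.trans h2.symm) h3.ne
    · exact ⟨h1, h2⟩
    · rw [h1, h2] at h3
      exact absurd h3 (not_lt.2 h4.le)
    · exact absurd (h1.trans h2.symm) h3.ne
  obtain ⟨f, hf⟩ := hsq' l
  obtain ⟨f', hf'⟩ := hsq' l'
  rw [← hmm.1, ← hmm.2] at hf'
  refine hsq l l' hll (a l) (b l) (hab l).ne (q l * q l') (Nat.mul_pos (hq0 l) (hq0 l')) ?_ ?_
  · calc q l * q l' ≤ T ^ 4 * T ^ 4 := Nat.mul_le_mul (hqT l) (hqT l')
      _ = T ^ 8 := by ring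
  · refine isSquare_of_mul_sq (m := Q (a l) (b l)) (hQ _ _) ⟨f * f', ?_⟩
    calc _ = (Q (a l) (b l) * (e l (a l) * e l (b l)) * q l) *
          (Q (a l) (b l) * (e l' (a l) * e l' (b l)) * q l') := by ring
      _ = (f * f) * (f' * f') := by rw [hf, hf']
      _ = f * f' * (f * f') := by ring

/-- The local criterion, for points. -/
theorem criterion {Λ : Type} [CommRing Λ] [IsDomain Λ] [Algebra Λ ℂ] {κ : Type*}
    {N n m : ℕ} (G : κ → MvPolynomial (Fin (N + 1)) Λ)
    (hG : ∀ i, ∃ e, (G i).IsHomogeneous e) (A B : Fin n → MvPolynomial (Fin (N + 1)) Λ)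
    (d : Fin n → ℕ) (hA : ∀ i, (A i).IsHomogeneous (d i)) (hB : ∀ i, (B i).IsHomogeneous (d i))
    (R : Fin n → Polynomial (Polynomial Λ)) (hR : ∀ i, (R i).Monic) {T : ℕ}
    (hT : ∀ i u w, ((R i).coeff u).coeff w ≠ 0 → u ≤ T ∧ w ≤ T)
    (c : Fin n → Λ) (𝔭 : Fin (n.choose 2 + 1) → Ideal Λ) (h𝔭 : ∀ l, (𝔭 l).IsPrime)
    (hpos : ∀ l (F : Type) [Field F] (φ : Λ →+* F), RingHom.ker φ = 𝔭 l → ∀ I : Finset (Fin n),
      I.card = m + 1 → ∀ y : Fin (N + 1) → F, y ≠ 0 → (∀ k, eval₂ φ y (G k) = 0) →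
      ∃ i ∈ I, eval₂ φ y (A i) * eval₂ φ y (B i) ≠ 0)
    (hRu : ∀ l i u w, ((R i).coeff u).coeff w ≠ 0 → ((R i).coeff u).coeff w ∉ 𝔭 l)
    (π : Fin (n.choose 2 + 1) → Λ) (hπ : ∀ l, π l ∈ 𝔭 l)
    (e : Fin (n.choose 2 + 1) → Fin n → ℕ) (he : ∀ l i, 0 < e l i)
    (hc : ∀ l i, ∃ a b : Λ, a ∉ 𝔭 l ∧ b ∉ 𝔭 l ∧ a * c i = b * π l ^ e l i)
    (hsq : ∀ l l', l ≠ l' → ∀ i j, i ≠ j → ∀ q, 0 < q → q ≤ T ^ 8 →
      ¬ IsSquare (q * (e l i * e l j * (e l' i * e l' j))))
    {r : ℕ} (cls : Fin n → Option (Fin r)) (Q : Fin n → Fin n → ℕ) (x s : Fin n → ℂ)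
    (hQ : ∀ i j, 0 < Q i j)
    (hconst : ∀ i, cls i = none → IsIntegral Λ (x i))
    (hrel : ∀ i j l, cls i = some l → cls j = some l →
        IsIntegral (Algebra.adjoin ℤ {x i}) (x j) ∧
        Polynomial.eval₂ (Polynomial.aeval (x i) : Polynomial ℂ →ₐ[ℂ] ℂ).toRingHom (x j)
          (W282.ZP.Psi (Q i j)) = 0)
    (hRs : ∀ i, Polynomial.eval₂ (Polynomial.aeval (x i) : Polynomial Λ →ₐ[Λ] ℂ).toRingHom (s i)
      (R i) = 0)
    (y : Fin (N + 1) → ℂ) (hy0 : y ≠ 0) (hyG : ∀ i, aeval y (G i) = 0)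
    (hxy : ∀ i, algebraMap Λ ℂ (c i) * aeval y (B i) * s i = aeval y (A i))
    (S : Finset (Fin n)) (hS : AlgebraicIndependent Λ (fun i : S => x i)) :
    S.card + n ≤ r + m := by
  classical
  choose V hV1 hV2 hVx using fun l => exists_place (𝔭 l) _ hS
  have hunit : ∀ l (a : Λ), a ∉ 𝔭 l → (V l).valuation (algebraMap Λ ℂ a) = 1 := by
    intro l a ha
    refine le_antisymm (hV1 l a) ?_
    by_contra h
    push Not at h
    exact ha ((hV2 l a).1 h)
  refine core (m := m) R hR hT e he hsq cls Q x s hQ hconst hrel hRs S hS V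
    (fun l => (V l).valuation (algebraMap Λ ℂ (π l))) (fun l => (hV2 l (π l)).2 (hπ l)) hV1
    (fun l i u w h0 => hunit l _ (hRu l i u w h0)) hVx ?_
  intro l
  obtain ⟨t, ht0, hAB, hI⟩ := good_place G hG A B (hpos l) (V l) (hV1 l) (hV2 l) y hy0 hyG
  refine ⟨Finset.univ.filter fun i =>
      ¬ (V l).valuation (aeval (t • y) (A i) * aeval (t • y) (B i)) = 1, ?_, ?_⟩
  · by_contra h
    push Not at h
    obtain ⟨I, hIE, hIc⟩ := Finset.exists_subset_card_eq (Nat.succ_le_of_lt h)
    obtain ⟨i, hi, h1⟩ := hI I hIc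
    exact (Finset.mem_filter.1 (hIE hi)).2 h1
  · intro i hi
    rw [Finset.mem_filter] at hi
    push Not at hi
    have h1 := hi (Finset.mem_univ i)
    have hA1 := (ValuationSubring.valuation_le_one_iff _ _).2 (hAB i).1
    have hB1 := (ValuationSubring.valuation_le_one_iff _ _).2 (hAB i).2
    rw [map_mul] at h1
    have hA2 : (V l).valuation (aeval (t • y) (A i)) = 1 := by
      refine le_antisymm hA1 ?_
      by_contra h
      push Not at h
      have h2 := (mul_le_of_le_one_right' hB1).trans_lt h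
      rw [h1] at h2
      exact lt_irrefl _ h2
    have hB2 : (V l).valuation (aeval (t • y) (B i)) = 1 := by
      rw [hA2, one_mul] at h1
      exact h1
    have hsm : ∀ (P : MvPolynomial (Fin (N + 1)) Λ) (f : ℕ), P.IsHomogeneous f →
        aeval (t • y) P = t ^ f * aeval y P := by
      intro P f hP
      have h1 := eval_smul (hP.map (algebraMap Λ ℂ)) t y
      rwa [eval_map, eval_map, ← aeval_def, ← aeval_def] at h1
    have h3 : algebraMap Λ ℂ (c i) * aeval (t • y) (B i) * s i = aeval (t • y) (A i) := by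
      rw [hsm _ _ (hA i), hsm _ _ (hB i), ← hxy i]
      ring
    have h4 := congrArg (V l).valuation h3
    rw [map_mul, map_mul, hA2, hB2, mul_one] at h4
    obtain ⟨a, b, ha, hb, hab⟩ := hc l i
    have h5 := congrArg (fun z => (V l).valuation (algebraMap Λ ℂ z)) hab
    simp only [map_mul, map_pow, hunit l a ha, hunit l b hb, one_mul] at h5
    rw [← h5, mul_comm]
    exact h4

end Pool.Agent.TH526.ZL
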