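import Pool.Agent.TH526.ZL.E

/-!
Equations all of whose corner coefficients are units, and local criteria for subvarieties of products
of modular curves given by such equations (helper file).
-/

open Function UpperHalfPlane H294ZP MvPolynomial Pool.Agent.W466.ZC

namespace Pool.Agent.TH526.ZL

/-- the corner of the box of exponents `u ≤ d` given by the set `I` -/
noncomputable def corner {σ : Type} [Fintype σ] [DecidableEq σ] (d : σ → ℕ) (I : Finset σ) : σ →₀ ℕ :=
  Finsupp.equivFunOnFinite.symm fun j => if j ∈ I then d j else 0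

theorem corner_apply {σ : Type} [Fintype σ] [DecidableEq σ] (d : σ → ℕ) (I : Finset σ) (j : σ) :
    corner d I j = if j ∈ I then d j else 0 := rfl

/-- A zero of a polynomial with integral coefficients and units as corner coefficients has a
coordinate which is a unit. -/
theorem corner_unit {Λ : Type} [CommRing Λ] [Algebra Λ ℂ] (V : ValuationSubring ℂ)
    {σ : Type} [Fintype σ] [DecidableEq σ]
    (G : MvPolynomial σ Λ) (hV : ∀ u ∈ G.support, V.valuation (algebraMap Λ ℂ (G.coeff u)) ≤ 1)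
    (d : σ → ℕ) (hd : ∀ u ∈ G.support, ∀ j, u j ≤ d j)
    (hc : ∀ I : Finset σ, V.valuation (algebraMap Λ ℂ (G.coeff (corner d I))) = 1) (z : σ → ℂ)
    (hz : aeval z G = 0) : ∃ j, V.valuation (z j) = 1 := by
  classical
  by_contra hcon
  push Not at hcon
  set v := V.valuation with hv
  let I : Finset σ := Finset.univ.filter fun j => 1 < v (z j)
  have hI : ∀ j, j ∈ I ↔ 1 < v (z j) := fun j => by simp [I]
  have hI' : ∀ j, j ∉ I → v (z j) < 1 := by
    intro j hj
    rw [hI, not_lt] at hj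
    exact lt_of_le_of_ne hj (hcon j)
  have hmem : corner d I ∈ G.support := by
    rw [mem_support_iff]
    intro h0
    have h1 := hc I
    rw [h0, map_zero, map_zero] at h1
    exact zero_ne_one h1
  rw [aeval_def, eval₂_eq'] at hz
  have hterm : ∀ u : σ →₀ ℕ, v (algebraMap Λ ℂ (G.coeff u) * ∏ j, z j ^ u j) =
      v (algebraMap Λ ℂ (G.coeff u)) * ∏ j, v (z j) ^ u j := by
    intro u
    rw [map_mul, map_prod]
    congr 1
    refine Finset.prod_congr rfl fun j _ => ?_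
    rw [map_pow]
  have hb : ∀ j, v (z j) ^ corner d I j ≠ 0 := by
    intro j
    rw [corner_apply]
    split_ifs with h
    · exact pow_ne_zero _ (zero_lt_one.trans ((hI j).1 h)).ne'
    · rw [pow_zero]
      exact one_ne_zero
  have hle : ∀ u ∈ G.support, ∀ j, v (z j) ^ u j ≤ v (z j) ^ corner d I j ∧
      (u j ≠ corner d I j → v (z j) ^ u j < v (z j) ^ corner d I j) := by
    intro u hu j
    rw [corner_apply]
    split_ifs with h
    · have h1 := (hI j).1 h
      have h2 := hd u hu j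
      exact ⟨pow_le_pow_right₀ h1.le h2, fun h3 => pow_lt_pow_right₀ h1 (lt_of_le_of_ne h2 h3)⟩
    · have h1 := hI' j h
      rw [pow_zero]
      exact ⟨pow_le_one₀ zero_le h1.le, fun h3 => pow_lt_one₀ zero_le h1 h3⟩
  have hlt : ∀ u ∈ G.support, u ≠ corner d I →
      ∏ j, v (z j) ^ u j < ∏ j, v (z j) ^ corner d I j := by
    intro u hu hne
    obtain ⟨j0, hj0⟩ : ∃ j, u j ≠ corner d I j := by
      by_contra h
      push Not at h
      exact hne (Finsupp.ext h)
    rw [← Finset.mul_prod_erase Finset.univ _ (Finset.mem_univ j0),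
      ← Finset.mul_prod_erase Finset.univ (fun j => v (z j) ^ corner d I j) (Finset.mem_univ j0)]
    have h1 : ∏ j ∈ Finset.univ.erase j0, v (z j) ^ u j ≤
        ∏ j ∈ Finset.univ.erase j0, v (z j) ^ corner d I j :=
      Finset.prod_le_prod' fun j _ => (hle u hu j).1
    have h2 : ∏ j ∈ Finset.univ.erase j0, v (z j) ^ corner d I j ≠ 0 :=
      Finset.prod_ne_zero_iff.2 fun j _ => hb j
    calc v (z j0) ^ u j0 * ∏ j ∈ Finset.univ.erase j0, v (z j) ^ u j ≤
          v (z j0) ^ u j0 * ∏ j ∈ Finset.univ.erase j0, v (z j) ^ corner d I j := by gcongr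
      _ < v (z j0) ^ corner d I j0 * ∏ j ∈ Finset.univ.erase j0, v (z j) ^ corner d I j :=
          mul_lt_mul_of_pos_right ((hle u hu j0).2 hj0) (zero_lt_iff.2 h2)
  have h1 := Valuation.map_sum_eq_of_lt v hmem
    (f := fun u => algebraMap Λ ℂ (G.coeff u) * ∏ j, z j ^ u j) (fun u hu => by
      rw [Finset.mem_sdiff, Finset.mem_singleton] at hu
      rw [hterm, hterm, hc I, one_mul]
      exact (mul_le_of_le_one_left' (hV _ hu.1)).trans_lt (hlt u hu.1 hu.2))
  rw [hz, map_zero, hterm, hc I, one_mul] at h1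
  exact Finset.prod_ne_zero_iff.2 (fun j _ => hb j) h1.symm

/-- The local criterion for sets given by equations, for points. -/
theorem criterionBox {Λ : Type} [CommRing Λ] [IsDomain Λ] [Algebra Λ ℂ] {n m : ℕ}
    (R : Fin n → Polynomial (Polynomial Λ)) (hR : ∀ i, (R i).Monic) {T : ℕ}
    (hT : ∀ i u w, ((R i).coeff u).coeff w ≠ 0 → u ≤ T ∧ w ≤ T)
    (c : Fin n → Λ) (𝔭 : Fin (n.choose 2 + 1) → Ideal Λ) (h𝔭 : ∀ l, (𝔭 l).IsPrime)
    (G : ∀ J : Finset (Fin n), MvPolynomial J Λ) (d : ∀ J : Finset (Fin n), J → ℕ)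
    (hd : ∀ J : Finset (Fin n), J.card = m + 1 → ∀ u ∈ (G J).support, ∀ j, u j ≤ d J j)
    (hcor : ∀ l (J : Finset (Fin n)), J.card = m + 1 → ∀ I : Finset J, (G J).coeff (corner (d J) I) ∉ 𝔭 l)
    (hRu : ∀ l i u w, ((R i).coeff u).coeff w ≠ 0 → ((R i).coeff u).coeff w ∉ 𝔭 l)
    (π : Fin (n.choose 2 + 1) → Λ) (hπ : ∀ l, π l ∈ 𝔭 l)
    (e : Fin (n.choose 2 + 1) → Fin n → ℕ) (he : ∀ l i, 0 < e l i)
    (hc : ∀ l i, ∃ a b : Λ, a ∉ 𝔭 l ∧ b ∉ 𝔭 l ∧ a * c i = b * π l ^ e l i)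
    (hsq : ∀ l l', l ≠ l' → ∀ i j, i ≠ j → ∀ q, 0 < q → q ≤ T ^ 8 →
      ¬ IsSquare (q * (e l i * e l j * (e l' i * e l' j))))
    {r : ℕ} (cls : Fin n → Option (Fin r)) (Q : Fin n → Fin n → ℕ) (x s : Fin n → ℂ)
    (hQ : ∀ i j, 0 < Q i j)
    (hconst : ∀ i, cls i = none → IsIntegral Λ (x i))
    (hrel : ∀ i j l, cls i = some l → cls j = some l →
        IsIntegral (Algebra.adjoin ℤ {x i}) (x j) ∧
        Polynomial.eval₂ (Polynomial.aeval (x i) : Polynomial ℂ →ₐ[ℂ] ℂ).toRingHom (x j)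
          (W282.ZP.Psi (Q i j)) = 0)
    (hRs : ∀ i, Polynomial.eval₂ (Polynomial.aeval (x i) : Polynomial Λ →ₐ[Λ] ℂ).toRingHom (s i)
      (R i) = 0)
    (hG : ∀ J : Finset (Fin n), J.card = m + 1 → aeval (fun j : J => algebraMap Λ ℂ (c j) * s j) (G J) = 0)
    (S : Finset (Fin n)) (hS : AlgebraicIndependent Λ (fun i : S => x i)) :
    S.card + n ≤ r + m := by
  classical
  choose V hV1 hV2 hVx using fun l => exists_place (𝔭 l) _ hS
  have hunit : ∀ l (a : Λ), a ∉ 𝔭 l → (V l).valuation (algebraMap Λ ℂ a) = 1 := by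
    intro l a ha
    refine le_antisymm (hV1 l a) ?_
    by_contra h
    push Not at h
    exact ha ((hV2 l a).1 h)
  refine core (m := m) R hR hT e he hsq cls Q x s hQ hconst hrel hRs S hS V
    (fun l => (V l).valuation (algebraMap Λ ℂ (π l))) (fun l => (hV2 l (π l)).2 (hπ l)) hV1
    (fun l i u w h0 => hunit l _ (hRu l i u w h0)) hVx ?_
  intro l
  refine ⟨Finset.univ.filter fun i => ¬ (V l).valuation (algebraMap Λ ℂ (c i) * s i) = 1, ?_, ?_⟩
  · by_contra h
    push Not at h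
    obtain ⟨J, hJE, hJc⟩ := Finset.exists_subset_card_eq (Nat.succ_le_of_lt h)
    obtain ⟨j, hj⟩ := corner_unit (V l) (G J) (fun u _ => hV1 l _) (d J) (hd J hJc)
      (fun I => hunit l _ (hcor l J hJc I)) _ (hG J hJc)
    exact (Finset.mem_filter.1 (hJE j.2)).2 hj
  · intro i hi
    rw [Finset.mem_filter] at hi
    push Not at hi
    have h1 := hi (Finset.mem_univ i)
    rw [map_mul] at h1
    obtain ⟨a, b, ha, hb, hab⟩ := hc l i
    have h5 := congrArg (fun z => (V l).valuation (algebraMap Λ ℂ z)) hab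
    simp only [map_mul, map_pow, hunit l a ha, hunit l b hb, one_mul] at h5
    rw [← h5, mul_comm]
    exact h1

/-- The criterion for curves at four valuation rings. -/
theorem criterionCurveV {Λ : Type} [CommRing Λ] [IsDomain Λ] [Algebra Λ ℂ] {n : ℕ}
    (R : Fin n → Polynomial (Polynomial Λ)) (hR : ∀ i, (R i).Monic) {T : ℕ}
    (hT : ∀ i u w, ((R i).coeff u).coeff w ≠ 0 → u ≤ T ∧ w ≤ T)
    (V : Fin 4 → ValuationSubring ℂ) (g : ∀ l, (V l).ValueGroup) (hg : ∀ l, g l < 1)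
    (hVR : ∀ l i u w, ((R i).coeff u).coeff w ≠ 0 →
      (V l).valuation (algebraMap Λ ℂ (((R i).coeff u).coeff w)) = 1)
    (e : Fin 4 → Fin n → ℕ) (he : ∀ l i, 0 < e l i)
    (hsq : ∀ l l', l ≠ l' → ∀ i j, i ≠ j → ∀ q, 0 < q → q ≤ T ^ 8 →
      ¬ IsSquare (q * (e l i * e l j * (e l' i * e l' j))))
    {r : ℕ} (hr : r + 2 ≤ n) (cls : Fin n → Option (Fin r)) (Q : Fin n → Fin n → ℕ)
    (x s : Fin n → ℂ) (hQ : ∀ i j, 0 < Q i j)
    (hconst : ∀ l i, cls i = none → (V l).valuation (x i) ≤ 1)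
    (hrel : ∀ i j l, cls i = some l → cls j = some l →
        Polynomial.eval₂ (Polynomial.aeval (x i) : Polynomial ℂ →ₐ[ℂ] ℂ).toRingHom (x j)
          (W282.ZP.Psi (Q i j)) = 0)
    (hRs : ∀ i, Polynomial.eval₂ (Polynomial.aeval (x i) : Polynomial Λ →ₐ[Λ] ℂ).toRingHom (s i)
      (R i) = 0)
    (hbad : ∀ l i j, i ≠ j → (V l).valuation (s i) * g l ^ e l i = 1 ∨
      (V l).valuation (s j) * g l ^ e l j = 1) : False := by
  classical
  let Good : Fin 4 → Fin n → Prop := fun l i => (V l).valuation (s i) * g l ^ e l i = 1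
  have hone_lt : ∀ l i, Good l i → 1 < (V l).valuation (s i) := by
    intro l i hi
    by_contra hle
    push Not at hle
    have h1 : (V l).valuation (s i) * g l ^ e l i < 1 :=
      (mul_le_of_le_one_left' hle).trans_lt (pow_lt_one₀ zero_le (hg l) (he l i).ne')
    have h2 : (V l).valuation (s i) * g l ^ e l i = 1 := hi
    rw [h2] at h1
    exact lt_irrefl _ h1
  have htie := fun l i (hi : Good l i) => tie (V l) (R i) (hR i)
    (fun u w h0 => hVR l i u w h0) (hT i) (hRs i) (hone_lt l i hi)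
  obtain ⟨l, l', hll, i, j, hij, k, hi, hj, g1, g2, g3, g4⟩ := comb hr cls Good hbad (by
    intro i hi l hg
    exact absurd (htie l i hg).1 (not_lt.2 (hconst l i hi)))
  have key : ∀ l, Good l i → Good l j → ∃ q, 0 < q ∧ q ≤ T ^ 4 ∧
      IsSquare (Q i j * (e l i * e l j) * q) := by
    intro l gi gj
    obtain ⟨h1, u, w, hu0, huT, hw0, hwT, huw⟩ := htie l i gi
    obtain ⟨-, u', w', hu0', huT', hw0', hwT', huw'⟩ := htie l j gj
    refine ⟨u * w * (u' * w'), Nat.mul_pos (Nat.mul_pos hu0 hw0) (Nat.mul_pos hu0' hw0'), ?_, ?_⟩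
    · calc u * w * (u' * w') ≤ T * T * (T * T) := by gcongr
        _ = T ^ 4 := by ring
    · exact sq_tie' (hQ i j) (hrel i j k hi hj) (V l) (hg l) gi gj h1 huw huw'
  obtain ⟨q, hq0, hqT, f, hf⟩ := key l g1 g2
  obtain ⟨q', hq0', hqT', f', hf'⟩ := key l' g3 g4
  refine hsq l l' hll i j hij (q * q') (Nat.mul_pos hq0 hq0') ?_ ?_
  · calc q * q' ≤ T ^ 4 * T ^ 4 := Nat.mul_le_mul hqT hqT'
      _ = T ^ 8 := by ring
  · refine isSquare_of_mul_sq (m := Q i j) (hQ _ _) ⟨f * f', ?_⟩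
    calc _ = (Q i j * (e l i * e l j) * q) * (Q i j * (e l' i * e l' j) * q') := by ring
      _ = (f * f) * (f' * f') := by rw [hf, hf']
      _ = f * f' * (f * f') := by ring

/-- The local criterion for curves: four places suffice. -/
theorem criterionCurve {Λ : Type} [CommRing Λ] [IsDomain Λ] [Algebra Λ ℂ]
    (hinj : Function.Injective (algebraMap Λ ℂ)) {n : ℕ}
    (R : Fin n → Polynomial (Polynomial Λ)) (hR : ∀ i, (R i).Monic) {T : ℕ}
    (hT : ∀ i u w, ((R i).coeff u).coeff w ≠ 0 → u ≤ T ∧ w ≤ T)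
    (c : Fin n → Λ) (𝔭 : Fin 4 → Ideal Λ) (h𝔭 : ∀ l, (𝔭 l).IsPrime)
    (G : ∀ J : Finset (Fin n), MvPolynomial J Λ) (d : ∀ J : Finset (Fin n), J → ℕ)
    (hd : ∀ J : Finset (Fin n), J.card = 2 → ∀ u ∈ (G J).support, ∀ j, u j ≤ d J j)
    (hcor : ∀ l (J : Finset (Fin n)), J.card = 2 → ∀ I : Finset J,
      (G J).coeff (corner (d J) I) ∉ 𝔭 l)
    (hRu : ∀ l i u w, ((R i).coeff u).coeff w ≠ 0 → ((R i).coeff u).coeff w ∉ 𝔭 l)
    (π : Fin 4 → Λ) (hπ : ∀ l, π l ∈ 𝔭 l)
    (e : Fin 4 → Fin n → ℕ) (he : ∀ l i, 0 < e l i)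
    (hc : ∀ l i, ∃ a b : Λ, a ∉ 𝔭 l ∧ b ∉ 𝔭 l ∧ a * c i = b * π l ^ e l i)
    (hsq : ∀ l l', l ≠ l' → ∀ i j, i ≠ j → ∀ q, 0 < q → q ≤ T ^ 8 →
      ¬ IsSquare (q * (e l i * e l j * (e l' i * e l' j))))
    {r : ℕ} (hr : r + 2 ≤ n) (cls : Fin n → Option (Fin r)) (Q : Fin n → Fin n → ℕ)
    (x s : Fin n → ℂ) (hQ : ∀ i j, 0 < Q i j)
    (hconst : ∀ i, cls i = none → IsIntegral Λ (x i))
    (hrel : ∀ i j l, cls i = some l → cls j = some l →
        Polynomial.eval₂ (Polynomial.aeval (x i) : Polynomial ℂ →ₐ[ℂ] ℂ).toRingHom (x j)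
          (W282.ZP.Psi (Q i j)) = 0)
    (hRs : ∀ i, Polynomial.eval₂ (Polynomial.aeval (x i) : Polynomial Λ →ₐ[Λ] ℂ).toRingHom (s i)
      (R i) = 0)
    (hG : ∀ J : Finset (Fin n), J.card = 2 →
      aeval (fun j : J => algebraMap Λ ℂ (c j) * s j) (G J) = 0) :
    False := by
  classical
  have hS : AlgebraicIndependent Λ (Empty.elim : Empty → ℂ) :=
    algebraicIndependent_empty_type_iff.2 hinj
  choose V hV1 hV2 hVx using fun l => exists_place (𝔭 l) _ hS
  have hunit : ∀ l (a : Λ), a ∉ 𝔭 l → (V l).valuation (algebraMap Λ ℂ a) = 1 := by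
    intro l a ha
    refine le_antisymm (hV1 l a) ?_
    by_contra h
    push Not at h
    exact ha ((hV2 l a).1 h)
  let g : ∀ l, (V l).ValueGroup := fun l => (V l).valuation (algebraMap Λ ℂ (π l))
  have hg : ∀ l, g l < 1 := fun l => (hV2 l (π l)).2 (hπ l)
  have hgood : ∀ l i, (V l).valuation (algebraMap Λ ℂ (c i) * s i) = 1 →
      (V l).valuation (s i) * g l ^ e l i = 1 := by
    intro l i h1
    rw [map_mul] at h1
    obtain ⟨a, b, ha, hb, hab⟩ := hc l i
    have h5 := congrArg (fun z => (V l).valuation (algebraMap Λ ℂ z)) hab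
    simp only [map_mul, map_pow, hunit l a ha, hunit l b hb, one_mul] at h5
    show (V l).valuation (s i) * g l ^ e l i = 1
    rw [← h5, mul_comm]
    exact h1
  refine criterionCurveV R hR hT V g hg (fun l i u w h0 => hunit l _ (hRu l i u w h0)) e he hsq
    hr cls Q x s hQ (fun l i hi => mem_of_int (V l) (hV1 l) (hconst i hi)) hrel hRs ?_
  intro l i j hij
  have hJc : ({i, j} : Finset (Fin n)).card = 2 := Finset.card_pair hij
  obtain ⟨t, ht⟩ := corner_unit (V l) (G {i, j}) (fun u _ => hV1 l _) (d {i, j}) (hd _ hJc)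
    (fun I => hunit l _ (hcor l _ hJc I)) _ (hG _ hJc)
  have ht' := t.2
  rw [Finset.mem_insert, Finset.mem_singleton] at ht'
  rcases ht' with h | h
  · left
    apply hgood
    rw [← h]
    exact ht
  · right
    apply hgood
    rw [← h]
    exact ht

end Pool.Agent.TH526.ZL
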