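import Pool.Agent.TH526.ZL.H
import Pool.Agent.W466.CE
import Pool.Agent.W466.CJ

/-!
Spread out scaling vectors, with a stronger independence of the exponents (helper file).
-/

open Function

namespace Pool.Agent.TH526.ZL

open Pool.Agent.W466.ZC

/-- The exponents are positive and independent modulo squares and small numbers. -/
def IndepQ {n L : ℕ} (T : ℕ) (e : Fin L → Fin n → ℕ) : Prop :=
  (∀ l i, 0 < e l i) ∧ ∀ l l', l ≠ l' → ∀ i j, i ≠ j → ∀ q, 0 < q → q ≤ T ^ 8 →
    ¬ IsSquare (q * (e l i * e l j * (e l' i * e l' j)))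

/-- The vector `c` is spread out above `D`. -/
def SpreadQ {n : ℕ} (L T D : ℕ) (c : Fin n → ℕ) : Prop :=
  ∃ p : Fin L → ℕ, (∀ l, (p l).Prime ∧ D < p l) ∧ IndepQ T fun l i => (c i).factorization (p l)

theorem spreadQ_of {n L T D k : ℕ} (hk : 1 ≤ k) (a : Fin L → Fin n → ℕ) (ha : IndepQ T a)
    (h : ∀ l : Fin L, ∃ p, p.Prime ∧ p ∣ k + l ∧ D + L < p) : SpreadQ L T D (famL L a k) := by
  classical
  choose p hp hpk hpD using h
  have hfac : ∀ l i, (famL L a k i).factorization (p l) =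
      a l i * (k + l).factorization (p l) := by
    intro l i
    rw [famL, Nat.factorization_prod (fun l' _ => pow_ne_zero _ (by omega))]
    simp only [Finsupp.coe_finsetSum, Finset.sum_apply]
    rw [Finset.sum_eq_single l]
    · rw [Nat.factorization_pow]
      rfl
    · intro l' _ hne
      rw [Nat.factorization_pow]
      have h1 : ¬ p l ∣ k + l' := by
        intro hd
        have h2 := hpk l
        have h3 : (p l : ℤ) ∣ ((k + l : ℕ) : ℤ) - ((k + l' : ℕ) : ℤ) :=
          dvd_sub (Int.natCast_dvd_natCast.2 h2) (Int.natCast_dvd_natCast.2 hd)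
        have h4 : ((k + l : ℕ) : ℤ) - ((k + l' : ℕ) : ℤ) = (l : ℤ) - (l' : ℤ) := by
          push_cast
          ring
        rw [h4] at h3
        have h5 : (l : ℤ) - (l' : ℤ) ≠ 0 := by
          intro h0
          apply hne
          apply Fin.ext
          omega
        have h6 := Int.le_of_dvd (abs_pos.2 h5) ((dvd_abs _ _).2 h3)
        have h7 := hpD l
        have h9 := l.2
        have h10 := l'.2
        have h8 : |(l : ℤ) - (l' : ℤ)| ≤ L := by
          rw [abs_le]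
          constructor <;> omega
        omega
      show a l' i * (k + l').factorization (p l) = 0
      rw [Nat.factorization_eq_zero_of_not_dvd h1, mul_zero]
    · intro hl
      exact absurd (Finset.mem_univ l) hl
  have hpos : ∀ l : Fin L, 0 < (k + l).factorization (p l) := fun l =>
    (hp l).factorization_pos_of_dvd (by omega) (hpk l)
  refine ⟨p, fun l => ⟨hp l, by have := hpD l; omega⟩, fun l i => ?_, ?_⟩
  · show 0 < (famL L a k i).factorization (p l)
    rw [hfac]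
    exact Nat.mul_pos (ha.1 l i) (hpos l)
  · intro l l' hll i j hij q hq hqT hsq
    beta_reduce at hsq
    rw [hfac, hfac, hfac, hfac] at hsq
    refine ha.2 l l' hll i j hij q hq hqT (isSquare_of_mul_sq
      (m := (k + l).factorization (p l) * (k + l').factorization (p l'))
      (Nat.mul_pos (hpos l) (hpos l')) ?_)
    convert hsq using 1
    ring

theorem countQ {n L T : ℕ} (D : ℕ) (a : Fin L → Fin n → ℕ) (ha : IndepQ T a) (H : ℕ) :
    Set.ncard {k : ℕ | 1 ≤ k ∧ k ≤ H ∧ ¬ SpreadQ L T D (famL L a k)} ≤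
      L * (Nat.log 2 (H + L) + 1) ^ (D + L + 1) := by
  classical
  let S : Finset ℕ := (Finset.Icc 1 (H + L)).filter fun m => ∀ p, p.Prime → p ∣ m → p ≤ D + L
  have hsub : {k : ℕ | 1 ≤ k ∧ k ≤ H ∧ ¬ SpreadQ L T D (famL L a k)} ⊆
      (((Finset.univ : Finset (Fin L)).biUnion fun l => S.image fun m => m - (l : ℕ)) : Finset ℕ)
      := by
    rintro k ⟨hk1, hk2, hk3⟩
    have h1 : ∃ l : Fin L, ∀ p, p.Prime → p ∣ k + l → p ≤ D + L := by
      by_contra hcon
      push Not at hcon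
      apply hk3
      refine spreadQ_of hk1 a ha fun l => ?_
      obtain ⟨p, h2, h3, h4⟩ := hcon l
      exact ⟨p, h2, h3, h4⟩
    obtain ⟨l, hl⟩ := h1
    rw [Finset.mem_coe, Finset.mem_biUnion]
    refine ⟨l, Finset.mem_univ l, ?_⟩
    rw [Finset.mem_image]
    have h9 := l.2
    refine ⟨k + l, ?_, by omega⟩
    rw [Finset.mem_filter, Finset.mem_Icc]
    exact ⟨⟨by omega, by omega⟩, hl⟩
  refine (Set.ncard_le_ncard hsub (Finset.finite_toSet _)).trans ?_
  rw [Set.ncard_coe_finset]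
  refine Finset.card_biUnion_le.trans ?_
  have h2 : ∀ l ∈ (Finset.univ : Finset (Fin L)), (S.image fun m => m - (l : ℕ)).card ≤
      (Nat.log 2 (H + L) + 1) ^ (D + L + 1) := fun l _ =>
    Finset.card_image_le.trans (smooth_card (D + L) (H + L))
  refine (Finset.sum_le_sum h2).trans ?_
  rw [Finset.sum_const, Finset.card_univ, Fintype.card_fin, smul_eq_mul]

/-- Different primes above a given bound. -/
theorem exists_primes (n M : ℕ) : ∃ e : ℕ → Fin n → ℕ, (∀ l i, (e l i).Prime ∧ M < e l i) ∧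
    ∀ l i l' i', e l i = e l' i' → l = l' ∧ i = i' := by
  have hinf : {p : ℕ | p.Prime ∧ M < p}.Infinite := by
    rw [Set.infinite_iff_exists_gt]
    intro a
    obtain ⟨p, hp1, hp2⟩ := Nat.exists_infinite_primes (a + M + 1)
    exact ⟨p, ⟨hp2, by omega⟩, by omega⟩
  let emb := hinf.natEmbedding
  let f : ℕ × Fin n → ℕ := fun q => q.1 * n + q.2
  refine ⟨fun l i => (emb (f (l, i)) : ℕ), fun l i => (emb _).2, ?_⟩
  intro l i l' i' h
  have h1 : f (l, i) = f (l', i') := emb.injective (Subtype.ext h)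
  have h2 : l * n + (i : ℕ) = l' * n + (i' : ℕ) := h1
  have hn : 0 < n := lt_of_le_of_lt (Nat.zero_le _) i.2
  have h3 : l = l' := by
    have e1 : (l * n + (i : ℕ)) / n = l := by
      rw [Nat.add_comm, Nat.add_mul_div_right _ _ hn, Nat.div_eq_of_lt i.2, Nat.zero_add]
    have e2 : (l' * n + (i' : ℕ)) / n = l' := by
      rw [Nat.add_comm, Nat.add_mul_div_right _ _ hn, Nat.div_eq_of_lt i'.2, Nat.zero_add]
    rw [← e1, h2, e2]
  refine ⟨h3, Fin.ext ?_⟩
  rw [h3] at h2
  omega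

theorem not_sq_five {q x y x' y' : ℕ} (hq0 : 0 < q) (hx : x.Prime) (hy : y.Prime)
    (hx' : x'.Prime) (hy' : y'.Prime) (hq : q < x) (h1 : x ≠ y) (h2 : x ≠ x') (h3 : x ≠ y') :
    ¬ IsSquare (q * (x * y * (x' * y'))) := by
  rintro ⟨t, ht⟩
  have e3 : t ^ 2 = q * (x * y * (x' * y')) := by rw [ht, sq]
  have e4 : x ∣ t := by
    apply hx.dvd_of_dvd_pow (n := 2)
    rw [e3]
    exact ⟨q * y * (x' * y'), by ring⟩
  obtain ⟨u, hu⟩ := e4
  have e5 : x * u ^ 2 = q * (y * (x' * y')) := by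
    apply Nat.eq_of_mul_eq_mul_left hx.pos
    calc x * (x * u ^ 2) = t ^ 2 := by rw [hu]; ring
      _ = q * (x * y * (x' * y')) := e3
      _ = _ := by ring
  have e6 : x ∣ q * (y * (x' * y')) := e5 ▸ Dvd.intro _ rfl
  rcases (hx.dvd_mul).1 e6 with h | h
  · exact absurd (Nat.le_of_dvd hq0 h) (not_le.2 hq)
  rcases (hx.dvd_mul).1 h with h | h
  · exact h1 ((Nat.prime_dvd_prime_iff_eq hx hy).1 h)
  · rcases (hx.dvd_mul).1 h with h | h
    · exact h2 ((Nat.prime_dvd_prime_iff_eq hx hx').1 h)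
    · exact h3 ((Nat.prime_dvd_prime_iff_eq hx hy').1 h)

theorem exists_classQ (n L T D : ℕ) (hL : 0 < L) : ∃ (Q : ℕ) (g : Fin n → ℕ), 0 < Q ∧
    (∀ i, 0 < g i ∧ g i ≤ Q) ∧
    ∀ c : Fin n → ℕ, (∀ i, ∃ t, c i = g i + Q * t) → SpreadQ L T D c := by
  classical
  have hinf : {p : ℕ | p.Prime ∧ D < p}.Infinite := by
    rw [Set.infinite_iff_exists_gt]
    intro a
    obtain ⟨p, hp1, hp2⟩ := Nat.exists_infinite_primes (a + D + 1)
    exact ⟨p, ⟨hp2, by omega⟩, by omega⟩
  let emb := hinf.natEmbedding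
  let p : Fin L → ℕ := fun l => (emb l : ℕ)
  have hp : ∀ l, (p l).Prime ∧ D < p l := fun l => (emb l).2
  have hpinj : ∀ l l', l ≠ l' → p l ≠ p l' := by
    intro l l' hll h
    apply hll
    apply Fin.ext
    exact emb.injective (Subtype.ext h)
  obtain ⟨e, heprime, heinj⟩ := exists_primes n (T ^ 8)
  let g : Fin n → ℕ := fun i => ∏ l : Fin L, p l ^ e l i
  have hg0 : ∀ i, 0 < g i := fun i => Finset.prod_pos fun l _ => pow_pos (hp l).1.pos _
  have hgfac : ∀ l i, (g i).factorization (p l) = e l i := by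
    intro l i
    rw [show g i = ∏ l : Fin L, p l ^ e l i from rfl,
      Nat.factorization_prod (fun l' _ => pow_ne_zero _ (hp l').1.ne_zero)]
    simp only [Finsupp.coe_finsetSum, Finset.sum_apply]
    rw [Finset.sum_eq_single l]
    · rw [(hp l).1.factorization_pow, Finsupp.single_eq_same]
    · intro l' _ hne
      rw [(hp l').1.factorization_pow, Finsupp.single_eq_of_ne (hpinj l l' hne.symm)]
    · intro hl
      exact absurd (Finset.mem_univ l) hl
  let Q : ℕ := (∏ l : Fin L, p l) * ∏ i, g i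
  have hQ0 : 0 < Q := Nat.mul_pos (Finset.prod_pos fun l _ => (hp l).1.pos)
    (Finset.prod_pos fun i _ => hg0 i)
  have hQ : ∀ l i, ∃ s, Q = g i * (p l * s) := by
    intro l i
    obtain ⟨s1, h1⟩ := Finset.dvd_prod_of_mem p (Finset.mem_univ l)
    obtain ⟨s2, h2⟩ := Finset.dvd_prod_of_mem g (Finset.mem_univ i)
    refine ⟨s1 * s2, ?_⟩
    show (∏ l : Fin L, p l) * ∏ i, g i = _
    rw [h1, h2]
    ring
  refine ⟨Q, g, hQ0, fun i => ⟨hg0 i, ?_⟩, fun c hc => ⟨p, hp, ?_⟩⟩
  · obtain ⟨s, hs⟩ := hQ ⟨0, hL⟩ i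
    exact Nat.le_of_dvd hQ0 ⟨_, hs⟩
  · have hcf : ∀ l i, (c i).factorization (p l) = e l i := by
      intro l i
      obtain ⟨t, ht⟩ := hc i
      obtain ⟨s, hs⟩ := hQ l i
      have h1 : c i = g i * (1 + p l * (s * t)) := by
        rw [ht, hs]
        ring
      rw [h1, Nat.factorization_mul (hg0 i).ne' (by omega), Finsupp.add_apply, hgfac]
      have h2 : ¬ p l ∣ 1 + p l * (s * t) := by
        intro hd
        have h3 : p l ∣ 1 := (Nat.dvd_add_left (Dvd.intro _ rfl)).1 hd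
        exact (hp l).1.one_lt.ne' (Nat.dvd_one.1 h3)
      rw [Nat.factorization_eq_zero_of_not_dvd h2, add_zero]
    refine ⟨fun l i => ?_, ?_⟩
    · show 0 < (c i).factorization (p l)
      rw [hcf]
      exact (heprime l i).1.pos
    · intro l l' hll i j hij q hq0 hqT
      beta_reduce
      rw [hcf, hcf, hcf, hcf]
      refine not_sq_five hq0 (heprime l i).1 (heprime l j).1 (heprime l' i).1 (heprime l' j).1
        (lt_of_le_of_lt hqT (heprime l i).2) ?_ ?_ ?_
      · intro h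
        exact hij (heinj _ _ _ _ h).2
      · intro h
        exact hll (Fin.ext (heinj _ _ _ _ h).1)
      · intro h
        exact hll (Fin.ext (heinj _ _ _ _ h).1)

/-- A positive proportion of all vectors is spread out. -/
theorem propQ (n L T D : ℕ) (hL : 0 < L) : ∃ δ : ℝ, 0 < δ ∧ ∃ H₀ : ℕ, ∀ H : ℕ, H₀ ≤ H →
    δ * (H : ℝ) ^ n ≤
      (Set.ncard {c : Fin n → ℕ | (∀ i, 1 ≤ c i ∧ c i ≤ H) ∧ SpreadQ L T D c} : ℝ) := by
  classical
  obtain ⟨Q, g, hQ0, hg, hmain⟩ := exists_classQ n L T D hL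
  have hQr : (0 : ℝ) < Q := by exact_mod_cast hQ0
  refine ⟨(1 / (2 * (Q : ℝ))) ^ n, by positivity, Q, fun H hH => ?_⟩
  let T' := H / Q
  let f : (Fin n → Fin T') → (Fin n → ℕ) := fun t i => g i + Q * (t i : ℕ)
  have hfinj : Function.Injective f := by
    intro t t' h
    funext i
    have h1 : g i + Q * (t i : ℕ) = g i + Q * (t' i : ℕ) := congrFun h i
    have h2 : Q * (t i : ℕ) = Q * (t' i : ℕ) := by omega
    exact Fin.ext (Nat.eq_of_mul_eq_mul_left hQ0 h2)
  have hfin : {c : Fin n → ℕ | (∀ i, 1 ≤ c i ∧ c i ≤ H) ∧ SpreadQ L T D c}.Finite := by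
    refine (Set.Finite.pi fun _ : Fin n => Set.finite_Icc 1 H).subset ?_
    rintro c ⟨hc, -⟩ i -
    exact Set.mem_Icc.2 (hc i)
  have hsub : Set.range f ⊆ {c : Fin n → ℕ | (∀ i, 1 ≤ c i ∧ c i ≤ H) ∧ SpreadQ L T D c} := by
    rintro _ ⟨t, rfl⟩
    refine ⟨fun i => ⟨?_, ?_⟩, hmain _ fun i => ⟨t i, rfl⟩⟩
    · have := (hg i).1
      show 1 ≤ g i + Q * (t i : ℕ)
      omega
    · have h1 := (hg i).2
      have h2 : (t i : ℕ) + 1 ≤ T' := (t i).2
      have h3 : Q * ((t i : ℕ) + 1) ≤ Q * T' := Nat.mul_le_mul_left _ h2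
      have h4 : Q * T' ≤ H := Nat.mul_div_le H Q
      show g i + Q * (t i : ℕ) ≤ H
      nlinarith
  have hcard : T' ^ n ≤ Set.ncard {c : Fin n → ℕ | (∀ i, 1 ≤ c i ∧ c i ≤ H) ∧
      SpreadQ L T D c} := by
    have h1 := Set.ncard_le_ncard hsub hfin
    have h2 : (Set.range f).ncard = T' ^ n := by
      rw [← Set.image_univ, Set.ncard_image_of_injective _ hfinj, Set.ncard_univ,
        Nat.card_eq_fintype_card, Fintype.card_fun, Fintype.card_fin, Fintype.card_fin]
    rwa [h2] at h1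
  have hT : (H : ℝ) / (2 * Q) ≤ T' := by
    have h1 : 1 ≤ T' := (Nat.one_le_div_iff hQ0).2 hH
    have h2 : H < Q * (T' + 1) := Nat.lt_mul_div_succ H hQ0
    have h3 : (H : ℝ) < Q * (T' + 1) := by exact_mod_cast h2
    have h4 : (1 : ℝ) ≤ T' := by exact_mod_cast h1
    rw [div_le_iff₀ (by positivity)]
    nlinarith
  calc (1 / (2 * (Q : ℝ))) ^ n * (H : ℝ) ^ n = ((H : ℝ) / (2 * Q)) ^ n := by
        rw [← mul_pow]
        congr 1
        ring
    _ ≤ (T' : ℝ) ^ n := by
        have : (0 : ℝ) ≤ (H : ℝ) / (2 * Q) := by positivity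
        gcongr
    _ ≤ _ := by exact_mod_cast hcard

end Pool.Agent.TH526.ZL
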