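import Pool.Agent.TH526.ZL.I

/-!
Almost all scalings of sets given by equations with non-vanishing corner coefficients (helper file).
-/

open Function UpperHalfPlane H294ZP MvPolynomial Pool.Agent.W466.ZC

namespace Pool.Agent.TH526.ZL

theorem v_nat_le (V : ValuationSubring ℂ) (n : ℕ) : V.valuation (n : ℂ) ≤ 1 := by
  rw [ValuationSubring.valuation_le_one_iff]
  exact natCast_mem V n

theorem v_int_le (V : ValuationSubring ℂ) (n : ℤ) : V.valuation (n : ℂ) ≤ 1 := by
  rw [ValuationSubring.valuation_le_one_iff]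
  exact intCast_mem V n

theorem v_nat_pow' (V : ValuationSubring ℂ) {p : ℕ} (hpp : p.Prime)
    (hp : V.valuation (p : ℂ) < 1) {n : ℕ} (hn : n ≠ 0) :
    V.valuation (n : ℂ) = V.valuation (p : ℂ) ^ (n.factorization p) := by
  have hcop : V.valuation ((n / p ^ n.factorization p : ℕ) : ℂ) = 1 := by
    have hm : Nat.Coprime p (n / p ^ n.factorization p) := Nat.coprime_ordCompl hpp hn
    set m := n / p ^ n.factorization p with hmdef
    refine le_antisymm (v_nat_le V m) ?_
    by_contra hcon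
    push Not at hcon
    have h1 : ((p : ℤ) * p.gcdA m + m * p.gcdB m : ℤ) = 1 := by
      rw [← Nat.gcd_eq_gcd_ab, hm.gcd_eq_one, Nat.cast_one]
    have h2 : (p : ℂ) * (p.gcdA m : ℂ) + (m : ℂ) * (p.gcdB m : ℂ) = 1 := by
      have := congrArg (Int.cast : ℤ → ℂ) h1
      push_cast at this
      exact this
    have h3 : V.valuation ((p : ℂ) * (p.gcdA m : ℂ) + (m : ℂ) * (p.gcdB m : ℂ)) < 1 := by
      refine V.valuation.map_add_lt ?_ ?_
      · rw [map_mul]
        exact (mul_le_of_le_one_right' (v_int_le V _)).trans_lt hp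
      · rw [map_mul]
        exact (mul_le_of_le_one_right' (v_int_le V _)).trans_lt hcon
    rw [h2, map_one] at h3
    exact lt_irrefl _ h3
  have h1 := Nat.ordProj_mul_ordCompl_eq_self n p
  conv_lhs => rw [← h1]
  rw [Nat.cast_mul, map_mul, hcop, mul_one, Nat.cast_pow, map_pow]

/-- Valuation rings above almost all primes at which given numbers of the field `k` are integral and
units (if they are not zero), and algebraically independent numbers are integral. -/
theorem exists_val_units {k : Type} [Field k] [Algebra k ℂ] [CharZero k] {ι : Type*} [Finite ι]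
    (t : ι → k) : ∃ D : ℕ, ∀ p : ℕ, p.Prime → D < p → ∀ (τ : Type) (x : τ → ℂ),
      AlgebraicIndependent k x → ∃ V : ValuationSubring ℂ,
        V.valuation (p : ℂ) < 1 ∧ (∀ i, V.valuation (algebraMap k ℂ (t i)) ≤ 1) ∧
        (∀ i, t i ≠ 0 → V.valuation (algebraMap k ℂ (t i)) = 1) ∧ ∀ j, x j ∈ V := by
  obtain ⟨D, hD⟩ := exists_val' (Sum.elim t fun i => (t i)⁻¹)
  refine ⟨D, fun p hp hpD τ x hx => ?_⟩
  obtain ⟨V, hV, hVt, hVx⟩ := hD p hp hpD τ x hx
  have h1 : ∀ i, V.valuation (algebraMap k ℂ (t i)) ≤ 1 := fun i =>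
    (ValuationSubring.valuation_le_one_iff _ _).2 (hVt (Sum.inl i))
  refine ⟨V, ?_, h1, fun i hi => ?_, hVx⟩
  · rwa [ValuationSubring.mem_nonunits_iff] at hV
  · have h2 : V.valuation (algebraMap k ℂ (t i)⁻¹) ≤ 1 :=
      (ValuationSubring.valuation_le_one_iff _ _).2 (hVt (Sum.inr i))
    rw [map_inv₀, map_inv₀] at h2
    refine le_antisymm (h1 i) ?_
    have h3 : V.valuation (algebraMap k ℂ (t i)) ≠ 0 := by
      rw [Valuation.ne_zero_iff]
      exact (map_ne_zero _).2 hi
    exact (inv_le_one₀ (zero_lt_iff.2 h3)).1 h2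

/-- the coefficients of the data -/
theorem exists_val_data {k : Type} [Field k] [Algebra k ℂ] [CharZero k] {n : ℕ}
    (R : Fin n → Polynomial (Polynomial k)) (G : ∀ J : Finset (Fin n), MvPolynomial J k)
    {ι : Type*} [Finite ι] (Γ : ι → k) :
    ∃ D : ℕ, ∀ p : ℕ, p.Prime → D < p → ∀ (τ : Type) (x : τ → ℂ),
      AlgebraicIndependent k x → ∃ V : ValuationSubring ℂ,
        V.valuation (p : ℂ) < 1 ∧ (∀ i, V.valuation (algebraMap k ℂ (Γ i)) ≤ 1) ∧
        (∀ i u w, ((R i).coeff u).coeff w ≠ 0 →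
          V.valuation (algebraMap k ℂ (((R i).coeff u).coeff w)) = 1) ∧
        (∀ J, ∀ u ∈ (G J).support, V.valuation (algebraMap k ℂ ((G J).coeff u)) = 1) ∧
        ∀ j, x j ∈ V := by
  classical
  let t : (((i : Fin n) × (expo (R i))) ⊕ ((J : Finset (Fin n)) × (G J).support)) ⊕ ι → k :=
    Sum.elim (Sum.elim (fun q => ((R q.1).coeff q.2.1.1).coeff q.2.1.2)
      (fun q => (G q.1).coeff q.2.1)) Γ
  obtain ⟨D, hD⟩ := exists_val_units t
  refine ⟨D, fun p hp hpD τ x hx => ?_⟩
  obtain ⟨V, hV, hV1, hV2, hVx⟩ := hD p hp hpD τ x hx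
  refine ⟨V, hV, fun i => hV1 (Sum.inr i), fun i u w h0 => ?_, fun J u hu => ?_, hVx⟩
  · exact hV2 (Sum.inl (Sum.inl ⟨i, (u, w), mem_expo.2 h0⟩)) h0
  · exact hV2 (Sum.inl (Sum.inr ⟨J, u, hu⟩)) (mem_support_iff.1 hu)

/-- Almost all scalings of a curve. -/
theorem curveD {n : ℕ} (R : Fin n → Polynomial (Polynomial ℂ)) (hR : ∀ i, (R i).Monic) {T : ℕ}
    (hT : ∀ i u w, ((R i).coeff u).coeff w ≠ 0 → u ≤ T ∧ w ≤ T)
    (G : ∀ J : Finset (Fin n), MvPolynomial J ℂ) (d : ∀ J : Finset (Fin n), J → ℕ)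
    (hd : ∀ J : Finset (Fin n), J.card = 2 → ∀ u ∈ (G J).support, ∀ j, u j ≤ d J j)
    (hcor : ∀ J : Finset (Fin n), J.card = 2 → ∀ I : Finset J,
      (G J).coeff (corner (d J) I) ≠ 0) (Γ : Finset ℂ) :
    ∃ D : ℕ, ∀ c : Fin n → ℕ, SpreadQ 4 T D c → ∀ r : ℕ, r + 2 ≤ n →
      ∀ (cls : Fin n → Option (Fin r)) (Q : Fin n → Fin n → ℕ) (x s : Fin n → ℂ),
      (∀ i j, 0 < Q i j) →
      (∀ i, cls i = none → IsIntegral (Algebra.adjoin ℤ (Γ : Set ℂ)) (x i)) →
      (∀ i j l, cls i = some l → cls j = some l →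
        Polynomial.eval₂ (Polynomial.aeval (x i) : Polynomial ℂ →ₐ[ℂ] ℂ).toRingHom (x j)
          (W282.ZP.Psi (Q i j)) = 0) →
      (∀ i, Polynomial.eval₂ (Polynomial.aeval (x i) : Polynomial ℂ →ₐ[ℂ] ℂ).toRingHom (s i)
        (R i) = 0) →
      (∀ J : Finset (Fin n), J.card = 2 → aeval (fun j : J => (c j : ℂ) * s j) (G J) = 0) →
      False := by
  classical
  obtain ⟨D, hD⟩ := exists_val_data R G (fun γ : Γ => (γ : ℂ))
  refine ⟨D, fun c hc r hr cls Q x s hQ hconst hrel hRs hG => ?_⟩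
  obtain ⟨p, hp, he, hsq⟩ := hc
  have hS : AlgebraicIndependent ℂ (Empty.elim : Empty → ℂ) :=
    algebraicIndependent_empty_type_iff.2 (RingHom.injective _)
  choose V hV hVΓ hVR hVG hVx using fun l => hD (p l) (hp l).1 (hp l).2 Empty _ hS
  have hc0 : ∀ i, c i ≠ 0 := by
    intro i h0
    have h1 : 0 < (c i).factorization (p 0) := he 0 i
    rw [h0] at h1
    simp at h1
  have hgood : ∀ l i, (V l).valuation ((c i : ℂ) * s i) = 1 →
      (V l).valuation (s i) * (V l).valuation (p l : ℂ) ^ (c i).factorization (p l) = 1 := by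
    intro l i h1
    rw [map_mul, v_nat_pow' (V l) (hp l).1 (hV l) (hc0 i)] at h1
    rw [mul_comm]
    exact h1
  refine criterionCurveV R hR hT V (fun l => (V l).valuation (p l : ℂ)) hV hVR
    (fun l i => (c i).factorization (p l)) he hsq hr cls Q x s hQ ?_ hrel hRs ?_
  · intro l i hi
    refine (ValuationSubring.valuation_le_one_iff _ _).2
      (W466.ZC.mem_of_integral (V l) ?_ (hconst i hi))
    intro w hw
    have hle : Algebra.adjoin ℤ (Γ : Set ℂ) ≤ subalgebraOfSubring (V l).toSubring := by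
      refine Algebra.adjoin_le ?_
      intro g hg
      exact (ValuationSubring.valuation_le_one_iff _ _).1 (hVΓ l ⟨g, hg⟩)
    exact hle hw
  · intro l i j hij
    have hJc : ({i, j} : Finset (Fin n)).card = 2 := Finset.card_pair hij
    obtain ⟨t, ht⟩ := corner_unit (V l) (G {i, j}) (fun u hu => (hVG l _ u hu).le) (d {i, j})
      (hd _ hJc) (fun I => hVG l _ _ (mem_support_iff.2 (hcor _ hJc I))) _ (hG _ hJc)
    have ht' := t.2
    rw [Finset.mem_insert, Finset.mem_singleton] at ht'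
    rcases ht' with h | h
    · left
      apply hgood
      rw [← h]
      exact ht
    · right
      apply hgood
      rw [← h]
      exact ht

end Pool.Agent.TH526.ZL
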