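import Pool.Agent.TH526.ZL.J

/-!
Almost all scalings of sets of any dimension given by equations with non-vanishing corner
coefficients (helper file).
-/

open Function UpperHalfPlane H294ZP MvPolynomial Pool.Agent.W466.ZC

namespace Pool.Agent.TH526.ZL

/-- The combinatorial core, with weaker conditions for the constants. -/
theorem coreV {Λ : Type} [CommRing Λ] [IsDomain Λ] [Algebra Λ ℂ] {n m T : ℕ}
    (R : Fin n → Polynomial (Polynomial Λ)) (hR : ∀ i, (R i).Monic)
    (hT : ∀ i u w, ((R i).coeff u).coeff w ≠ 0 → u ≤ T ∧ w ≤ T)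
    (e : Fin (n.choose 2 + 1) → Fin n → ℕ) (he : ∀ l i, 0 < e l i)
    (hsq : ∀ l l', l ≠ l' → ∀ i j, i ≠ j → ∀ q, 0 < q → q ≤ T ^ 8 →
      ¬ IsSquare (q * (e l i * e l j * (e l' i * e l' j))))
    {r : ℕ} (cls : Fin n → Option (Fin r)) (Q : Fin n → Fin n → ℕ) (x s : Fin n → ℂ)
    (hQ : ∀ i j, 0 < Q i j)
    (hconst : ∀ i, cls i = none → IsAlgebraic Λ (x i))
    (hrel : ∀ i j l, cls i = some l → cls j = some l →
        IsIntegral (Algebra.adjoin ℤ {x i}) (x j) ∧
        Polynomial.eval₂ (Polynomial.aeval (x i) : Polynomial ℂ →ₐ[ℂ] ℂ).toRingHom (x j)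
          (W282.ZP.Psi (Q i j)) = 0)
    (hRs : ∀ i, Polynomial.eval₂ (Polynomial.aeval (x i) : Polynomial Λ →ₐ[Λ] ℂ).toRingHom (s i)
      (R i) = 0)
    (S : Finset (Fin n)) (hS : AlgebraicIndependent Λ (fun i : S => x i))
    (V : Fin (n.choose 2 + 1) → ValuationSubring ℂ) (g : ∀ l, (V l).ValueGroup)
    (hg : ∀ l, g l < 1)
    (hVc : ∀ l i, cls i = none → (V l).valuation (x i) ≤ 1)
    (hVR : ∀ l i u w, ((R i).coeff u).coeff w ≠ 0 →
      (V l).valuation (algebraMap Λ ℂ (((R i).coeff u).coeff w)) = 1)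
    (hVx : ∀ l (i : S), x i ∈ V l)
    (hgood : ∀ l, ∃ E : Finset (Fin n), E.card ≤ m ∧ ∀ i, i ∉ E →
      (V l).valuation (s i) * g l ^ e l i = 1) :
    S.card + n ≤ r + m := by
  classical
  have hV1 : ∀ l i j k, cls i = some k → cls j = some k → (V l).valuation (x i) ≤ 1 →
      (V l).valuation (x j) ≤ 1 := by
    intro l i j k hi hj h1
    exact ((W282.ZP.Psi_spec (hQ i j)).2.2 ℂ (V l) (x i) (x j) (hrel i j k hi hj).2).1 h1
  have hSsome : ∀ t : S, ∃ k, cls t = some k := by
    intro t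
    cases hc : cls t with
    | none => exact ((hS.transcendental t) (hconst t hc)).elim
    | some k => exact ⟨k, rfl⟩
  choose cl hcl using hSsome
  have hclinj : Function.Injective cl := by
    intro t t' htt
    by_contra hne
    exact not_algInd' hS hne (hrel t t' (cl t) (hcl t) (by rw [htt]; exact hcl t')).1
  by_contra hcon
  push Not at hcon
  have hone : ∀ l, ∃ (i j : Fin n) (q : ℕ), i < j ∧ 0 < q ∧ q ≤ T ^ 4 ∧
      IsSquare (Q i j * (e l i * e l j) * q) := by
    intro l
    obtain ⟨E, hE, hEg⟩ := hgood l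
    have hone_lt : ∀ i, i ∉ E → 1 < (V l).valuation (s i) := by
      intro i hi
      by_contra hle
      push Not at hle
      have h1 : (V l).valuation (s i) * g l ^ e l i < 1 :=
        (mul_le_of_le_one_left' hle).trans_lt (pow_lt_one₀ zero_le (hg l) (he l i).ne')
      rw [hEg i hi] at h1
      exact lt_irrefl _ h1
    have htie := fun i (hi : i ∉ E) => tie (V l) (R i) (hR i) (hVR l i) (hT i) (hRs i)
      (hone_lt i hi)
    have hgt : ∀ i, i ∉ E → 1 < (V l).valuation (x i) := fun i hi => (htie i hi).1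
    let Fr : Finset (Option (Fin r)) := (Finset.univ.filter fun k : Fin r =>
      k ∉ Finset.univ.image cl).image some
    have hFr : Fr.card + S.card = r := by
      have h1 : Fr.card = (Finset.univ.filter fun k : Fin r =>
          k ∉ Finset.univ.image cl).card :=
        Finset.card_image_of_injective _ (Option.some_injective _)
      have h2 : (Finset.univ.filter fun k : Fin r => k ∈ Finset.univ.image cl).card = S.card := by
        have h3 : (Finset.univ.filter fun k : Fin r => k ∈ Finset.univ.image cl) =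
            Finset.univ.image cl := by
          ext k; simp
        rw [h3, Finset.card_image_of_injective _ hclinj, Finset.card_univ, Fintype.card_coe]
      have := Finset.card_filter_add_card_filter_not (s := (Finset.univ : Finset (Fin r)))
        (fun k => k ∈ Finset.univ.image cl)
      rw [Finset.card_univ, Fintype.card_fin] at this
      rw [h1]
      omega
    have hEc : Eᶜ.card + E.card = n := by
      have := Finset.card_compl_add_card E
      rwa [Fintype.card_fin] at this
    have hmaps : ∀ i ∈ Eᶜ, cls i ∈ Fr := by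
      intro i hi
      have h1 := hgt i (Finset.mem_compl.1 hi)
      cases hc : cls i with
      | none => exact absurd h1 (not_lt.2 (hVc l i hc))
      | some k =>
        refine Finset.mem_image_of_mem _ (Finset.mem_filter.2 ⟨Finset.mem_univ _, ?_⟩)
        intro hk
        obtain ⟨t, -, ht⟩ := Finset.mem_image.1 hk
        have h3 := hV1 l t i k (ht ▸ hcl t) hc
          ((ValuationSubring.valuation_le_one_iff _ _).2 (hVx l t))
        exact absurd h1 (not_lt.2 h3)
    have key : ∀ i j : Fin n, i ∉ E → j ∉ E → i < j → cls i = cls j →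
        ∃ (i j : Fin n) (q : ℕ), i < j ∧ 0 < q ∧ q ≤ T ^ 4 ∧
          IsSquare (Q i j * (e l i * e l j) * q) := by
      intro i j hi hj hij hcls
      obtain ⟨k, -, hk⟩ := Finset.mem_image.1 (hmaps i (Finset.mem_compl.2 hi))
      obtain ⟨h1, u, w, hu0, huT, hw0, hwT, huw⟩ := htie i hi
      obtain ⟨-, u', w', hu0', huT', hw0', hwT', huw'⟩ := htie j hj
      refine ⟨i, j, u * w * (u' * w'), hij, Nat.mul_pos (Nat.mul_pos hu0 hw0)
        (Nat.mul_pos hu0' hw0'), ?_, ?_⟩
      · calc u * w * (u' * w') ≤ T * T * (T * T) := by gcongr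
          _ = T ^ 4 := by ring
      · exact sq_tie' (hQ i j) (hrel i j k hk.symm (hcls ▸ hk.symm)).2 (V l) (hg l)
          (hEg i hi) (hEg j hj) h1 huw huw'
    obtain ⟨i, hi, i', hi', hne, hcls⟩ := Finset.exists_ne_map_eq_of_card_lt_of_maps_to
      (s := Eᶜ) (t := Fr) (by omega) (f := cls) hmaps
    rcases lt_or_gt_of_ne hne with h | h
    · exact key i i' (Finset.mem_compl.1 hi) (Finset.mem_compl.1 hi') h hcls
    · exact key i' i (Finset.mem_compl.1 hi') (Finset.mem_compl.1 hi) h hcls.symm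
  choose a b q hab hq0 hqT hsq' using hone
  have hcard2 : ∀ l, (({a l, b l} : Finset (Fin n)).card = 2) := fun l =>
    Finset.card_pair (hab l).ne
  obtain ⟨l, l', hll, hqq⟩ := Fintype.exists_ne_map_eq_of_card_lt
    (fun l => (⟨{a l, b l}, hcard2 l⟩ : {s : Finset (Fin n) // s.card = 2})) (by
    rw [Fintype.card_finset_len, Fintype.card_fin, Fintype.card_fin]
    omega)
  have hset : ({a l, b l} : Finset (Fin n)) = {a l', b l'} := congrArg Subtype.val hqq
  have hmm : a l = a l' ∧ b l = b l' := by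
    have h1 : a l ∈ ({a l', b l'} : Finset (Fin n)) := hset ▸ Finset.mem_insert_self _ _
    have h2 : b l ∈ ({a l', b l'} : Finset (Fin n)) :=
      hset ▸ Finset.mem_insert_of_mem (Finset.mem_singleton_self _)
    have h3 := hab l
    have h4 := hab l'
    rw [Finset.mem_insert, Finset.mem_singleton] at h1 h2
    rcases h1 with h1 | h1 <;> rcases h2 with h2 | h2
    · exact absurd (h1.trans h2.symm) h3.ne
    · exact ⟨h1, h2⟩
    · rw [h1, h2] at h3
      exact absurd h3 (not_lt.2 h4.le)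
    · exact absurd (h1.trans h2.symm) h3.ne
  obtain ⟨f, hf⟩ := hsq' l
  obtain ⟨f', hf'⟩ := hsq' l'
  rw [← hmm.1, ← hmm.2] at hf'
  refine hsq l l' hll (a l) (b l) (hab l).ne (q l * q l') (Nat.mul_pos (hq0 l) (hq0 l')) ?_ ?_
  · calc q l * q l' ≤ T ^ 4 * T ^ 4 := Nat.mul_le_mul (hqT l) (hqT l')
      _ = T ^ 8 := by ring
  · refine isSquare_of_mul_sq (m := Q (a l) (b l)) (hQ _ _) ⟨f * f', ?_⟩
    calc _ = (Q (a l) (b l) * (e l (a l) * e l (b l)) * q l) *
          (Q (a l) (b l) * (e l' (a l) * e l' (b l)) * q l') := by ring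
      _ = (f * f) * (f' * f') := by rw [hf, hf']
      _ = f * f' * (f * f') := by ring


/-- Almost all scalings of a set given by equations. -/
theorem boxD (K : Subfield ℂ) {n m : ℕ} (R : Fin n → Polynomial (Polynomial K))
    (hR : ∀ i, (R i).Monic) {T : ℕ}
    (hT : ∀ i u w, ((R i).coeff u).coeff w ≠ 0 → u ≤ T ∧ w ≤ T)
    (G : ∀ J : Finset (Fin n), MvPolynomial J K) (d : ∀ J : Finset (Fin n), J → ℕ)
    (hd : ∀ J : Finset (Fin n), J.card = m + 1 → ∀ u ∈ (G J).support, ∀ j, u j ≤ d J j)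
    (hcor : ∀ J : Finset (Fin n), J.card = m + 1 → ∀ I : Finset J,
      (G J).coeff (corner (d J) I) ≠ 0) (Γ : Finset ℂ) (hΓ : ∀ γ ∈ Γ, γ ∈ K) :
    ∃ D : ℕ, ∀ c : Fin n → ℕ, SpreadQ (n.choose 2 + 1) T D c →
      ∀ (r : ℕ) (cls : Fin n → Option (Fin r)) (Q : Fin n → Fin n → ℕ) (x s : Fin n → ℂ),
      (∀ i j, 0 < Q i j) →
      (∀ i, cls i = none → IsIntegral (Algebra.adjoin ℤ (Γ : Set ℂ)) (x i)) →
      (∀ i j l, cls i = some l → cls j = some l →
        IsIntegral (Algebra.adjoin ℤ {x i}) (x j) ∧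
        Polynomial.eval₂ (Polynomial.aeval (x i) : Polynomial ℂ →ₐ[ℂ] ℂ).toRingHom (x j)
          (W282.ZP.Psi (Q i j)) = 0) →
      (∀ i, Polynomial.eval₂ (Polynomial.aeval (x i) : Polynomial K →ₐ[K] ℂ).toRingHom (s i)
        (R i) = 0) →
      (∀ J : Finset (Fin n), J.card = m + 1 → aeval (fun j : J => (c j : ℂ) * s j) (G J) = 0) →
      ∀ S : Finset (Fin n), AlgebraicIndependent K (fun i : S => x i) → S.card + n ≤ r + m := by
  classical
  obtain ⟨D, hD⟩ := exists_val_data R G (fun γ : Γ => (⟨γ, hΓ γ γ.2⟩ : K))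
  refine ⟨D, fun c hc r cls Q x s hQ hconst hrel hRs hG S hS => ?_⟩
  obtain ⟨p, hp, he, hsq⟩ := hc
  choose V hV hVΓ hVR hVG hVx using fun l => hD (p l) (hp l).1 (hp l).2 S _ hS
  have hL0 : 0 < n.choose 2 + 1 := Nat.succ_pos _
  have hc0 : ∀ i, c i ≠ 0 := by
    intro i h0
    have h1 : 0 < (c i).factorization (p ⟨0, hL0⟩) := he ⟨0, hL0⟩ i
    rw [h0] at h1
    simp at h1
  have hgood : ∀ l i, (V l).valuation ((c i : ℂ) * s i) = 1 →
      (V l).valuation (s i) * (V l).valuation (p l : ℂ) ^ (c i).factorization (p l) = 1 := by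
    intro l i h1
    rw [map_mul, v_nat_pow' (V l) (hp l).1 (hV l) (hc0 i)] at h1
    rw [mul_comm]
    exact h1
  refine coreV (m := m) R hR hT (fun l i => (c i).factorization (p l)) he hsq cls Q x s hQ ?_ hrel
    hRs S hS V (fun l => (V l).valuation (p l : ℂ)) hV ?_ hVR hVx ?_
  · intro i hi
    obtain ⟨P, hP, hPe⟩ := hconst i hi
    have hle : ∀ z ∈ Algebra.adjoin ℤ (Γ : Set ℂ), z ∈ K := by
      intro z hz
      have h9 : Algebra.adjoin ℤ (Γ : Set ℂ) ≤ subalgebraOfSubring K.toSubring :=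
        Algebra.adjoin_le fun g hg => hΓ g hg
      exact h9 hz
    let φ : Algebra.adjoin ℤ (Γ : Set ℂ) →+* K :=
      (algebraMap (Algebra.adjoin ℤ (Γ : Set ℂ)) ℂ).codRestrict K (fun a => hle a a.2)
    have h1 : IsIntegral K (x i) := by
      refine ⟨P.map φ, hP.map _, ?_⟩
      rw [Polynomial.eval₂_map]
      exact hPe
    exact h1.isAlgebraic
  · intro l i hi
    refine (ValuationSubring.valuation_le_one_iff _ _).2
      (W466.ZC.mem_of_integral (V l) ?_ (hconst i hi))
    intro w hw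
    have hle : Algebra.adjoin ℤ (Γ : Set ℂ) ≤ subalgebraOfSubring (V l).toSubring := by
      refine Algebra.adjoin_le ?_
      intro g hg
      exact (ValuationSubring.valuation_le_one_iff _ _).1 (hVΓ l ⟨g, hg⟩)
    exact hle hw
  · intro l
    refine ⟨Finset.univ.filter fun i => ¬ (V l).valuation ((c i : ℂ) * s i) = 1, ?_, ?_⟩
    · by_contra h
      push Not at h
      obtain ⟨J, hJE, hJc⟩ := Finset.exists_subset_card_eq (Nat.succ_le_of_lt h)
      obtain ⟨j, hj⟩ := corner_unit (V l) (G J) (fun u hu => (hVG l _ u hu).le) (d J)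
        (hd J hJc) (fun I => hVG l _ _ (mem_support_iff.2 (hcor J hJc I))) _ (hG J hJc)
      exact (Finset.mem_filter.1 (hJE j.2)).2 hj
    · intro i hi
      rw [Finset.mem_filter] at hi
      push Not at hi
      exact hgood l i (hi (Finset.mem_univ i))

end Pool.Agent.TH526.ZL
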