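import Pool.Agent.TH526.ZL.K

/-!
One-parameter families: valuation rings which are good for all members of the family which are near
to given degenerate members (helper file).
-/

open Function UpperHalfPlane H294ZP MvPolynomial Pool.Agent.W466.ZC

namespace Pool.Agent.TH526.ZL

/-- The specialization at `τ` of a polynomial with coefficients in `k[T]`. -/
noncomputable def spec {k : Type} {σ : Type*} [CommRing k] (τ : k)
    (P : MvPolynomial σ (Polynomial k)) : MvPolynomial σ k :=
  MvPolynomial.map (Polynomial.evalRingHom τ) P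

/-- the set of the coefficients of a polynomial -/
noncomputable def coefsP {k : Type} [Field k] {σ : Type*} (P : MvPolynomial σ k) : Set k :=
  (fun u => P.coeff u) '' (P.support : Set (σ →₀ ℕ))

theorem coefsP_finite {k : Type} [Field k] {σ : Type*} (P : MvPolynomial σ k) :
    (coefsP P).Finite := P.support.finite_toSet.image _

/-- the set of the coefficients of the coefficients of a polynomial over `k[T]` -/
noncomputable def coefsT {k : Type} [Field k] {σ : Type*} (P : MvPolynomial σ (Polynomial k)) :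
    Set k :=
  ⋃ u ∈ (P.support : Set (σ →₀ ℕ)), (fun i => (P.coeff u).coeff i) '' ((P.coeff u).support : Set ℕ)

theorem coefsT_finite {k : Type} [Field k] {σ : Type*} (P : MvPolynomial σ (Polynomial k)) :
    (coefsT P).Finite :=
  P.support.finite_toSet.biUnion fun u _ => (P.coeff u).support.finite_toSet.image _

/-- the set of the coefficients of a polynomial in one variable -/
noncomputable def coefs1 {k : Type} [Field k] (P : Polynomial k) : Set k :=
  (fun i => P.coeff i) '' (P.support : Set ℕ)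

theorem coefs1_finite {k : Type} [Field k] (P : Polynomial k) : (coefs1 P).Finite :=
  P.support.finite_toSet.image _

variable {k : Type} [Field k] [Algebra k ℂ]

theorem coefs1_mem (V : ValuationSubring ℂ) {P : Polynomial k}
    (h : ∀ z ∈ coefs1 P, algebraMap k ℂ z ∈ V) (i : ℕ) : algebraMap k ℂ (P.coeff i) ∈ V := by
  by_cases h0 : P.coeff i = 0
  · rw [h0, map_zero]
    exact zero_mem V
  · exact h _ ⟨i, Polynomial.mem_support_iff.2 h0, rfl⟩

theorem coefsT_mem (V : ValuationSubring ℂ) {σ : Type*} {P : MvPolynomial σ (Polynomial k)}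
    (h : ∀ z ∈ coefsT P, algebraMap k ℂ z ∈ V) (u : σ →₀ ℕ) (i : ℕ) :
    algebraMap k ℂ ((P.coeff u).coeff i) ∈ V := by
  by_cases h0 : (P.coeff u).coeff i = 0
  · rw [h0, map_zero]
    exact zero_mem V
  · refine h _ (Set.mem_biUnion (x := u) ?_ ⟨i, Polynomial.mem_support_iff.2 h0, rfl⟩)
    rw [Finset.mem_coe, mem_support_iff]
    intro h1
    rw [h1, Polynomial.coeff_zero] at h0
    exact h0 rfl

theorem eval1_mem (V : ValuationSubring ℂ) (P : Polynomial k)
    (hP : ∀ i, algebraMap k ℂ (P.coeff i) ∈ V) {τ : k} (hτ : algebraMap k ℂ τ ∈ V) :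
    algebraMap k ℂ (P.eval τ) ∈ V := by
  rw [Polynomial.eval_eq_sum_range, map_sum]
  refine sum_mem fun i _ => ?_
  rw [map_mul, map_pow]
  exact mul_mem (hP i) (pow_mem hτ i)

/-- polynomials with coefficients in the valuation ring take near values at near arguments -/
theorem v_eval_sub (V : ValuationSubring ℂ) (P : Polynomial k)
    (hP : ∀ i, algebraMap k ℂ (P.coeff i) ∈ V) {τ α : k} (hτ : algebraMap k ℂ τ ∈ V)
    (hα : algebraMap k ℂ α ∈ V) (h : V.valuation (algebraMap k ℂ (τ - α)) < 1) :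
    V.valuation (algebraMap k ℂ (P.eval τ - P.eval α)) < 1 := by
  rw [Polynomial.eval_eq_sum_range, Polynomial.eval_eq_sum_range, ← Finset.sum_sub_distrib, map_sum]
  refine Valuation.map_sum_lt _ one_ne_zero fun i _ => ?_
  let τ' : V := ⟨_, hτ⟩
  let α' : V := ⟨_, hα⟩
  obtain ⟨w, hw⟩ := sub_dvd_pow_sub_pow τ' α' i
  have h1 : algebraMap k ℂ τ ^ i - algebraMap k ℂ α ^ i =
      (algebraMap k ℂ τ - algebraMap k ℂ α) * (w : ℂ) := congrArg (V.subtype) hw
  rw [← mul_sub, map_mul, map_mul, map_sub, map_pow, map_pow, h1, map_mul, ← map_sub]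
  have h2 : V.valuation (w : ℂ) ≤ 1 := (ValuationSubring.valuation_le_one_iff _ _).2 w.2
  have h3 : V.valuation (algebraMap k ℂ (P.coeff i)) ≤ 1 :=
    (ValuationSubring.valuation_le_one_iff _ _).2 (hP i)
  exact (mul_le_of_le_one_left' h3).trans_lt ((mul_le_of_le_one_right' h2).trans_lt h)

theorem aeval_spec {σ : Type*} [Fintype σ] (τ : k) (P : MvPolynomial σ (Polynomial k))
    (y : σ → ℂ) : aeval y (spec τ P) =
      ∑ u ∈ P.support, algebraMap k ℂ ((P.coeff u).eval τ) * ∏ j, y j ^ u j := by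
  rw [spec, aeval_def, eval₂_map, eval₂_eq']
  rfl

theorem aeval_spec_mem {σ : Type*} [Fintype σ] (V : ValuationSubring ℂ)
    (P : MvPolynomial σ (Polynomial k))
    (hP : ∀ u i, algebraMap k ℂ ((P.coeff u).coeff i) ∈ V) {τ : k} (hτ : algebraMap k ℂ τ ∈ V)
    {y : σ → ℂ} (hy : ∀ j, y j ∈ V) : aeval y (spec τ P) ∈ V := by
  rw [aeval_spec]
  exact sum_mem fun u _ => mul_mem (eval1_mem V _ (hP u) hτ)
    (prod_mem fun j _ => pow_mem (hy j) _)

theorem v_spec_sub {σ : Type*} [Fintype σ] (V : ValuationSubring ℂ)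
    (P : MvPolynomial σ (Polynomial k))
    (hP : ∀ u i, algebraMap k ℂ ((P.coeff u).coeff i) ∈ V) {τ α : k} (hτ : algebraMap k ℂ τ ∈ V)
    (hα : algebraMap k ℂ α ∈ V) (h : V.valuation (algebraMap k ℂ (τ - α)) < 1)
    {y : σ → ℂ} (hy : ∀ j, y j ∈ V) :
    V.valuation (aeval y (spec τ P) - aeval y (spec α P)) < 1 := by
  rw [aeval_spec, aeval_spec, ← Finset.sum_sub_distrib]
  refine Valuation.map_sum_lt _ one_ne_zero fun u _ => ?_
  rw [← sub_mul, ← map_sub, map_mul]
  have h1 : V.valuation (∏ j, y j ^ u j) ≤ 1 :=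
    (ValuationSubring.valuation_le_one_iff _ _).2 (prod_mem fun j _ => pow_mem (hy j) _)
  exact (mul_le_of_le_one_right' h1).trans_lt (v_eval_sub V _ (hP u) hτ hα h)

theorem spec_smul {σ : Type*} [Fintype σ] {P : MvPolynomial σ (Polynomial k)} {e : ℕ}
    (hP : P.IsHomogeneous e) (τ : k) (c : ℂ) (y : σ → ℂ) :
    aeval (c • y) (spec τ P) = c ^ e * aeval y (spec τ P) :=
  aeval_smul' (hP.map _) c y

/-- Good valuation rings for the members of a family which are near to the degenerate ones. -/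
theorem goodT [IsAlgClosed k] [CharZero k] {σ : Type*} [Fintype σ] {κ : Type} [Finite κ]
    {n m M : ℕ} (G : κ → MvPolynomial σ (Polynomial k))
    (hhom : ∀ i, ∃ e, (G i).IsHomogeneous e) (A B : Fin n → MvPolynomial σ (Polynomial k))
    (α : Fin M → k)
    (hdis : ∀ l, ∀ I : Finset (Fin n), I.card = m + 1 → ∀ y : σ → ℂ,
      (∀ i, aeval y (spec (α l) (G i)) = 0) →
      (∀ i ∈ I, aeval y (spec (α l) (A i)) * aeval y (spec (α l) (B i)) = 0) → y = 0)
    (Γ : Set k) (hΓ : Γ.Finite) :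
    ∃ D : ℕ, ∀ p : ℕ, p.Prime → D < p → ∀ (ρ : Type) (x : ρ → ℂ), AlgebraicIndependent k x →
      ∃ V : ValuationSubring ℂ, V.valuation (p : ℂ) < 1 ∧ (∀ z ∈ Γ, algebraMap k ℂ z ∈ V) ∧
      (∀ j, x j ∈ V) ∧ ∀ (l : Fin M) (τ : k), V.valuation (algebraMap k ℂ (τ - α l)) < 1 →
      ∀ y : σ → ℂ, y ≠ 0 → (∀ i, aeval y (spec τ (G i)) = 0) →
        ∃ c : ℂ, c ≠ 0 ∧ (∀ i, aeval (c • y) (spec τ (A i)) ∈ V ∧
          aeval (c • y) (spec τ (B i)) ∈ V) ∧
          ∀ I : Finset (Fin n), I.card = m + 1 → ∃ i ∈ I,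
            V.valuation (aeval (c • y) (spec τ (A i)) * aeval (c • y) (spec τ (B i))) = 1 := by
  classical
  have := Fintype.ofFinite κ
  have hcert := fun (l : Fin M) (I : {I : Finset (Fin n) // I.card = m + 1}) =>
    cert' (k := k) (Empty.elim : Empty → MvPolynomial σ k)
      (fun b : κ ⊕ I.1 => Sum.elim (fun i => spec (α l) (G i))
        (fun i : I.1 => spec (α l) (A i) * spec (α l) (B i)) b) (fun y _ hb =>
      hdis l I.1 I.2 y (fun i => hb (Sum.inl i)) fun i hi => by
        have := hb (Sum.inr ⟨i, hi⟩)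
        simp only [Sum.elim_inr] at this
        rwa [map_mul] at this)
  choose M' U hU using hcert
  let W : Set k := (⋃ q : (Fin M) × {I : Finset (Fin n) // I.card = m + 1} × σ,
      ⋃ b : κ ⊕ q.2.1.1, coefsP (U q.1 q.2.1 q.2.2 b)) ∪
    ((⋃ i, coefsT (A i)) ∪ ((⋃ i, coefsT (B i)) ∪ ((⋃ i, coefsT (G i)) ∪
      ((Set.range α) ∪ Γ))))
  have hWfin : W.Finite := by
    refine Set.Finite.union (Set.finite_iUnion fun q => Set.finite_iUnion fun b =>
      coefsP_finite _) (Set.Finite.union (Set.finite_iUnion fun i => coefsT_finite _)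
      (Set.Finite.union (Set.finite_iUnion fun i => coefsT_finite _)
      (Set.Finite.union (Set.finite_iUnion fun i => coefsT_finite _)
      (Set.Finite.union (Set.finite_range α) hΓ))))
  have := hWfin.to_subtype
  obtain ⟨D, hD⟩ := exists_val' (fun z : W => (z : k))
  refine ⟨D, fun p hp hpD ρ x hx => ?_⟩
  obtain ⟨V, hV, hVt, hVx⟩ := hD p hp hpD ρ x hx
  have hW : ∀ z ∈ W, algebraMap k ℂ z ∈ V := fun z hz => hVt ⟨z, hz⟩
  refine ⟨V, by rwa [ValuationSubring.mem_nonunits_iff] at hV,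
    fun z hz => hW z (Or.inr (Or.inr (Or.inr (Or.inr (Or.inr hz))))), hVx, ?_⟩
  intro l τ hτl y hy0 hyG
  have hUV : ∀ I j b, ∀ u ∈ (U l I j b).support, algebraMap k ℂ ((U l I j b).coeff u) ∈ V := by
    intro I j b u hu
    exact hW _ (Or.inl (Set.mem_iUnion.2 ⟨(l, I, j), Set.mem_iUnion.2 ⟨b, ⟨u, hu, rfl⟩⟩⟩))
  have hAV : ∀ i u j, algebraMap k ℂ (((A i).coeff u).coeff j) ∈ V := fun i =>
    coefsT_mem V fun z hz => hW z (Or.inr (Or.inl (Set.mem_iUnion.2 ⟨i, hz⟩)))
  have hBV : ∀ i u j, algebraMap k ℂ (((B i).coeff u).coeff j) ∈ V := fun i =>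
    coefsT_mem V fun z hz => hW z (Or.inr (Or.inr (Or.inl (Set.mem_iUnion.2 ⟨i, hz⟩))))
  have hGV : ∀ i u j, algebraMap k ℂ (((G i).coeff u).coeff j) ∈ V := fun i =>
    coefsT_mem V fun z hz => hW z (Or.inr (Or.inr (Or.inr (Or.inl (Set.mem_iUnion.2 ⟨i, hz⟩)))))
  have hαV : algebraMap k ℂ (α l) ∈ V :=
    hW _ (Or.inr (Or.inr (Or.inr (Or.inr (Or.inl ⟨l, rfl⟩)))))
  have hτV : algebraMap k ℂ τ ∈ V := by
    have h1 : algebraMap k ℂ τ = algebraMap k ℂ (τ - α l) + algebraMap k ℂ (α l) := by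
      rw [map_sub, sub_add_cancel]
    rw [h1]
    exact add_mem ((ValuationSubring.valuation_le_one_iff _ _).1 hτl.le) hαV
  set v := V.valuation with hv
  have hne : (Finset.univ : Finset σ).Nonempty := by
    by_contra h
    rw [Finset.not_nonempty_iff_eq_empty, Finset.univ_eq_empty_iff] at h
    exact hy0 (funext fun j => (h.false j).elim)
  obtain ⟨j0, -, hj0⟩ := Finset.exists_max_image Finset.univ (fun j => v (y j)) hne
  have hyj0 : y j0 ≠ 0 := by
    intro h
    apply hy0
    funext j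
    have h1 := hj0 j (Finset.mem_univ j)
    simp only [h, map_zero, le_zero_iff] at h1
    exact (map_eq_zero v).1 h1
  set z := (y j0)⁻¹ • y with hz
  have hzV : ∀ j, z j ∈ V := by
    intro j
    rw [← ValuationSubring.valuation_le_one_iff, hz, Pi.smul_apply, smul_eq_mul, map_mul, map_inv₀]
    have h1 := hj0 j (Finset.mem_univ j)
    have h2 : v (y j0) ≠ 0 := (map_ne_zero v).2 hyj0
    calc (v (y j0))⁻¹ * v (y j) ≤ (v (y j0))⁻¹ * v (y j0) := mul_le_mul_right h1 _
      _ = 1 := inv_mul_cancel₀ h2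
  have hzG : ∀ i, aeval z (spec τ (G i)) = 0 := by
    intro i
    obtain ⟨e, he⟩ := hhom i
    rw [hz, spec_smul he, hyG i, mul_zero]
  refine ⟨(y j0)⁻¹, inv_ne_zero hyj0, fun i => ⟨aeval_spec_mem V _ (hAV i) hτV hzV,
    aeval_spec_mem V _ (hBV i) hτV hzV⟩, ?_⟩
  intro I hI
  by_contra hcon
  push Not at hcon
  have hclose : ∀ P : MvPolynomial σ (Polynomial k),
      (∀ u i, algebraMap k ℂ ((P.coeff u).coeff i) ∈ V) →
      v (aeval z (spec τ P) - aeval z (spec (α l) P)) < 1 := fun P hP =>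
    v_spec_sub V P hP hτV hαV hτl hzV
  have hltG : ∀ i, v (aeval z (spec (α l) (G i))) < 1 := by
    intro i
    have h1 := hclose (G i) (hGV i)
    rw [hzG i, zero_sub, Valuation.map_neg] at h1
    exact h1
  have hlt : ∀ i ∈ I, v (aeval z (spec (α l) (A i)) * aeval z (spec (α l) (B i))) < 1 := by
    intro i hi
    have hA1 := (ValuationSubring.valuation_le_one_iff _ _).2
      (aeval_spec_mem V _ (hAV i) hτV hzV)
    have hB1 := (ValuationSubring.valuation_le_one_iff _ _).2
      (aeval_spec_mem V _ (hBV i) hαV hzV)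
    have h0 : v (aeval z (spec τ (A i)) * aeval z (spec τ (B i))) < 1 := by
      refine lt_of_le_of_ne ?_ (hcon i hi)
      rw [ValuationSubring.valuation_le_one_iff]
      exact mul_mem (aeval_spec_mem V _ (hAV i) hτV hzV) (aeval_spec_mem V _ (hBV i) hτV hzV)
    have e1 : aeval z (spec (α l) (A i)) * aeval z (spec (α l) (B i)) =
        aeval z (spec τ (A i)) * aeval z (spec τ (B i)) -
        (aeval z (spec τ (A i)) * (aeval z (spec τ (B i)) - aeval z (spec (α l) (B i))) +
          (aeval z (spec τ (A i)) - aeval z (spec (α l) (A i))) *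
            aeval z (spec (α l) (B i))) := by ring
    rw [e1]
    refine Valuation.map_sub_lt _ h0 (Valuation.map_add_lt _ ?_ ?_)
    · rw [map_mul]
      exact (mul_le_of_le_one_left' hA1).trans_lt (hclose _ (hBV i))
    · rw [map_mul]
      exact (mul_le_of_le_one_right' hB1).trans_lt (hclose _ (hAV i))
  have h1 := hU l ⟨I, hI⟩ z (fun i => i.elim) j0
  have h2 : z j0 = 1 := by
    rw [hz, Pi.smul_apply, smul_eq_mul, inv_mul_cancel₀ hyj0]
  rw [h2, one_pow] at h1
  have h3 : v (∑ b : κ ⊕ I, aeval z (U l ⟨I, hI⟩ j0 b) *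
      aeval z (Sum.elim (fun i => spec (α l) (G i))
        (fun i : I => spec (α l) (A i) * spec (α l) (B i)) b)) < 1 := by
    refine Valuation.map_sum_lt _ one_ne_zero fun b _ => ?_
    rw [map_mul]
    refine (mul_le_of_le_one_left' ((ValuationSubring.valuation_le_one_iff _ _).2
      (aeval_mem V _ (hUV ⟨I, hI⟩ j0 b) hzV))).trans_lt ?_
    rcases b with i | i
    · exact hltG i
    · simp only [Sum.elim_inr, map_mul (aeval z)]
      exact hlt i i.2
  rw [← h1, map_one] at h3
  exact lt_irrefl _ h3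

end Pool.Agent.TH526.ZL
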