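import Pool.Agent.TH526.ZL.L

/-!
One-parameter families: members at rational parameters with large prime factors (helper file).
-/

open Function UpperHalfPlane H294ZP MvPolynomial Pool.Agent.W466.ZC

namespace Pool.Agent.TH526.ZL

theorem v_rat_lt (V : ValuationSubring ℂ) {p : ℕ} (hpp : p.Prime) (hp : V.valuation (p : ℂ) < 1)
    {q : ℚ} (h : (p : ℤ) ∣ q.num) : V.valuation (q : ℂ) < 1 := by
  have hden : ¬ p ∣ q.den := by
    intro h1
    have h3 : p ∣ q.num.natAbs := Int.natCast_dvd.1 h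
    have h4 := Nat.dvd_gcd h3 h1
    rw [Nat.Coprime.gcd_eq_one q.reduced] at h4
    exact hpp.one_lt.ne' (Nat.dvd_one.1 h4)
  have h1 : V.valuation ((q.den : ℕ) : ℂ) = 1 := by
    rw [v_nat_pow' V hpp hp q.den_ne_zero, Nat.factorization_eq_zero_of_not_dvd hden, pow_zero]
  obtain ⟨t, ht⟩ := h
  have h2 : (q : ℂ) = ((q.num : ℤ) : ℂ) / ((q.den : ℕ) : ℂ) := by
    rw [Rat.cast_def]
  rw [h2, map_div₀, h1, div_one, ht]
  push_cast
  rw [map_mul]
  exact (mul_le_of_le_one_right' (v_int_le V t)).trans_lt hp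

variable {k : Type} [Field k] [Algebra k ℂ]

theorem v_unit (V : ValuationSubring ℂ) {W : Set k} (h : ∀ z ∈ W, algebraMap k ℂ z ∈ V)
    (h' : ∀ z ∈ W, algebraMap k ℂ z⁻¹ ∈ V) {z : k} (hz : z ∈ W) (hz0 : z ≠ 0) :
    V.valuation (algebraMap k ℂ z) = 1 := by
  have h1 := (ValuationSubring.valuation_le_one_iff _ _).2 (h z hz)
  have h2 := (ValuationSubring.valuation_le_one_iff _ _).2 (h' z hz)
  rw [map_inv₀, map_inv₀] at h2
  refine le_antisymm h1 ?_
  have h3 : V.valuation (algebraMap k ℂ z) ≠ 0 := by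
    rw [Valuation.ne_zero_iff]
    exact (map_ne_zero _).2 hz0
  exact (inv_le_one₀ (zero_lt_iff.2 h3)).1 h2

theorem familyK [IsAlgClosed k] [CharZero k] {κ : Type} [Finite κ]
    {N n m M T : ℕ} (G : κ → MvPolynomial (Fin (N + 1)) (Polynomial k))
    (hG : ∀ i, ∃ e, (G i).IsHomogeneous e)
    (A B : Fin n → MvPolynomial (Fin (N + 1)) (Polynomial k)) (d : Fin n → ℕ)
    (hA : ∀ i, (A i).IsHomogeneous (d i)) (hB : ∀ i, (B i).IsHomogeneous (d i))
    (R : Fin n → Polynomial (Polynomial k)) (hR : ∀ i, (R i).Monic)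
    (hT : ∀ i u w, ((R i).coeff u).coeff w ≠ 0 → u ≤ T ∧ w ≤ T)
    (c : Fin n → Polynomial k) (α : Fin M → ℚ)
    (hind : IndepQ T (fun l i => (c i).rootMultiplicity ((α l : ℚ) : k)))
    (hdis : ∀ l, ∀ I : Finset (Fin n), I.card = m + 1 → ∀ y : Fin (N + 1) → ℂ,
      (∀ i, aeval y (spec ((α l : ℚ) : k) (G i)) = 0) →
      (∀ i ∈ I, aeval y (spec ((α l : ℚ) : k) (A i)) *
        aeval y (spec ((α l : ℚ) : k) (B i)) = 0) → y = 0)
    (Γ : Set k) (hΓ : Γ.Finite) :
    ∃ D : ℕ, ∀ (τ : ℚ) (f : Fin (n.choose 2 + 1) → Fin M), Function.Injective f →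
      (∀ l, ∃ p : ℕ, p.Prime ∧ D < p ∧ (p : ℤ) ∣ (τ - α (f l)).num) →
      ∀ (r : ℕ) (cls : Fin n → Option (Fin r)) (Q : Fin n → Fin n → ℕ) (x s : Fin n → ℂ),
      (∀ i j, 0 < Q i j) →
      (∀ i, cls i = none → IsIntegral (Algebra.adjoin ℤ (algebraMap k ℂ '' Γ)) (x i)) →
      (∀ i j l, cls i = some l → cls j = some l →
        IsIntegral (Algebra.adjoin ℤ {x i}) (x j) ∧
        Polynomial.eval₂ (Polynomial.aeval (x i) : Polynomial ℂ →ₐ[ℂ] ℂ).toRingHom (x j)
          (W282.ZP.Psi (Q i j)) = 0) →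
      (∀ i, Polynomial.eval₂ (Polynomial.aeval (x i) : Polynomial k →ₐ[k] ℂ).toRingHom (s i)
        (R i) = 0) →
      ∀ y : Fin (N + 1) → ℂ, y ≠ 0 → (∀ i, aeval y (spec ((τ : ℚ) : k) (G i)) = 0) →
      (∀ i, algebraMap k ℂ ((c i).eval ((τ : ℚ) : k)) * aeval y (spec ((τ : ℚ) : k) (B i)) * s i =
        aeval y (spec ((τ : ℚ) : k) (A i))) →
      ∀ S : Finset (Fin n), AlgebraicIndependent k (fun i : S => x i) → S.card + n ≤ r + m := by
  classical
  have hq : ∀ (l : Fin M) (i : Fin n), ∃ q : Polynomial k,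
      c i = (Polynomial.X - Polynomial.C ((α l : ℚ) : k)) ^
        (c i).rootMultiplicity ((α l : ℚ) : k) * q ∧ q.eval ((α l : ℚ) : k) ≠ 0 := by
    intro l i
    have hc0 : c i ≠ 0 := by
      intro h0
      have := hind.1 l i
      change 0 < (c i).rootMultiplicity ((α l : ℚ) : k) at this
      rw [h0, Polynomial.rootMultiplicity_zero] at this
      exact lt_irrefl _ this
    obtain ⟨q, hq1, hq2⟩ :=
      Polynomial.exists_eq_pow_rootMultiplicity_mul_and_not_dvd (c i) hc0 ((α l : ℚ) : k)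
    refine ⟨q, hq1, fun h => hq2 ?_⟩
    rw [Polynomial.dvd_iff_isRoot]
    exact h
  choose q hq1 hq2 using hq
  let W1 : Set k := (⋃ l, ⋃ i, coefs1 (q l i)) ∪ ((Set.range fun li : Fin M × Fin n =>
    (q li.1 li.2).eval ((α li.1 : ℚ) : k)) ∪
    (⋃ i, ⋃ u ∈ ((R i).support : Set ℕ), coefs1 ((R i).coeff u)))
  have hW1 : W1.Finite := by
    refine Set.Finite.union (Set.finite_iUnion fun l => Set.finite_iUnion fun i =>
      coefs1_finite _) (Set.Finite.union (Set.finite_range _) (Set.finite_iUnion fun i =>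
      (R i).support.finite_toSet.biUnion fun u _ => coefs1_finite _))
  let W2 : Set k := W1 ∪ ((fun z => z⁻¹) '' W1 ∪ (Set.range (fun l => ((α l : ℚ) : k)) ∪ Γ))
  have hW2 : W2.Finite :=
    hW1.union ((hW1.image _).union ((Set.finite_range _).union hΓ))
  obtain ⟨D, hD⟩ := goodT (m := m) G hG A B (fun l => ((α l : ℚ) : k)) hdis W2 hW2
  refine ⟨D, fun τ f hf hp r cls Q x s hQ hconst hrel hRs y hy0 hyG hxy S hS => ?_⟩
  choose p hp hpD hpdvd using hp
  choose V hV hVW hVx hVy using fun l => hD (p l) (hp l) (hpD l) S _ hS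
  have hW1V : ∀ l, ∀ z ∈ W1, algebraMap k ℂ z ∈ V l := fun l z hz => hVW l z (Or.inl hz)
  have hW1V' : ∀ l, ∀ z ∈ W1, algebraMap k ℂ z⁻¹ ∈ V l := fun l z hz =>
    hVW l _ (Or.inr (Or.inl ⟨z, hz, rfl⟩))
  have hΓV : ∀ l, ∀ z ∈ Γ, algebraMap k ℂ z ∈ V l := fun l z hz =>
    hVW l z (Or.inr (Or.inr (Or.inr hz)))
  have hcast : ∀ t : ℚ, algebraMap k ℂ ((t : ℚ) : k) = (t : ℂ) := fun t => map_ratCast _ t
  have hτ : ∀ l, (V l).valuation (algebraMap k ℂ (((τ : ℚ) : k) - ((α (f l) : ℚ) : k))) < 1 := by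
    intro l
    rw [← Rat.cast_sub, hcast]
    exact v_rat_lt (V l) (hp l) (hV l) (hpdvd l)
  have hαV : ∀ l, algebraMap k ℂ ((α (f l) : ℚ) : k) ∈ V l := fun l =>
    hVW l _ (Or.inr (Or.inr (Or.inl ⟨f l, rfl⟩)))
  have hτV : ∀ l, algebraMap k ℂ ((τ : ℚ) : k) ∈ V l := by
    intro l
    have h1 : algebraMap k ℂ ((τ : ℚ) : k) =
        algebraMap k ℂ (((τ : ℚ) : k) - ((α (f l) : ℚ) : k)) +
          algebraMap k ℂ ((α (f l) : ℚ) : k) := by
      rw [map_sub, sub_add_cancel]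
    rw [h1]
    exact add_mem ((ValuationSubring.valuation_le_one_iff _ _).1 (hτ l).le) (hαV l)
  have hcv : ∀ l i, (V l).valuation (algebraMap k ℂ ((c i).eval ((τ : ℚ) : k))) =
      (V l).valuation (algebraMap k ℂ (((τ : ℚ) : k) - ((α (f l) : ℚ) : k))) ^
        (c i).rootMultiplicity ((α (f l) : ℚ) : k) := by
    intro l i
    have h1 : (V l).valuation (algebraMap k ℂ ((q (f l) i).eval ((τ : ℚ) : k))) = 1 := by
      have h2 : (V l).valuation (algebraMap k ℂ ((q (f l) i).eval ((α (f l) : ℚ) : k))) = 1 :=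
        v_unit (V l) (hW1V l) (hW1V' l) (Or.inr (Or.inl ⟨(f l, i), rfl⟩)) (hq2 _ _)
      have h3 := v_eval_sub (V l) (q (f l) i) (coefs1_mem (V l) fun z hz => hW1V l z
        (Or.inl (Set.mem_iUnion.2 ⟨f l, Set.mem_iUnion.2 ⟨i, hz⟩⟩))) (hτV l) (hαV l) (hτ l)
      rw [← h2]
      refine Valuation.map_eq_of_sub_lt _ ?_
      rw [← map_sub, h2]
      exact h3
    conv_lhs => rw [hq1 (f l) i]
    rw [Polynomial.eval_mul, Polynomial.eval_pow, Polynomial.eval_sub, Polynomial.eval_X,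
      Polynomial.eval_C, map_mul, map_mul, h1, mul_one, map_pow, map_pow]
  refine coreV (m := m) R hR hT (fun l i => (c i).rootMultiplicity ((α (f l) : ℚ) : k))
    (fun l i => hind.1 (f l) i) (fun l l' hll => hind.2 (f l) (f l') fun h => hll (hf h))
    cls Q x s hQ ?_ hrel hRs S hS V
    (fun l => (V l).valuation (algebraMap k ℂ (((τ : ℚ) : k) - ((α (f l) : ℚ) : k)))) hτ ?_ ?_
    hVx ?_
  · intro i hi
    obtain ⟨P, hP, hPe⟩ := hconst i hi
    have hle : ∀ z ∈ Algebra.adjoin ℤ (algebraMap k ℂ '' Γ), z ∈ (algebraMap k ℂ).range := by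
      intro z hz
      have h9 : Algebra.adjoin ℤ (algebraMap k ℂ '' Γ) ≤
          subalgebraOfSubring (algebraMap k ℂ).range := by
        refine Algebra.adjoin_le ?_
        rintro _ ⟨g, hg, rfl⟩
        exact ⟨g, rfl⟩
      exact h9 hz
    let e : k ≃+* (algebraMap k ℂ).range := RingEquiv.ofBijective (algebraMap k ℂ).rangeRestrict
      ⟨fun a b h => (algebraMap k ℂ).injective (congrArg Subtype.val h),
        (algebraMap k ℂ).rangeRestrict_surjective⟩
    let φ : Algebra.adjoin ℤ (algebraMap k ℂ '' Γ) →+* (algebraMap k ℂ).range :=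
      (algebraMap (Algebra.adjoin ℤ (algebraMap k ℂ '' Γ)) ℂ).codRestrict _ (fun a => hle a a.2)
    let ψ : Algebra.adjoin ℤ (algebraMap k ℂ '' Γ) →+* k := (e.symm : _ →+* k).comp φ
    have hcomp : (algebraMap k ℂ).comp ψ =
        algebraMap (Algebra.adjoin ℤ (algebraMap k ℂ '' Γ)) ℂ := by
      ext a
      have h1 : e (e.symm (φ a)) = φ a := e.apply_symm_apply _
      exact congrArg Subtype.val h1
    have h1 : IsIntegral k (x i) := by
      refine ⟨P.map ψ, hP.map _, ?_⟩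
      rw [Polynomial.eval₂_map, hcomp]
      exact hPe
    exact h1.isAlgebraic
  · intro l i hi
    refine (ValuationSubring.valuation_le_one_iff _ _).2
      (W466.ZC.mem_of_integral (V l) ?_ (hconst i hi))
    intro w hw
    have hle : Algebra.adjoin ℤ (algebraMap k ℂ '' Γ) ≤ subalgebraOfSubring (V l).toSubring := by
      refine Algebra.adjoin_le ?_
      rintro _ ⟨g, hg, rfl⟩
      exact hΓV l g hg
    exact hle hw
  · intro l i u w h0
    refine v_unit (V l) (hW1V l) (hW1V' l) (Or.inr (Or.inr (Set.mem_iUnion.2 ⟨i, ?_⟩))) h0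
    refine Set.mem_biUnion (x := u) ?_ ⟨w, Polynomial.mem_support_iff.2 h0, rfl⟩
    rw [Finset.mem_coe, Polynomial.mem_support_iff]
    intro h1
    rw [h1, Polynomial.coeff_zero] at h0
    exact h0 rfl
  · intro l
    obtain ⟨t, ht0, hAB, hI⟩ := hVy l (f l) ((τ : ℚ) : k) (hτ l) y hy0 hyG
    refine ⟨Finset.univ.filter fun i => ¬ (V l).valuation (aeval (t • y)
      (spec ((τ : ℚ) : k) (A i)) * aeval (t • y) (spec ((τ : ℚ) : k) (B i))) = 1, ?_, ?_⟩
    · by_contra h
      push Not at h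
      obtain ⟨I, hIE, hIc⟩ := Finset.exists_subset_card_eq (Nat.succ_le_of_lt h)
      obtain ⟨i, hi, h1⟩ := hI I hIc
      exact (Finset.mem_filter.1 (hIE hi)).2 h1
    · intro i hi
      rw [Finset.mem_filter] at hi
      push Not at hi
      have h1 := hi (Finset.mem_univ i)
      have hA1 := (ValuationSubring.valuation_le_one_iff _ _).2 (hAB i).1
      have hB1 := (ValuationSubring.valuation_le_one_iff _ _).2 (hAB i).2
      rw [map_mul] at h1
      have hA2 : (V l).valuation (aeval (t • y) (spec ((τ : ℚ) : k) (A i))) = 1 := by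
        refine le_antisymm hA1 ?_
        by_contra h
        push Not at h
        have h2 := (mul_le_of_le_one_right' hB1).trans_lt h
        rw [h1] at h2
        exact lt_irrefl _ h2
      have hB2 : (V l).valuation (aeval (t • y) (spec ((τ : ℚ) : k) (B i))) = 1 := by
        rw [hA2, one_mul] at h1
        exact h1
      have h3 : algebraMap k ℂ ((c i).eval ((τ : ℚ) : k)) *
          aeval (t • y) (spec ((τ : ℚ) : k) (B i)) * s i =
            aeval (t • y) (spec ((τ : ℚ) : k) (A i)) := by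
        rw [spec_smul (hA i), spec_smul (hB i), ← hxy i]
        ring
      have h4 := congrArg (V l).valuation h3
      rw [map_mul, map_mul, hA2, hB2, mul_one, hcv] at h4
      rw [mul_comm]
      exact h4

end Pool.Agent.TH526.ZL
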